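import Pool.Agent.PP5K.Kmx

/-!
# Kcb: THEOREM (C2) with the weight `k(x) ^ (5/4)` (difficulty 3)

As `PP5C.cb`, `c6 = 8 c5`.  Split `S` according to `VV ≤ T ^ c5` or not.
* first part: `Tht = C (1 + gg D HH Sg)`: `C ∑ k ^ (5/4) + C * mnk`; `∑_{x ∈ S} k ^ (5/4) ≤ ∑_{n2 ≤ T ^ ck} n2 ^ (5/4) #{x ∈ S : RK n2 x}`
  and `#{..} ≤ C0 (ρ ^ 9 / R) n2 ^ (-4.95)` (`hkp` with `a = 1`; `ra C0 1 = 1`), a convergent sum (e.g. `n ^ (5/4 - 4.95) ≤ n ^ (-2)`).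
* second part: `Tht = T ^ c4`, `k ≤ T ^ ck`, and `tlx`: `T ^ (c4 + 5/4 ck - c5/10) ≤ 1`.
-/

set_option autoImplicit false

namespace Pool.Agent.PP5K

open Finset Pool.Agent.PPS Pool.Agent.PP5C

open Classical in
private theorem kcb_sum {δ δ1 C0 T1 : ℝ} (hC0 : 1 ≤ C0) (hkp : KP δ δ1 C0 T1)
    (A ck T : ℝ) (hck : ck ≤ δ1) (hT : T1 ≤ T) (hT2 : 2 ≤ T) (ρ R : ℝ) (τ Y : Fin 10 → ℝ)
    (j : Fin 10) (hs : Scl T δ δ1 ρ R τ) (S : Finset (Fin 10 → ℤ))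
    (hS : ∀ x ∈ S, Cel T A ρ R τ Y j x) (k : (Fin 10 → ℤ) → ℕ) (hk : KI T ck S k) :
    ∑ x ∈ S, (k x : ℝ) ^ (5 / 4 : ℝ) ≤ 2 * C0 * (ρ ^ 9 / R) := by
  have hT0 : 0 < T := by linarith
  have hρ : 0 < ρ := lt_of_lt_of_le (Real.rpow_pos_of_pos hT0 δ) hs.r1
  have hR : 0 < R := lt_of_lt_of_le hρ hs.r2
  have hq : 0 ≤ ρ ^ 9 / R := by positivity
  set F := S.image k with hF
  rw [← Finset.sum_fiberwise_of_maps_to (s := S) (t := F) (g := k)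
    (fun x hx => Finset.mem_image_of_mem _ hx)]
  have hterm : ∀ n ∈ F, ∑ x ∈ S with k x = n, (k x : ℝ) ^ (5 / 4 : ℝ) ≤
      C0 * (ρ ^ 9 / R) * (1 / (n : ℝ) ^ 2) := by
    intro n hn
    obtain ⟨x0, hx0, rfl⟩ := Finset.mem_image.mp hn
    set n := k x0 with hnn
    obtain ⟨h1, h2, -⟩ := hk x0 hx0
    have hn1 : (1 : ℝ) ≤ (n : ℝ) := by exact_mod_cast h1
    have e1 : ∑ x ∈ S with k x = n, (k x : ℝ) ^ (5 / 4 : ℝ) =
        ((S.filter (fun x => k x = n)).card : ℝ) * (n : ℝ) ^ (5 / 4 : ℝ) := by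
      rw [Finset.card_eq_sum_ones, Nat.cast_sum, Finset.sum_mul]
      apply Finset.sum_congr rfl
      intro x hx
      rw [(Finset.mem_filter.mp hx).2]
      push_cast
      ring
    have h3 := hkp T hT A ρ R τ Y j hs n 1 (by omega) squarefree_one (by
      rw [mul_one]
      exact h2.trans (Real.rpow_le_rpow_of_exponent_le (by linarith) hck)) S hS
    simp only [Nat.primeFactors_one, Finset.prod_empty, Finset.sum_const, nsmul_eq_mul, mul_one, ra]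
      at h3
    have h4 : ((S.filter (fun x => k x = n)).card : ℝ) ≤
        ((S.filter (fun x => RK (n : ℤ) x ∧ Nat.Coprime 1 (D2 x))).card : ℝ) := by
      have : S.filter (fun x => k x = n) ⊆
          S.filter (fun x => RK (n : ℤ) x ∧ Nat.Coprime 1 (D2 x)) := by
        intro x hx
        rw [Finset.mem_filter] at hx ⊢
        refine ⟨hx.1, ?_, Nat.coprime_one_left _⟩
        rw [← hx.2]
        exact (hk x hx.1).2.2
      exact_mod_cast Finset.card_le_card this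
    rw [e1]
    have h5 : (0 : ℝ) < (n : ℝ) := by linarith
    calc ((S.filter (fun x => k x = n)).card : ℝ) * (n : ℝ) ^ (5 / 4 : ℝ)
        ≤ (C0 * (ρ ^ 9 / R) * (n : ℝ) ^ (-(99 / 20) : ℝ)) * (n : ℝ) ^ (5 / 4 : ℝ) :=
          mul_le_mul_of_nonneg_right (h4.trans h3) (Real.rpow_nonneg h5.le _)
      _ = C0 * (ρ ^ 9 / R) * ((n : ℝ) ^ (-(99 / 20) + 5 / 4 : ℝ)) := by
          rw [Real.rpow_add h5]; ring
      _ ≤ C0 * (ρ ^ 9 / R) * (1 / (n : ℝ) ^ 2) := by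
          apply mul_le_mul_of_nonneg_left _ (by positivity)
          have e2 : 1 / (n : ℝ) ^ 2 = (n : ℝ) ^ (-2 : ℝ) := by
            rw [Real.rpow_neg h5.le, one_div]
            norm_num
          rw [e2]
          exact Real.rpow_le_rpow_of_exponent_le hn1 (by norm_num)
  refine (Finset.sum_le_sum hterm).trans ?_
  rw [← Finset.mul_sum]
  have h6 : ∑ n ∈ F, 1 / (n : ℝ) ^ 2 ≤ 2 := by
    have h7 := sum_le_hasSum F (fun n _ => by positivity) hasSum_zeta_two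
    have h8 : Real.pi ^ 2 / 6 ≤ 2 := by
      have := Real.pi_lt_d2
      have h9 := Real.pi_pos
      nlinarith
    exact h7.trans h8
  calc C0 * (ρ ^ 9 / R) * ∑ n ∈ F, 1 / (n : ℝ) ^ 2 ≤ C0 * (ρ ^ 9 / R) * 2 :=
        mul_le_mul_of_nonneg_left h6 (by positivity)
    _ = _ := by ring

theorem cbk {δ δ1 C0 T1 : ℝ} (hδ : 0 < δ) (hδ1 : 0 < δ1) (hC0 : 1 ≤ C0) (hcl : ClP δ δ1 C0 T1)
    (hkp : KP δ δ1 C0 T1)
    (A c2 c4 c5 C C1 κ ck : ℝ) (hA : 0 < A) (hc2 : 0 < c2) (hc5 : 0 < c5) (hc4 : c4 ≤ c5 / 100)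
    (hck : 0 < ck) (hck5 : ck ≤ c5 / 100)
    (h25 : c2 + 9 * c5 + ck ≤ δ1) (hC : 0 < C) (hC1 : 1 ≤ C1) (hκ : 0 ≤ κ) :
    ∃ C' T0 : ℝ, 0 < C' ∧ 2 ≤ T0 ∧ ∀ T : ℝ, T0 ≤ T → 2 ≤ T ^ c2 →
    ∀ (ρ R : ℝ) (τ Y : Fin 10 → ℝ) (j : Fin 10), Scl T δ δ1 ρ R τ → ∀ S : Finset (Fin 10 → ℤ),
    (∀ x ∈ S, Cel T A ρ R τ Y j x) → ∀ k : (Fin 10 → ℤ) → ℕ, KI T ck S k →
    ∑ x ∈ S, (k x : ℝ) ^ (5 / 4 : ℝ) * Tht T (T ^ c2) κ C C1 c4 c5 (D2 x) (vx x) (psx x) ≤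
      C' * (ρ ^ 9 / R) := by
  classical
  obtain ⟨Cm, Tm, hCm, hTm, -, hm⟩ := mnk hδ hδ1 hC0 hcl hkp A c2 c5 (8 * c5) C1 κ ck hA hc2 hc5
    (by linarith) hck (by linarith) (by linarith) hC1 hκ
  obtain ⟨Tt, hTt, -, ht⟩ := tlx hδ hδ1 hC0 hcl c2 c5 hc2 hc5 (by linarith)
  refine ⟨C * (2 * C0) + C * Cm + 1, max (max Tm Tt) (max T1 2), by positivity,
    (le_max_right _ _).trans (le_max_right _ _), ?_⟩
  intro T hT h2 ρ R τ Y j hs S hS k hk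
  have hTm' : Tm ≤ T := ((le_max_left _ _).trans (le_max_left _ _)).trans hT
  have hTt' : Tt ≤ T := ((le_max_right _ _).trans (le_max_left _ _)).trans hT
  have hT1 : T1 ≤ T := ((le_max_left _ _).trans (le_max_right _ _)).trans hT
  have hT2 : 2 ≤ T := ((le_max_right _ _).trans (le_max_right _ _)).trans hT
  have hT0 : 0 < T := by linarith
  have hρ : 0 < ρ := lt_of_lt_of_le (Real.rpow_pos_of_pos hT0 δ) hs.r1
  have hR : 0 < R := lt_of_lt_of_le hρ hs.r2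
  have hq : 0 ≤ ρ ^ 9 / R := by positivity
  rw [← Finset.sum_filter_add_sum_filter_not S
    (fun x => (VV (T ^ c2) (D2 x) (vx x) : ℝ) ≤ T ^ c5)]
  set S1 := S.filter (fun x => (VV (T ^ c2) (D2 x) (vx x) : ℝ) ≤ T ^ c5) with hS1
  set S2 := S.filter (fun x => ¬ (VV (T ^ c2) (D2 x) (vx x) : ℝ) ≤ T ^ c5) with hS2
  have e1 : ∑ x ∈ S1, (k x : ℝ) ^ (5 / 4 : ℝ) *
      Tht T (T ^ c2) κ C C1 c4 c5 (D2 x) (vx x) (psx x) =
      C * (∑ x ∈ S1, (k x : ℝ) ^ (5 / 4 : ℝ)) + C * ∑ x ∈ S1, (k x : ℝ) ^ (5 / 4 : ℝ) *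
        (gg (D2 x) * HH C1 (T ^ c2) (D2 x) (vx x) * Sg (T ^ c2) κ (psx x) (D2 x)) := by
    rw [Finset.mul_sum, Finset.mul_sum, ← Finset.sum_add_distrib]
    apply Finset.sum_congr rfl
    intro x hx
    have hx' := (Finset.mem_filter.mp hx).2
    unfold Tht
    rw [if_pos hx']
    ring
  have e2 : ∑ x ∈ S2, (k x : ℝ) ^ (5 / 4 : ℝ) *
      Tht T (T ^ c2) κ C C1 c4 c5 (D2 x) (vx x) (psx x) ≤
      (S2.card : ℝ) * T ^ (5 / 4 * ck + c4) := by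
    rw [← nsmul_eq_mul]
    apply Finset.sum_le_card_nsmul
    intro x hx
    have hx' := (Finset.mem_filter.mp hx).2
    have hx0 := (Finset.mem_filter.mp hx).1
    unfold Tht
    rw [if_neg hx', Real.rpow_add hT0]
    apply mul_le_mul_of_nonneg_right _ (Real.rpow_nonneg hT0.le _)
    have h3 : (T ^ ck) ^ (5 / 4 : ℝ) = T ^ (5 / 4 * ck) := by
      rw [← Real.rpow_mul hT0.le]; congr 1; ring
    rw [← h3]
    exact Real.rpow_le_rpow (Nat.cast_nonneg _) (hk x hx0).2.1 (by norm_num)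
  have b1 : ∑ x ∈ S1, (k x : ℝ) ^ (5 / 4 : ℝ) ≤ 2 * C0 * (ρ ^ 9 / R) := by
    apply kcb_sum hC0 hkp A ck T (by linarith) hT1 hT2 ρ R τ Y j hs S1
    · intro x hx
      exact hS x (Finset.mem_filter.mp hx).1
    · intro x hx
      exact hk x (Finset.mem_filter.mp hx).1
  have b2 := hm T hTm' h2 ρ R τ Y j hs S1 (by
    intro x hx
    exact ⟨hS x (Finset.mem_filter.mp hx).1, (Finset.mem_filter.mp hx).2⟩) k (by
    intro x hx
    exact hk x (Finset.mem_filter.mp hx).1)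
  have b3 := ht T hTt' A ρ R τ Y j hs S2 (by
    intro x hx
    exact ⟨hS x (Finset.mem_filter.mp hx).1, lt_of_not_ge (Finset.mem_filter.mp hx).2⟩)
  have b4 : (S2.card : ℝ) * T ^ (5 / 4 * ck + c4) ≤ ρ ^ 9 / R := by
    have h4 : T ^ (-(c5 / 10)) * T ^ (5 / 4 * ck + c4) ≤ 1 := by
      rw [← Real.rpow_add hT0]
      apply Real.rpow_le_one_of_one_le_of_nonpos (by linarith)
      linarith
    calc (S2.card : ℝ) * T ^ (5 / 4 * ck + c4) ≤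
          (ρ ^ 9 / R * T ^ (-(c5 / 10))) * T ^ (5 / 4 * ck + c4) :=
          mul_le_mul_of_nonneg_right b3 (Real.rpow_nonneg hT0.le _)
      _ = ρ ^ 9 / R * (T ^ (-(c5 / 10)) * T ^ (5 / 4 * ck + c4)) := by ring
      _ ≤ ρ ^ 9 / R * 1 := mul_le_mul_of_nonneg_left h4 hq
      _ = ρ ^ 9 / R := mul_one _
  rw [e1]
  have c1 := mul_le_mul_of_nonneg_left b1 hC.le
  have c3 := mul_le_mul_of_nonneg_left b2 hC.le
  nlinarith

end Pool.Agent.PP5K
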