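import Pool.Agent.PP5K.Kd

namespace Pool.Agent.PP5K

open Matrix Pool.Agent.PP5L

/-- a prime `p ∣ n` with `RK n x` divides `2 det S(x)` -/
theorem RK_dvd_det {n : ℤ} {x : Fin 10 → ℤ} (h : RK n x) {p : ℕ} (pp : p.Prime) (hp : (p : ℤ) ∣ n) :
    (p : ℤ) ∣ 2 * (SS x).det := by
  have hpr : Prime (p : ℤ) := Nat.prime_iff_prime_int.1 pp
  by_cases h2 : p = 2
  · subst h2; exact dvd_mul_right _ _
  have hp2 : ¬ (p : ℤ) ∣ 2 := by
    intro h3
    have h4 : p ∣ 2 := by exact_mod_cast h3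
    have := (Nat.prime_dvd_prime_iff_eq pp Nat.prime_two).1 h4
    exact h2 this
  obtain ⟨i, hi, hl⟩ := RK_local h pp one_ne_zero (by simpa using hp)
  simp only [pow_one] at hl
  have hri : ¬ (p : ℤ) ∣ RR x i i := by
    rw [RR_diag]
    intro h3
    rcases hpr.dvd_or_dvd h3 with h4 | h4
    · exact hp2 h4
    · exact hi h4
  apply Dvd.dvd.mul_left
  -- the kernel vectors
  have key : ∀ w : Fin 4 → ℤ, (∀ k, (p : ℤ) ∣ ∑ j, w j * (SS x) j k) → (∃ j, ¬ (p : ℤ) ∣ w j) →
      (p : ℤ) ∣ (SS x).det := by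
    rintro w hw ⟨j, hj⟩
    have h3 : (p : ℤ) ∣ w j * (SS x).det := by
      have e : w j * (SS x).det = ∑ k, (∑ a, w a * (SS x) a k) * (SS x).adjugate k j := by
        have h4 : ∀ a, ∑ k, (SS x) a k * (SS x).adjugate k j = if a = j then (SS x).det else 0 := by
          intro a
          have := congrFun (congrFun (Matrix.mul_adjugate (SS x)) a) j
          rw [Matrix.mul_apply] at this
          rw [this, Matrix.smul_apply, Matrix.one_apply]
          simp
        calc w j * (SS x).det = ∑ a, w a * (if a = j then (SS x).det else 0) := by simp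
          _ = ∑ a, w a * ∑ k, (SS x) a k * (SS x).adjugate k j := by simp only [h4]
          _ = ∑ k, (∑ a, w a * (SS x) a k) * (SS x).adjugate k j := by
              simp only [Finset.mul_sum, Finset.sum_mul]
              rw [Finset.sum_comm]
              simp only [mul_assoc]
      rw [e]
      exact Finset.dvd_sum (fun k _ => Dvd.dvd.mul_right (hw k) _)
    exact (hpr.dvd_or_dvd h3).resolve_left hj
  set r : Fin 4 → ℤ := fun j => RR x i j with hr
  have canc : ∀ z : ℤ, (p : ℤ) ∣ (2 * RR x i i) * z → (p : ℤ) ∣ z := by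
    intro z hz
    rcases hpr.dvd_or_dvd hz with h4 | h4
    · rcases hpr.dvd_or_dvd h4 with h5 | h5
      · exact absurd h5 hp2
      · exact absurd h5 hri
    · exact h4
  -- `RR_ii (r_b S_ak + ...)`
  have c01 : ∀ k, (p : ℤ) ∣ r 1 * (SS x) 0 k + r 0 * (SS x) 1 k := by
    intro k
    apply canc
    have a := hl 0 k
    have b := hl 1 k
    have e : (2 * RR x i i) * (r 1 * (SS x) 0 k + r 0 * (SS x) 1 k) =
        (![2, -2, 1, -1] : Fin 4 → ℤ) k * (r 1 * (RR x i i * RR x 0 k - RR x i 0 * RR x i k)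
          - r 0 * (RR x i i * RR x 1 k - RR x i 1 * RR x i k)) := by
      fin_cases k <;> simp [SS, RR, hr] <;> ring
    rw [e]
    exact Dvd.dvd.mul_left (dvd_sub (Dvd.dvd.mul_left a _) (Dvd.dvd.mul_left b _)) _
  have c23 : ∀ k, (p : ℤ) ∣ r 3 * (SS x) 2 k + r 2 * (SS x) 3 k := by
    intro k
    apply canc
    have a := hl 2 k
    have b := hl 3 k
    have e : (2 * RR x i i) * (r 3 * (SS x) 2 k + r 2 * (SS x) 3 k) =
        (![1, -1, -2, 2] : Fin 4 → ℤ) k * (r 3 * (RR x i i * RR x 2 k - RR x i 2 * RR x i k)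
          - r 2 * (RR x i i * RR x 3 k - RR x i 3 * RR x i k)) := by
      fin_cases k <;> simp [SS, RR, hr] <;> ring
    rw [e]
    exact Dvd.dvd.mul_left (dvd_sub (Dvd.dvd.mul_left a _) (Dvd.dvd.mul_left b _)) _
  have hii : ¬ (p : ℤ) ∣ r i := hri
  have hcase : (¬ (p : ℤ) ∣ r 0 ∨ ¬ (p : ℤ) ∣ r 1) ∨ (¬ (p : ℤ) ∣ r 2 ∨ ¬ (p : ℤ) ∣ r 3) := by
    fin_cases i
    · exact Or.inl (Or.inl hii)
    · exact Or.inl (Or.inr hii)
    · exact Or.inr (Or.inl hii)
    · exact Or.inr (Or.inr hii)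
  rcases hcase with h5 | h5
  · apply key ![r 1, r 0, 0, 0]
    · intro k
      have := c01 k
      simpa [Fin.sum_univ_four] using this
    · rcases h5 with h6 | h6
      · exact ⟨1, by simpa using h6⟩
      · exact ⟨0, by simpa using h6⟩
  · apply key ![0, 0, r 3, r 2]
    · intro k
      have := c23 k
      simpa [Fin.sum_univ_four] using this
    · rcases h5 with h6 | h6
      · exact ⟨3, by simpa using h6⟩
      · exact ⟨2, by simpa using h6⟩

end Pool.Agent.PP5K
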