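import Pool.Agent.PP5K.Kx

/-! # Ks: the classes of rank one points with the gcd weight (helper45) -/

set_option autoImplicit false

namespace Pool.Agent.PP5K

open Finset Pool.Agent.PPS Pool.Agent.PP5C

/-- a point is determined by one row of `RR` and the quarters of its coordinates -/
theorem Ks_inj {p w : ℕ} (pp : p.Prime) {x y : Fin 10 → ℤ} {i : Fin 4}
    (hxi : ¬ (p : ℤ) ∣ x (dg i))
    (hxl : ∀ j k, ((p ^ w : ℕ) : ℤ) ∣ RR x i i * RR x j k - RR x i j * RR x i k)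
    (hyl : ∀ j k, ((p ^ w : ℕ) : ℤ) ∣ RR y i i * RR y j k - RR y i j * RR y i k)
    (hrow : ∀ j, RR x i j ≡ RR y i j [ZMOD ((p ^ w : ℕ) : ℤ)])
    (hqu : ∀ m, 4 * x m / ((p ^ w : ℕ) : ℤ) = 4 * y m / ((p ^ w : ℕ) : ℤ)) : x = y := by
  set q : ℕ := p ^ w with hq
  have hq0 : 0 < q := pow_pos pp.pos _
  have hqz : (0 : ℤ) < q := by exact_mod_cast hq0
  have h2 : ∀ j k, (q : ℤ) ∣ 2 * (RR x j k - RR y j k) := by
    intro j k
    have a1 : RR x i i * RR x j k ≡ RR x i j * RR x i k [ZMOD q] :=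
      (Int.modEq_iff_dvd.2 (by
        have := (hxl j k); rw [← dvd_neg] at this; simpa using this))
    have a2 : RR y i i * RR y j k ≡ RR y i j * RR y i k [ZMOD q] :=
      (Int.modEq_iff_dvd.2 (by
        have := (hyl j k); rw [← dvd_neg] at this; simpa using this))
    have a3 : RR x i i * RR x j k ≡ RR x i i * RR y j k [ZMOD q] :=
      a1.trans (((hrow j).mul (hrow k)).trans (a2.symm.trans ((hrow i).symm.mul_right _)))
    have a4 : (q : ℤ) ∣ x (dg i) * (2 * (RR x j k - RR y j k)) := by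
      have h5 := a3.symm.dvd
      have e : x (dg i) * (2 * (RR x j k - RR y j k)) = RR x i i * RR x j k - RR x i i * RR y j k := by
        rw [RR_diag]; ring
      rw [e]; exact h5
    have a5 : (q : ℤ) ∣ x (dg i) ^ 2 * (2 * (RR x j k - RR y j k)) := by
      have : x (dg i) ^ 2 * (2 * (RR x j k - RR y j k)) = x (dg i) * (x (dg i) * (2 * (RR x j k - RR y j k))) := by ring
      rw [this]; exact Dvd.dvd.mul_left a4 _
    exact cop_cancel pp hxi a5
  have h4 : ∀ m, (q : ℤ) ∣ 4 * x m - 4 * y m := by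
    have d0 := h2 0 0
    have d2 := h2 1 1
    have d1 := h2 2 2
    have d3 := h2 3 3
    have d6 := h2 0 2
    have d8 := h2 0 3
    have d7 := h2 1 2
    have d9 := h2 1 3
    have da := h2 0 1
    have db := h2 2 3
    simp only [RR, Fin.isValue, Matrix.cons_val_zero, Matrix.cons_val_one, Matrix.cons_val] at d0 d1 d2 d3 d6 d7 d8 d9 da db
    have d4 := dvd_add da db
    have d5 := dvd_sub da db
    intro m
    fin_cases m <;> simp only [Fin.isValue, Fin.zero_eta, Fin.mk_one, Fin.reduceFinMk]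
    · convert d0 using 1; ring
    · convert d1 using 1; ring
    · convert d2 using 1; ring
    · convert d3 using 1; ring
    · have e : 4 * x 4 - 4 * y 4 = 2 * (x 4 + x 5 - (y 4 + y 5)) + 2 * (x 4 - x 5 - (y 4 - y 5)) := by ring
      rw [e]; exact d4
    · have e : 4 * x 5 - 4 * y 5 = 2 * (x 4 + x 5 - (y 4 + y 5)) - 2 * (x 4 - x 5 - (y 4 - y 5)) := by ring
      rw [e]; exact d5
    · convert d6 using 1; ring
    · convert d7 using 1; ring
    · convert d8 using 1; ring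
    · convert d9 using 1; ring
  funext m
  have e3 : 4 * x m / q = 4 * y m / q := hqu m
  have e4 : (4 * x m) % q = (4 * y m) % q := (Int.modEq_iff_dvd.2 (by
    have := h4 m; rw [← dvd_neg] at this; simpa using this) : 4 * x m ≡ 4 * y m [ZMOD q])
  have e5 := Int.mul_ediv_add_emod (4 * x m) q
  have e6 := Int.mul_ediv_add_emod (4 * y m) q
  rw [e3, e4, e6] at e5
  omega

theorem Ks_sq {p i : ℕ} (pp : p.Prime) {r : ℤ} (h : ((p ^ i : ℕ) : ℤ) ∣ r ^ 2) :
    ((p ^ ((i + 1) / 2) : ℕ) : ℤ) ∣ r := by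
  rw [Int.natCast_dvd]
  rw [Int.natCast_dvd, Int.natAbs_pow] at h
  rcases Nat.eq_zero_or_pos r.natAbs with h0 | h0
  · rw [h0]; exact dvd_zero _
  · rw [pp.pow_dvd_iff_le_factorization (by positivity)] at h ⊢
    rw [Nat.factorization_pow] at h
    simp only [Finsupp.smul_apply, smul_eq_mul] at h
    omega

theorem Ks_mult {q d : ℕ} (hd : d ∣ q) (hq : 0 < q) :
    ((Ico (0 : ℤ) q).filter (fun z => (d : ℤ) ∣ z)).card * d = q := by
  obtain ⟨k, rfl⟩ := hd
  have hd0 : 0 < d := Nat.pos_of_mul_pos_right hq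
  have e : (Ico (0 : ℤ) ((d * k : ℕ) : ℤ)).filter (fun z => (d : ℤ) ∣ z) =
      (Ico (0 : ℤ) k).image (fun t => (d : ℤ) * t) := by
    ext z
    simp only [mem_filter, mem_Ico, mem_image]
    constructor
    · rintro ⟨⟨h1, h2⟩, t, rfl⟩
      have hdz : (0 : ℤ) < d := by exact_mod_cast hd0
      refine ⟨t, ⟨?_, ?_⟩, rfl⟩
      · exact nonneg_of_mul_nonneg_right h1 hdz
      · push_cast at h2
        exact lt_of_mul_lt_mul_left h2 hdz.le
    · rintro ⟨t, ⟨h1, h2⟩, rfl⟩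
      have hdz : (0 : ℤ) < d := by exact_mod_cast hd0
      refine ⟨⟨by positivity, ?_⟩, dvd_mul_right _ _⟩
      push_cast
      exact mul_lt_mul_of_pos_left h2 hdz
  rw [e, card_image_of_injOn, Int.card_Ico]
  · simp [mul_comm]
  · intro a _ b _ hab
    have hdz : (d : ℤ) ≠ 0 := by exact_mod_cast hd0.ne'
    exact mul_left_cancel₀ hdz hab

/-- classes modulo a prime power with two diagonal entries divisible by `p ^ i` -/
theorem Ks_two {p w i : ℕ} (pp : p.Prime) (hw : w ≠ 0) (hiw : i ≤ w) {α β : Fin 4} (hab : α ≠ β)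
    (S : Finset (Fin 10 → ℤ))
    (hS : ∀ x ∈ S, (∀ j, 0 ≤ x j ∧ x j < ((p ^ w : ℕ) : ℤ)) ∧ RK ((p ^ w : ℕ) : ℤ) x ∧
      ((p ^ i : ℕ) : ℤ) ∣ x (dg α) ∧ ((p ^ i : ℕ) : ℤ) ∣ x (dg β)) :
    p ^ i * S.card ≤ 4 ^ 11 * (p ^ w) ^ 4 := by
  classical
  set q : ℕ := p ^ w with hq
  have hq0 : 0 < q := pow_pos pp.pos _
  have hqz : (0 : ℤ) < q := by exact_mod_cast hq0
  set c := (i + 1) / 2 with hc
  have hcw : c ≤ w := by omega
  have hcq : p ^ c ∣ q := pow_dvd_pow _ hcw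
  have hcqz : ((p ^ c : ℕ) : ℤ) ∣ q := by exact_mod_cast hcq
  set F : Fin 4 → Finset (Fin 10 → ℤ) := fun a => S.filter (fun x => ¬ (p : ℤ) ∣ x (dg a) ∧
      ∀ j k, (q : ℤ) ∣ RR x a a * RR x j k - RR x a j * RR x a k) with hF
  have hsub : S ⊆ (Finset.univ : Finset (Fin 4)).biUnion F := by
    intro x hx
    obtain ⟨a, ha, hl⟩ := RK_local (hS x hx).2.1 pp hw dvd_rfl
    exact Finset.mem_biUnion.2 ⟨a, Finset.mem_univ _, Finset.mem_filter.2 ⟨hx, ha, hl⟩⟩
  set N := ((Ico (0 : ℤ) q).filter (fun z => ((p ^ c : ℕ) : ℤ) ∣ z)).card with hN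
  have hNq : N * p ^ c = q := Ks_mult hcq hq0
  have hone : ∀ a : Fin 4, (F a).card ≤ 4 ^ 10 * (N ^ 2 * q ^ 2) := by
    intro a
    set RS : Fin 4 → Finset ℤ := fun j => if j = α ∨ j = β then
      (Ico (0 : ℤ) q).filter (fun z => ((p ^ c : ℕ) : ℤ) ∣ z) else Ico (0 : ℤ) q with hRS
    set T := (Fintype.piFinset RS) ×ˢ
      (Fintype.piFinset (fun _ : Fin 10 => Finset.Ico (0 : ℤ) 4)) with hT
    have hTc : T.card = 4 ^ 10 * (N ^ 2 * q ^ 2) := by
      rw [hT, Finset.card_product, Fintype.card_piFinset, Fintype.card_piFinset]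
      have h1 : ∀ j, (RS j).card = if j = α ∨ j = β then N else q := by
        intro j
        simp only [hRS]
        split_ifs
        · rfl
        · simp
      simp only [h1]
      have h2 : ∏ j : Fin 4, (if j = α ∨ j = β then N else q) = N ^ 2 * q ^ 2 := by
        rw [Finset.prod_ite, Finset.prod_const, Finset.prod_const]
        have h3 : (univ.filter (fun j : Fin 4 => j = α ∨ j = β)).card = 2 := by
          have : univ.filter (fun j : Fin 4 => j = α ∨ j = β) = {α, β} := by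
            ext j; simp
          rw [this, Finset.card_pair hab]
        have h4 : (univ.filter (fun j : Fin 4 => ¬ (j = α ∨ j = β))).card = 2 := by
          have := Finset.card_filter_add_card_filter_not (s := (univ : Finset (Fin 4))) (fun j : Fin 4 => j = α ∨ j = β)
          rw [h3] at this
          simp only [Finset.card_univ, Fintype.card_fin] at this
          omega
        rw [h3, h4]
      rw [h2]
      simp [mul_comm]
    rw [← hTc]
    apply Finset.card_le_card_of_injOn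
      (fun x => ((fun j => RR x a j % q), (fun j => 4 * x j / q)))
    · intro x hx
      simp only [hF, Finset.coe_filter, Set.mem_ofPred_eq] at hx
      obtain ⟨hxS, hxa, hxl⟩ := hx
      obtain ⟨hb, -, hα, hβ⟩ := hS x hxS
      have hdiv : ∀ γ : Fin 4, ((p ^ i : ℕ) : ℤ) ∣ x (dg γ) → ((p ^ c : ℕ) : ℤ) ∣ RR x a γ % q := by
        intro γ hγ
        have h1 : ((p ^ i : ℕ) : ℤ) ∣ RR x a γ ^ 2 := by
          have h2 := hxl γ γ
          have h3 : ((p ^ i : ℕ) : ℤ) ∣ (q : ℤ) := by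
            exact_mod_cast (pow_dvd_pow p hiw)
          have h4 : RR x a γ ^ 2 = RR x a a * RR x γ γ - (RR x a a * RR x γ γ - RR x a γ * RR x a γ) := by ring
          rw [h4]
          refine dvd_sub ?_ (h3.trans h2)
          rw [RR_diag x γ]
          exact Dvd.dvd.mul_left (Dvd.dvd.mul_left hγ _) _
        have h5 := Ks_sq pp h1
        rw [← hc] at h5
        rw [Int.emod_def]
        exact dvd_sub h5 (Dvd.dvd.mul_right hcqz _)
      simp only [hT, Finset.coe_product, Set.mem_prod, Finset.mem_coe, Fintype.mem_piFinset]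
      refine ⟨fun j => ?_, fun j => ?_⟩
      · simp only [hRS]
        have hbase : RR x a j % q ∈ Ico (0 : ℤ) q :=
          Finset.mem_Ico.2 ⟨Int.emod_nonneg _ hqz.ne', Int.emod_lt_of_pos _ hqz⟩
        split_ifs with hj
        · refine Finset.mem_filter.2 ⟨hbase, ?_⟩
          rcases hj with rfl | rfl
          · exact hdiv _ hα
          · exact hdiv _ hβ
        · exact hbase
      · rw [Finset.mem_Ico]
        constructor
        · exact Int.ediv_nonneg (by have := (hb j).1; omega) hqz.le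
        · rw [Int.ediv_lt_iff_lt_mul hqz]
          have := (hb j).2
          omega
    · intro x hx y hy hxy
      simp only [hF, Finset.coe_filter, Set.mem_ofPred_eq] at hx hy
      simp only [Prod.mk.injEq] at hxy
      obtain ⟨e1, e2⟩ := hxy
      exact Ks_inj pp hx.2.1 hx.2.2 hy.2.2 (fun j => congrFun e1 j) (fun m => congrFun e2 m)
  have h1 : S.card ≤ 4 ^ 11 * (N ^ 2 * q ^ 2) := by
    calc S.card ≤ _ := Finset.card_le_card hsub
      _ ≤ ∑ a : Fin 4, (F a).card := Finset.card_biUnion_le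
      _ ≤ ∑ _a : Fin 4, 4 ^ 10 * (N ^ 2 * q ^ 2) := Finset.sum_le_sum (fun a _ => hone a)
      _ = 4 ^ 11 * (N ^ 2 * q ^ 2) := by simp; ring
  have h2 : p ^ i ≤ (p ^ c) ^ 2 := by
    rw [← pow_mul]
    exact Nat.pow_le_pow_right pp.pos (by omega)
  calc p ^ i * S.card ≤ (p ^ c) ^ 2 * (4 ^ 11 * (N ^ 2 * q ^ 2)) := Nat.mul_le_mul h2 h1
    _ = 4 ^ 11 * ((N * p ^ c) ^ 2 * q ^ 2) := by ring
    _ = 4 ^ 11 * q ^ 4 := by rw [hNq]; ring

theorem Ks_tr (j : Fin 10) : ∃ (α β : Fin 4) (a b : Fin 3), α ≠ β ∧ tr j a = dg α ∧ tr j b = dg β := by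
  fin_cases j
  · exact ⟨0, 2, 0, 1, by decide, rfl, rfl⟩
  · exact ⟨0, 2, 1, 0, by decide, rfl, rfl⟩
  · exact ⟨1, 2, 0, 1, by decide, rfl, rfl⟩
  · exact ⟨0, 3, 1, 0, by decide, rfl, rfl⟩
  all_goals exact ⟨0, 2, 1, 2, by decide, rfl, rfl⟩

theorem Ks_gx_dvd {n : ℕ} {j : Fin 10} {x : Fin 10 → ℤ} {d : ℕ} (h : d ∣ gx n j x) (a : Fin 3) :
    (d : ℤ) ∣ x (tr j a) := by
  have h1 : gx n j x ∣ (x (tr j a)).natAbs := by
    unfold gx
    have h2 := Nat.gcd_dvd_right n (Nat.gcd (x (tr j 0)).natAbs (Nat.gcd (x (tr j 1)).natAbs (x (tr j 2)).natAbs))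
    fin_cases a
    · exact h2.trans (Nat.gcd_dvd_left _ _)
    · exact h2.trans ((Nat.gcd_dvd_right _ _).trans (Nat.gcd_dvd_left _ _))
    · exact h2.trans ((Nat.gcd_dvd_right _ _).trans (Nat.gcd_dvd_right _ _))
  exact Int.natCast_dvd.2 (h.trans h1)

theorem Ks_dvd_gx {n : ℕ} {j : Fin 10} {x : Fin 10 → ℤ} {d : ℕ} (hn : d ∣ n)
    (h : ∀ a, (d : ℤ) ∣ x (tr j a)) : d ∣ gx n j x := by
  unfold gx
  exact Nat.dvd_gcd hn (Nat.dvd_gcd (Int.natCast_dvd.1 (h 0)) (Nat.dvd_gcd (Int.natCast_dvd.1 (h 1)) (Int.natCast_dvd.1 (h 2))))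

theorem Ks_gx_congr {n : ℕ} {j : Fin 10} {x y : Fin 10 → ℤ} (h : ∀ i, (n : ℤ) ∣ x i - y i) :
    gx n j x = gx n j y := by
  have key : ∀ u v : Fin 10 → ℤ, (∀ i, (n : ℤ) ∣ u i - v i) → gx n j u ∣ gx n j v := by
    intro u v huv
    have h1 : gx n j u ∣ n := Nat.gcd_dvd_left _ _
    apply Ks_dvd_gx h1
    intro a
    have h2 := Ks_gx_dvd (dvd_refl (gx n j u)) a
    have h3 : ((gx n j u : ℕ) : ℤ) ∣ u (tr j a) - v (tr j a) :=
      (by exact_mod_cast h1 : ((gx n j u : ℕ) : ℤ) ∣ (n : ℤ)).trans (huv _)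
    have e : v (tr j a) = u (tr j a) - (u (tr j a) - v (tr j a)) := by ring
    rw [e]
    exact dvd_sub h2 h3
  exact Nat.dvd_antisymm (key x y h) (key y x (fun i => by
    have := h i
    rw [← dvd_neg] at this
    simpa using this))

open Classical in
theorem Ks_prime_pow {p w : ℕ} (pp : p.Prime) (hw : w ≠ 0) (j : Fin 10) :
    ∑ x ∈ (cub (Fin 10) (p ^ w)).filter (fun x => RK ((p ^ w : ℕ) : ℤ) x), s1 (gx (p ^ w) j x) ≤
      (w + 1) * (4 ^ 11 * (p ^ w) ^ 4) := by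
  set S := (cub (Fin 10) (p ^ w)).filter (fun x => RK ((p ^ w : ℕ) : ℤ) x) with hS
  have h1 : ∀ x ∈ S, s1 (gx (p ^ w) j x) ≤ ∑ i ∈ range (w + 1), if p ^ i ∣ gx (p ^ w) j x then p ^ i else 0 := by
    intro x _
    have h2 : gx (p ^ w) j x ∣ p ^ w := Nat.gcd_dvd_left _ _
    have h3 : (gx (p ^ w) j x).divisors ⊆ ((range (w + 1)).filter (fun i => p ^ i ∣ gx (p ^ w) j x)).image (fun i => p ^ i) := by
      intro d hd
      rw [Nat.mem_divisors] at hd
      obtain ⟨i, hi, rfl⟩ := (Nat.dvd_prime_pow pp).1 (hd.1.trans h2)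
      exact mem_image.2 ⟨i, mem_filter.2 ⟨mem_range.2 (by omega), hd.1⟩, rfl⟩
    have h4 : s1 (gx (p ^ w) j x) ≤ ∑ d ∈ ((range (w + 1)).filter (fun i => p ^ i ∣ gx (p ^ w) j x)).image (fun i => p ^ i), d := by
      unfold s1
      exact Finset.sum_le_sum_of_subset h3
    refine h4.trans ?_
    rw [Finset.sum_image (fun a _ b _ hab => Nat.pow_right_injective pp.two_le hab), Finset.sum_filter]
  calc ∑ x ∈ S, s1 (gx (p ^ w) j x) ≤ ∑ x ∈ S, ∑ i ∈ range (w + 1), (if p ^ i ∣ gx (p ^ w) j x then p ^ i else 0) :=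
        Finset.sum_le_sum h1
    _ = ∑ i ∈ range (w + 1), ∑ x ∈ S, (if p ^ i ∣ gx (p ^ w) j x then p ^ i else 0) := Finset.sum_comm
    _ ≤ ∑ _i ∈ range (w + 1), 4 ^ 11 * (p ^ w) ^ 4 := by
        apply Finset.sum_le_sum
        intro i hi
        rw [← Finset.sum_filter, Finset.sum_const, smul_eq_mul, mul_comm]
        obtain ⟨α, β, a, b, hab, ea, eb⟩ := Ks_tr j
        apply Ks_two pp hw (by rw [mem_range] at hi; omega) hab
        intro x hx
        obtain ⟨hx1, hx2⟩ := mem_filter.1 hx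
        obtain ⟨hx3, hx4⟩ := mem_filter.1 hx1
        have hbox : ∀ j, 0 ≤ x j ∧ x j < ((p ^ w : ℕ) : ℤ) := by
          intro m
          have := (Fintype.mem_piFinset.1 hx3) m
          exact Finset.mem_Ico.1 this
        refine ⟨hbox, hx4, ?_, ?_⟩
        · rw [← ea]; exact Ks_gx_dvd hx2 a
        · rw [← eb]; exact Ks_gx_dvd hx2 b
    _ = (w + 1) * (4 ^ 11 * (p ^ w) ^ 4) := by rw [Finset.sum_const, card_range, smul_eq_mul]

open Classical in
theorem Ks_nat (j : Fin 10) (n : ℕ) (hn : 0 < n) :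
    ∑ x ∈ (cub (Fin 10) n).filter (fun x => RK (n : ℤ) x), s1 (gx n j x) ≤ n.divisors.card ^ 23 * n ^ 4 := by
  induction n using Nat.recOnPosPrimePosCoprime with
  | prime_pow p w pp hw =>
    refine (Ks_prime_pow pp hw.ne' j).trans ?_
    have h0 : (p ^ w).divisors.card = w + 1 := by
      rw [Nat.divisors_prime_pow pp, Finset.card_map, Finset.card_range]
    rw [h0]
    have h1 : 4 ^ 11 ≤ (w + 1) ^ 22 := by
      calc 4 ^ 11 = 2 ^ 22 := by norm_num
        _ ≤ _ := Nat.pow_le_pow_left (by omega) 22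
    calc (w + 1) * (4 ^ 11 * (p ^ w) ^ 4) ≤ (w + 1) * ((w + 1) ^ 22 * (p ^ w) ^ 4) :=
          Nat.mul_le_mul_left _ (Nat.mul_le_mul_right _ h1)
      _ = (w + 1) ^ 23 * (p ^ w) ^ 4 := by ring
  | zero => omega
  | one =>
    have h1 : (cub (Fin 10) 1).filter (fun x => RK ((1 : ℕ) : ℤ) x) ⊆ {fun _ => 0} := by
      intro x hx
      rw [Finset.mem_singleton]
      funext m
      have := Finset.mem_Ico.1 ((Fintype.mem_piFinset.1 (mem_filter.1 hx).1) m)
      push_cast at this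
      omega
    refine (Finset.sum_le_sum_of_subset h1).trans ?_
    rw [Finset.sum_singleton]
    have : gx 1 j (fun _ => 0) = 1 := Nat.gcd_one_left _
    rw [this]
    simp [s1]
  | coprime a b ha hb hab iha ihb =>
    have ha0 : (0 : ℤ) < a := by exact_mod_cast (by omega : 0 < a)
    have hb0 : (0 : ℤ) < b := by exact_mod_cast (by omega : 0 < b)
    set Sa := (cub (Fin 10) a).filter (fun x => RK (a : ℤ) x) with hSa
    set Sb := (cub (Fin 10) b).filter (fun x => RK (b : ℤ) x) with hSb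
    set S := (cub (Fin 10) (a * b)).filter (fun x => RK ((a * b : ℕ) : ℤ) x) with hS
    set φ : (Fin 10 → ℤ) → (Fin 10 → ℤ) × (Fin 10 → ℤ) :=
      fun x => ((fun m => x m % (a : ℤ)), (fun m => x m % (b : ℤ))) with hφ
    have hmem : ∀ x ∈ S, φ x ∈ Sa ×ˢ Sb := by
      intro x hx
      obtain ⟨hx1, hx2⟩ := mem_filter.1 hx
      refine Finset.mem_product.2 ⟨mem_filter.2 ⟨?_, ?_⟩, mem_filter.2 ⟨?_, ?_⟩⟩
      · exact Fintype.mem_piFinset.2 (fun m => Finset.mem_Ico.2 ⟨Int.emod_nonneg _ ha0.ne', Int.emod_lt_of_pos _ ha0⟩)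
      · apply RK_congr (x := x) (fun m => (Int.mod_modEq _ _).symm)
        apply RK_mono _ hx2
        push_cast
        exact dvd_mul_right _ _
      · exact Fintype.mem_piFinset.2 (fun m => Finset.mem_Ico.2 ⟨Int.emod_nonneg _ hb0.ne', Int.emod_lt_of_pos _ hb0⟩)
      · apply RK_congr (x := x) (fun m => (Int.mod_modEq _ _).symm)
        apply RK_mono _ hx2
        push_cast
        exact dvd_mul_left _ _
    have hinj : Set.InjOn φ S := by
      intro x hx y hy hxy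
      have hx := (mem_filter.1 (Finset.mem_coe.1 hx)).1
      have hy := (mem_filter.1 (Finset.mem_coe.1 hy)).1
      simp only [hφ, Prod.mk.injEq] at hxy
      obtain ⟨e1, e2⟩ := hxy
      funext m
      have f1 : x m ≡ y m [ZMOD a] := congrFun e1 m
      have f2 : x m ≡ y m [ZMOD b] := congrFun e2 m
      have f3 : x m ≡ y m [ZMOD (a * b : ℕ)] := by
        push_cast
        exact (Int.modEq_and_modEq_iff_modEq_mul (by simpa using hab)).1 ⟨f1, f2⟩
      have hx1 := Finset.mem_Ico.1 ((Fintype.mem_piFinset.1 hx) m)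
      have hy1 := Finset.mem_Ico.1 ((Fintype.mem_piFinset.1 hy) m)
      rw [Int.ModEq, Int.emod_eq_of_lt hx1.1 hx1.2, Int.emod_eq_of_lt hy1.1 hy1.2] at f3
      exact f3
    have hval : ∀ x ∈ S, s1 (gx (a * b) j x) = s1 (gx a j (φ x).1) * s1 (gx b j (φ x).2) := by
      intro x _
      have g1 : gx a j (φ x).1 = gx a j x := Ks_gx_congr (fun i => (Int.mod_modEq (x i) a).symm.dvd)
      have g2 : gx b j (φ x).2 = gx b j x := Ks_gx_congr (fun i => (Int.mod_modEq (x i) b).symm.dvd)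
      have g3 : gx (a * b) j x = gx a j x * gx b j x := by
        unfold gx
        rw [Nat.gcd_comm, Nat.Coprime.gcd_mul _ hab, Nat.gcd_comm _ a, Nat.gcd_comm _ b]
      rw [g1, g2, g3]
      unfold s1
      have hc : Nat.Coprime (gx a j x) (gx b j x) :=
        Nat.Coprime.coprime_dvd_left (Nat.gcd_dvd_left _ _) (Nat.Coprime.coprime_dvd_right (Nat.gcd_dvd_left _ _) hab)
      exact hc.sum_divisors_mul
    calc ∑ x ∈ S, s1 (gx (a * b) j x) = ∑ x ∈ S, s1 (gx a j (φ x).1) * s1 (gx b j (φ x).2) :=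
          Finset.sum_congr rfl hval
      _ = ∑ y ∈ S.image φ, s1 (gx a j y.1) * s1 (gx b j y.2) := by
          rw [Finset.sum_image hinj]
      _ ≤ ∑ y ∈ Sa ×ˢ Sb, s1 (gx a j y.1) * s1 (gx b j y.2) := by
          apply Finset.sum_le_sum_of_subset
          intro y hy
          obtain ⟨x, hx, rfl⟩ := mem_image.1 hy
          exact hmem x hx
      _ = (∑ u ∈ Sa, s1 (gx a j u)) * (∑ v ∈ Sb, s1 (gx b j v)) := by
          rw [Finset.sum_product, Finset.sum_mul_sum]
      _ ≤ (a.divisors.card ^ 23 * a ^ 4) * (b.divisors.card ^ 23 * b ^ 4) :=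
          Nat.mul_le_mul (iha (by omega)) (ihb (by omega))
      _ = (a * b).divisors.card ^ 23 * (a * b) ^ 4 := by
          rw [Nat.Coprime.card_divisors_mul hab]; ring

open Classical in
theorem cls_s1 (ε : ℝ) (hε : 0 < ε) : ∃ C : ℝ, 1 ≤ C ∧ ∀ (n : ℕ) (j : Fin 10), 0 < n →
    ∑ x ∈ (cub (Fin 10) n).filter (fun x => RK (n : ℤ) x), (s1 (gx n j x) : ℝ) ≤
      C * (n : ℝ) ^ (4 + ε) := by
  obtain ⟨c, hc, hdiv⟩ := Pool.Agent.FTA.divisor_bound (ε := ε / 23) (by positivity)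
  refine ⟨max 1 (c ^ 23), le_max_left _ _, fun n j hn => ?_⟩
  have h1 := Ks_nat j n hn
  have h2 := hdiv n hn.ne'
  have hn0 : (0 : ℝ) < n := by exact_mod_cast hn
  have h3 : ((n.divisors.card : ℝ)) ^ 23 ≤ c ^ 23 * (n : ℝ) ^ ε := by
    calc ((n.divisors.card : ℝ)) ^ 23 ≤ (c * (n : ℝ) ^ (ε / 23)) ^ 23 :=
          pow_le_pow_left₀ (by positivity) h2 23
      _ = c ^ 23 * (n : ℝ) ^ ε := by
          rw [mul_pow, ← Real.rpow_natCast ((n : ℝ) ^ (ε / 23)) 23, ← Real.rpow_mul hn0.le]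
          congr 2
          push_cast; ring
  have h4 : (n : ℝ) ^ (4 + ε) = (n : ℝ) ^ ε * (n : ℝ) ^ 4 := by
    rw [← Real.rpow_natCast (n : ℝ) 4, ← Real.rpow_add hn0]; congr 1; push_cast; ring
  calc ∑ x ∈ (cub (Fin 10) n).filter (fun x => RK (n : ℤ) x), (s1 (gx n j x) : ℝ)
      ≤ (n.divisors.card : ℝ) ^ 23 * (n : ℝ) ^ 4 := by exact_mod_cast h1
    _ ≤ (c ^ 23 * (n : ℝ) ^ ε) * (n : ℝ) ^ 4 := mul_le_mul_of_nonneg_right h3 (by positivity)
    _ = c ^ 23 * (n : ℝ) ^ (4 + ε) := by rw [h4]; ring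
    _ ≤ _ := mul_le_mul_of_nonneg_right (le_max_right _ _) (by positivity)

end Pool.Agent.PP5K
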