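import Pool.Agent.PP5C.FcX
import Pool.Agent.PP5C.EqX
import Pool.Agent.PP5K.Ks
import Pool.Agent.PP5K.Kdt

/-!
# Kcx: the sum over a cell with the rank one condition (difficulty 4)

As `PP5C.clx` (`n0 = n1 = 1` there), with the condition `RK n2 x` instead.
* If `a` is not coprime to `n2` the left side is `0`: a prime `l ∣ a`, `l ∣ n2` divides `2 det S(x)` (`RK_dvd_det`), i.e. `D2 x`
  (`SS = SX` by `rfl`), contradiction to `Coprime a (D2 x)`.
* Otherwise `n = n2 a`; group the points of the filter by their class modulo `n` (`x ↦ x % n ∈ cub n`, i.e. the pair of the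
  classes modulo `n2` and `a`); `eqx` bounds each class by `C (ρ ^ 9 / (R n ^ 9)) s1 (gx n j x0)`,
  `s1 (gx n j x0) = s1 (gx n2 j x0) s1 (gx a j x0)`; the sum over the classes modulo `n2` is at most `C n2 ^ (4 + 1/20)` (`cls_s1`,
  `RK_congr`), the sum over the classes modulo `a` is at most `a ^ 9 ra C a` (`fcx` with `n0 = n1 = 1`: the filter of `fcx` is
  satisfied by the class of a point of the cell).  `C0` = the maximum of the constants (and of their product).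
-/

set_option autoImplicit false

namespace Pool.Agent.PP5K

open Finset Pool.Agent.PPS Pool.Agent.PP5C

/-- reduction modulo `n` -/
private def rd (n : ℕ) (x : Fin 10 → ℤ) : Fin 10 → ℤ := fun i => x i % (n : ℤ)

private theorem rd_mem {n : ℕ} (hn : 0 < n) (x : Fin 10 → ℤ) : rd n x ∈ cub (Fin 10) n := by
  unfold cub
  rw [Fintype.mem_piFinset]
  intro i
  rw [mem_Ico]
  have h : (n : ℤ) ≠ 0 := by exact_mod_cast hn.ne'
  exact ⟨Int.emod_nonneg _ h, Int.emod_lt_of_pos _ (by exact_mod_cast hn)⟩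

private theorem rd_cg {n : ℕ} (x : Fin 10 → ℤ) (i : Fin 10) : (n : ℤ) ∣ x i - rd n x i := by
  unfold rd
  exact Int.dvd_self_sub_emod

private theorem dx_congr {l : ℕ} {x y : Fin 10 → ℤ} (h : ∀ i, (l : ℤ) ∣ x i - y i) :
    ((DX x : ℤ) : ZMod l) = ((DX y : ℤ) : ZMod l) := by
  have hc : ∀ i, ((x i : ℤ) : ZMod l) = ((y i : ℤ) : ZMod l) := by
    intro i
    rw [← sub_eq_zero, ← Int.cast_sub, ZMod.intCast_zmod_eq_zero_iff_dvd]
    exact h i
  unfold DX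
  rw [Int.cast_det, Int.cast_det]
  congr 1
  ext i j
  fin_cases i <;> fin_cases j <;> simp [SX, hc]

private theorem psx_congr {l : ℕ} {x y : Fin 10 → ℤ} (h : ∀ i, (l : ℤ) ∣ x i - y i) :
    psx x l = psx y l := by
  unfold psx
  rw [dx_congr h]

private theorem fx_congr {n : ℕ} {x y : Fin 10 → ℤ} (h : ∀ i, (n : ℤ) ∣ x i - y i) (h0 : FX x = 0) :
    (n : ℤ) ∣ FX y := by
  have hc : ∀ i, ((x i : ℤ) : ZMod n) = ((y i : ℤ) : ZMod n) := by
    intro i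
    rw [← sub_eq_zero, ← Int.cast_sub, ZMod.intCast_zmod_eq_zero_iff_dvd]
    exact h i
  rw [← ZMod.intCast_zmod_eq_zero_iff_dvd]
  have e : ((FX x : ℤ) : ZMod n) = ((FX y : ℤ) : ZMod n) := by
    unfold FX
    push_cast
    simp only [hc]
  rw [← e, h0]
  simp

private theorem pr_dvd_d2 {l : ℕ} {x : Fin 10 → ℤ} : l ∣ D2 x ↔ (l : ℤ) ∣ 2 * DX x := by
  unfold D2
  rw [← Int.natCast_dvd_natCast]
  push_cast
  have e : (2 : ℤ) * |DX x| = |2 * DX x| := by rw [abs_mul]; norm_num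
  rw [e, dvd_abs]

private theorem d2_congr {l : ℕ} {x y : Fin 10 → ℤ} (h : ∀ i, (l : ℤ) ∣ x i - y i) :
    l ∣ D2 x ↔ l ∣ D2 y := by
  rw [pr_dvd_d2, pr_dvd_d2, ← ZMod.intCast_zmod_eq_zero_iff_dvd, ← ZMod.intCast_zmod_eq_zero_iff_dvd]
  push_cast
  rw [dx_congr h]

private theorem dv_tr {n m : ℕ} (hmn : m ∣ n) {x y : Fin 10 → ℤ} (h : ∀ i, (n : ℤ) ∣ x i - y i)
    (i : Fin 10) : (m : ℤ) ∣ x i - y i :=
  (Int.natCast_dvd_natCast.mpr hmn).trans (h i)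

private theorem cop_congr {a : ℕ} {x y : Fin 10 → ℤ} (h : ∀ i, (a : ℤ) ∣ x i - y i)
    (hx : Nat.Coprime a (D2 x)) : Nat.Coprime a (D2 y) := by
  rw [Nat.coprime_iff_gcd_eq_one] at hx ⊢
  by_contra hg
  obtain ⟨p, pp, hp⟩ := Nat.exists_prime_and_dvd hg
  have h1 : p ∣ a := hp.trans (Nat.gcd_dvd_left _ _)
  have h2 : p ∣ D2 y := hp.trans (Nat.gcd_dvd_right _ _)
  have h3 : p ∣ D2 x := (d2_congr (dv_tr h1 h)).mpr h2
  have h4 : p ∣ Nat.gcd a (D2 x) := Nat.dvd_gcd h1 h3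
  rw [hx] at h4
  exact pp.one_lt.ne' (Nat.dvd_one.mp h4)

private theorem pv_congr {l n : ℕ} (hl : l ∣ n) {x y : Fin 10 → ℤ} (h : ∀ i, (n : ℤ) ∣ x i - y i)
    (hx : Pv l x) : Pv l y := by
  obtain ⟨i, hi⟩ := hx
  refine ⟨i, fun hy => hi ?_⟩
  have := dvd_add (dv_tr hl h i) hy
  have e : x i - y i + y i = x i := by ring
  rwa [e] at this

private theorem rk_congr' {n : ℕ} {x y : Fin 10 → ℤ} (h : ∀ i, (n : ℤ) ∣ x i - y i)
    (hx : RK (n : ℤ) x) : RK (n : ℤ) y := by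
  refine RK_congr (fun j => ?_) hx
  refine (Int.modEq_iff_dvd.mpr ?_)
  have := h j
  rw [← dvd_neg] at this
  have e : -(x j - y j) = y j - x j := by ring
  rwa [e] at this

private theorem gcd_natAbs_congr {n : ℕ} {u v : ℤ} (h : (n : ℤ) ∣ u - v) {d : ℕ} (hd : d ∣ n) :
    d ∣ u.natAbs ↔ d ∣ v.natAbs := by
  have h1 : (d : ℤ) ∣ u - v := (Int.natCast_dvd_natCast.mpr hd).trans h
  rw [← Int.natCast_dvd, ← Int.natCast_dvd]
  constructor
  · intro hu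
    have := dvd_sub hu h1
    have e : u - (u - v) = v := by ring
    rwa [e] at this
  · intro hv
    have := dvd_add h1 hv
    have e : u - v + v = u := by ring
    rwa [e] at this

private theorem gx_congr {n : ℕ} {x y : Fin 10 → ℤ} (h : ∀ i, (n : ℤ) ∣ x i - y i) (j : Fin 10) :
    gx n j x = gx n j y := by
  apply Nat.dvd_antisymm
  · unfold gx
    have hn := Nat.gcd_dvd_left n (Nat.gcd (x (tr j 0)).natAbs
      (Nat.gcd (x (tr j 1)).natAbs (x (tr j 2)).natAbs))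
    have hr := Nat.gcd_dvd_right n (Nat.gcd (x (tr j 0)).natAbs
      (Nat.gcd (x (tr j 1)).natAbs (x (tr j 2)).natAbs))
    refine Nat.dvd_gcd hn (Nat.dvd_gcd ?_ (Nat.dvd_gcd ?_ ?_))
    · exact (gcd_natAbs_congr (h _) hn).mp (hr.trans (Nat.gcd_dvd_left _ _))
    · exact (gcd_natAbs_congr (h _) hn).mp (hr.trans ((Nat.gcd_dvd_right _ _).trans
        (Nat.gcd_dvd_left _ _)))
    · exact (gcd_natAbs_congr (h _) hn).mp (hr.trans ((Nat.gcd_dvd_right _ _).trans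
        (Nat.gcd_dvd_right _ _)))
  · unfold gx
    have hn := Nat.gcd_dvd_left n (Nat.gcd (y (tr j 0)).natAbs
      (Nat.gcd (y (tr j 1)).natAbs (y (tr j 2)).natAbs))
    have hr := Nat.gcd_dvd_right n (Nat.gcd (y (tr j 0)).natAbs
      (Nat.gcd (y (tr j 1)).natAbs (y (tr j 2)).natAbs))
    refine Nat.dvd_gcd hn (Nat.dvd_gcd ?_ (Nat.dvd_gcd ?_ ?_))
    · exact (gcd_natAbs_congr (h _) hn).mpr (hr.trans (Nat.gcd_dvd_left _ _))
    · exact (gcd_natAbs_congr (h _) hn).mpr (hr.trans ((Nat.gcd_dvd_right _ _).trans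
        (Nat.gcd_dvd_left _ _)))
    · exact (gcd_natAbs_congr (h _) hn).mpr (hr.trans ((Nat.gcd_dvd_right _ _).trans
        (Nat.gcd_dvd_right _ _)))

private theorem s1_mul {m n : ℕ} (h : Nat.Coprime m n) : s1 (m * n) = s1 m * s1 n := by
  unfold s1
  exact Nat.Coprime.sum_divisors_mul h

private theorem gx_mul {m n : ℕ} (h : Nat.Coprime m n) (j : Fin 10) (x : Fin 10 → ℤ) :
    s1 (gx (m * n) j x) = s1 (gx m j x) * s1 (gx n j x) := by
  unfold gx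
  rw [Nat.gcd_comm (m * n), Nat.Coprime.gcd_mul _ h, Nat.gcd_comm _ m, Nat.gcd_comm _ n]
  exact s1_mul (Nat.Coprime.coprime_dvd_left (Nat.gcd_dvd_left _ _)
    (Nat.Coprime.coprime_dvd_right (Nat.gcd_dvd_left _ _) h))

private theorem psx_nonneg (x : Fin 10 → ℤ) (l : ℕ) : 0 ≤ psx x l := by
  unfold psx
  split_ifs <;> norm_num

private theorem ra_mono {C D : ℝ} (hC : 0 ≤ C) (h : C ≤ D) (a : ℕ) : ra C a ≤ ra D a := by
  unfold ra
  apply Finset.prod_le_prod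
  · intro l _
    positivity
  · intro l _
    gcongr

private theorem rd_inj {m n : ℕ} (h : Nat.Coprime m n) :
    Set.InjOn (fun c : Fin 10 → ℤ => (rd m c, rd n c)) (cub (Fin 10) (m * n) : Set (Fin 10 → ℤ)) := by
  intro x hx y hy hxy
  have hx' : x ∈ cub (Fin 10) (m * n) := hx
  have hy' : y ∈ cub (Fin 10) (m * n) := hy
  unfold cub at hx' hy'
  rw [Fintype.mem_piFinset] at hx' hy'
  simp only [Prod.mk.injEq] at hxy
  obtain ⟨h1, h2⟩ := hxy
  funext i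
  have e1 : (m : ℤ) ∣ x i - y i := by
    have a1 := rd_cg (n := m) x i
    have a2 := rd_cg (n := m) y i
    rw [h1] at a1
    have := dvd_sub a1 a2
    have e : x i - rd m y i - (y i - rd m y i) = x i - y i := by ring
    rwa [e] at this
  have e2 : (n : ℤ) ∣ x i - y i := by
    have a1 := rd_cg (n := n) x i
    have a2 := rd_cg (n := n) y i
    rw [h2] at a1
    have := dvd_sub a1 a2
    have e : x i - rd n y i - (y i - rd n y i) = x i - y i := by ring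
    rwa [e] at this
  have e3 : ((m * n : ℕ) : ℤ) ∣ x i - y i := by
    push_cast
    exact IsCoprime.mul_dvd (Nat.isCoprime_iff_coprime.mpr h) e1 e2
  have b1 := mem_Ico.mp (hx' i)
  have b2 := mem_Ico.mp (hy' i)
  have e4 : x i - y i = 0 := by
    apply Int.eq_zero_of_abs_lt_dvd e3
    rw [abs_lt]
    constructor <;> linarith [b1.1, b1.2, b2.1, b2.2]
  linarith

open Classical in
private theorem class_sum {Cs Cf : ℝ} (hCs0 : 0 ≤ Cs)
    (hs : ∀ (n : ℕ) (j : Fin 10), 0 < n →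
      ∑ x ∈ (cub (Fin 10) n).filter (fun x => RK (n : ℤ) x), (s1 (gx n j x) : ℝ) ≤
      Cs * (n : ℝ) ^ (4 + 1 / 20 : ℝ))
    (hf : ∀ (n0 n1 a : ℕ) (j : Fin 10), Squarefree n0 → n1 ≠ 0 → Squarefree a →
      Nat.Coprime n0 n1 → Nat.Coprime n0 a → Nat.Coprime n1 a →
      ∑ x ∈ (cub (Fin 10) (n0 * n1 * a)).filter (fun x => ((n0 * n1 * a : ℕ) : ℤ) ∣ FX x ∧
        (∀ l ∈ (n0 * n1 * a).primeFactors, Pv l x) ∧ n0 ∣ D2 x ∧ An n1 x ∧ Nat.Coprime a (D2 x)),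
      (∏ l ∈ a.primeFactors, psx x l) * (s1 (gx (n0 * n1 * a) j x) : ℝ) ≤
      ((n0 * n1 * a : ℕ) : ℝ) ^ 9 * (r0 Cf n0 * r1 Cf n1 * ra Cf a))
    {n2 a : ℕ} (hn2 : n2 ≠ 0) (ha : Squarefree a) (hco : Nat.Coprime n2 a) (j : Fin 10) :
    ∑ c ∈ (cub (Fin 10) (n2 * a)).filter (fun c => RK (n2 : ℤ) c ∧ (a : ℤ) ∣ FX c ∧
        (∀ l ∈ a.primeFactors, Pv l c) ∧ Nat.Coprime a (D2 c)),
      (∏ l ∈ a.primeFactors, psx c l) * (s1 (gx (n2 * a) j c) : ℝ) ≤
    (Cs * (n2 : ℝ) ^ (4 + 1 / 20 : ℝ)) * ((a : ℝ) ^ 9 * ra Cf a) := by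
  have ha0 : 0 < a := Nat.pos_of_ne_zero ha.ne_zero
  have hn0 : 0 < n2 := Nat.pos_of_ne_zero hn2
  obtain ⟨A1, hA1⟩ : ∃ A1 : Finset (Fin 10 → ℤ), A1 =
    (cub (Fin 10) n2).filter (fun x => RK (n2 : ℤ) x) := ⟨_, rfl⟩
  obtain ⟨A2, hA2⟩ : ∃ A2 : Finset (Fin 10 → ℤ), A2 =
    (cub (Fin 10) a).filter (fun x => (a : ℤ) ∣ FX x ∧
        (∀ l ∈ a.primeFactors, Pv l x) ∧ Nat.Coprime a (D2 x)) := ⟨_, rfl⟩
  have q1 := hs n2 j hn0
  rw [← hA1] at q1
  have q2 : ∑ x ∈ A2, (∏ l ∈ a.primeFactors, psx x l) * (s1 (gx a j x) : ℝ) ≤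
      (a : ℝ) ^ 9 * ra Cf a := by
    have h1 := hf 1 1 a j squarefree_one one_ne_zero ha (Nat.coprime_one_left _)
      (Nat.coprime_one_left _) (Nat.coprime_one_left _)
    simp only [one_mul] at h1
    have e0 : r0 Cf 1 = 1 := by simp [r0]
    have e1 : r1 Cf 1 = 1 := by simp [r1]
    rw [e0, e1, one_mul, one_mul] at h1
    refine le_trans (le_of_eq ?_) h1
    rw [hA2]
    refine sum_congr ?_ (fun _ _ => rfl)
    refine filter_congr (fun x _ => ?_)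
    constructor
    · rintro ⟨a1, a2, a3⟩
      exact ⟨a1, a2, one_dvd _, fun i k => by simp, a3⟩
    · rintro ⟨a1, a2, _, _, a3⟩
      exact ⟨a1, a2, a3⟩
  have hnn : ∀ x : Fin 10 → ℤ, 0 ≤ ∏ l ∈ a.primeFactors, psx x l :=
    fun x => prod_nonneg (fun l _ => psx_nonneg x l)
  have q3 : ∑ c ∈ (cub (Fin 10) (n2 * a)).filter (fun c => RK (n2 : ℤ) c ∧ (a : ℤ) ∣ FX c ∧
        (∀ l ∈ a.primeFactors, Pv l c) ∧ Nat.Coprime a (D2 c)),
      (∏ l ∈ a.primeFactors, psx c l) * (s1 (gx (n2 * a) j c) : ℝ) ≤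
      ∑ p ∈ A1 ×ˢ A2, (s1 (gx n2 j p.1) : ℝ) *
        ((∏ l ∈ a.primeFactors, psx p.2 l) * (s1 (gx a j p.2) : ℝ)) := by
    have hinj : Set.InjOn (fun c : Fin 10 → ℤ => (rd n2 c, rd a c))
        ((cub (Fin 10) (n2 * a)).filter (fun c => RK (n2 : ℤ) c ∧ (a : ℤ) ∣ FX c ∧
        (∀ l ∈ a.primeFactors, Pv l c) ∧ Nat.Coprime a (D2 c)) : Finset (Fin 10 → ℤ)) := by
      refine (rd_inj hco).mono ?_
      intro c hc
      exact (mem_filter.mp hc).1
    calc ∑ c ∈ (cub (Fin 10) (n2 * a)).filter (fun c => RK (n2 : ℤ) c ∧ (a : ℤ) ∣ FX c ∧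
        (∀ l ∈ a.primeFactors, Pv l c) ∧ Nat.Coprime a (D2 c)),
          (∏ l ∈ a.primeFactors, psx c l) * (s1 (gx (n2 * a) j c) : ℝ)
        = ∑ c ∈ (cub (Fin 10) (n2 * a)).filter (fun c => RK (n2 : ℤ) c ∧ (a : ℤ) ∣ FX c ∧
          (∀ l ∈ a.primeFactors, Pv l c) ∧ Nat.Coprime a (D2 c)),
          (fun p : (Fin 10 → ℤ) × (Fin 10 → ℤ) => (s1 (gx n2 j p.1) : ℝ) *
          ((∏ l ∈ a.primeFactors, psx p.2 l) * (s1 (gx a j p.2) : ℝ))) (rd n2 c, rd a c) := by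
          refine sum_congr rfl (fun c _ => ?_)
          simp only
          rw [gx_mul hco, gx_congr (rd_cg (n := n2) c), gx_congr (rd_cg (n := a) c)]
          have e : ∏ l ∈ a.primeFactors, psx c l = ∏ l ∈ a.primeFactors, psx (rd a c) l := by
            refine prod_congr rfl (fun l hl => ?_)
            exact psx_congr (dv_tr (Nat.dvd_of_mem_primeFactors hl) (rd_cg (n := a) c))
          rw [e]
          push_cast
          ring
      _ = ∑ p ∈ ((cub (Fin 10) (n2 * a)).filter (fun c => RK (n2 : ℤ) c ∧ (a : ℤ) ∣ FX c ∧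
          (∀ l ∈ a.primeFactors, Pv l c) ∧ Nat.Coprime a (D2 c))).image
          (fun c : Fin 10 → ℤ => (rd n2 c, rd a c)), (s1 (gx n2 j p.1) : ℝ) *
          ((∏ l ∈ a.primeFactors, psx p.2 l) * (s1 (gx a j p.2) : ℝ)) := by
          rw [sum_image hinj]
      _ ≤ _ := by
          refine sum_le_sum_of_subset_of_nonneg ?_ (fun p _ _ => ?_)
          · intro p hp
            rw [mem_image] at hp
            obtain ⟨c, hc, rfl⟩ := hp
            rw [mem_filter] at hc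
            obtain ⟨_, c1, c2, c3, c4⟩ := hc
            rw [mem_product, hA1, hA2, mem_filter, mem_filter]
            refine ⟨⟨rd_mem hn0 c, rk_congr' (rd_cg c) c1⟩, rd_mem ha0 c, ?_, ?_, ?_⟩
            · have hd := rd_cg (n := a) c
              have hc' : ∀ i, ((c i : ℤ) : ZMod a) = ((rd a c i : ℤ) : ZMod a) := by
                intro i
                rw [← sub_eq_zero, ← Int.cast_sub, ZMod.intCast_zmod_eq_zero_iff_dvd]
                exact hd i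
              simp only
              rw [← ZMod.intCast_zmod_eq_zero_iff_dvd] at c2 ⊢
              rw [← c2]
              unfold FX
              push_cast
              simp only [hc']
            · intro l hl
              exact pv_congr (Nat.dvd_of_mem_primeFactors hl) (rd_cg (n := a) c) (c3 l hl)
            · exact cop_congr (rd_cg (n := a) c) c4
          · have := hnn p.2
            positivity
  refine q3.trans ?_
  rw [sum_product]
  calc ∑ x ∈ A1, ∑ y ∈ A2, (s1 (gx n2 j x) : ℝ) *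
        ((∏ l ∈ a.primeFactors, psx y l) * (s1 (gx a j y) : ℝ))
      = (∑ x ∈ A1, (s1 (gx n2 j x) : ℝ)) *
        ∑ y ∈ A2, (∏ l ∈ a.primeFactors, psx y l) * (s1 (gx a j y) : ℝ) := by
        rw [sum_mul_sum]
    _ ≤ (Cs * (n2 : ℝ) ^ (4 + 1 / 20 : ℝ)) * ((a : ℝ) ^ 9 * ra Cf a) := by
        apply mul_le_mul q1 q2
        · exact sum_nonneg (fun y _ => mul_nonneg (hnn y) (by positivity))
        · positivity

theorem kcx (δ : ℝ) (hδ : 0 < δ) : ∃ δ1 C T0 : ℝ, 0 < δ1 ∧ 1 ≤ C ∧ 2 ≤ T0 ∧ KP δ δ1 C T0 := by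
  classical
  obtain ⟨δ1, Ce, T0, hδ1, hCe, hT0, he⟩ := eqx δ hδ
  obtain ⟨Cf, hCf, hf⟩ := fcx
  obtain ⟨Cs, hCs, hs⟩ := cls_s1 (1 / 20) (by norm_num)
  obtain ⟨C0, hC0⟩ : ∃ C0 : ℝ, C0 = max 1 (max Cf (Ce * Cs)) := ⟨_, rfl⟩
  have c1 : 1 ≤ C0 := by rw [hC0]; exact le_max_left _ _
  have c2 : Cf ≤ C0 := by rw [hC0]; exact (le_max_left _ _).trans (le_max_right _ _)
  have c3 : Ce * Cs ≤ C0 := by rw [hC0]; exact (le_max_right _ _).trans (le_max_right _ _)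
  refine ⟨δ1, C0, T0, hδ1, c1, hT0, ?_⟩
  intro T hT A ρ R τ Y j hScl n2 a hn2 ha hna S hS
  have hT2 : 2 ≤ T := hT0.trans hT
  have hTp : 0 < T := by linarith
  have hρ0 : 0 < ρ := lt_of_lt_of_le (Real.rpow_pos_of_pos hTp _) hScl.r1
  have hR0 : 0 < R := lt_of_lt_of_le hρ0 hScl.r2
  have ha0 : 0 < a := Nat.pos_of_ne_zero ha.ne_zero
  have hn0 : 0 < n2 := Nat.pos_of_ne_zero hn2
  have hn2r : (0 : ℝ) < n2 := by exact_mod_cast hn0
  have har : (0 : ℝ) < a := by exact_mod_cast ha0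
  have hra0 : ∀ C : ℝ, 0 ≤ C → 0 ≤ ra C a := by
    intro C hC
    unfold ra
    exact prod_nonneg (fun l _ => by positivity)
  have hRHS : 0 ≤ C0 * (ρ ^ 9 / R) * ((n2 : ℝ) ^ (-(99 / 20) : ℝ) * ra C0 a) := by
    have := hra0 C0 (by linarith)
    positivity
  by_cases hco : Nat.Coprime n2 a
  swap
  · -- empty filter
    have hemp : S.filter (fun x => RK (n2 : ℤ) x ∧ Nat.Coprime a (D2 x)) = ∅ := by
      rw [filter_eq_empty_iff]
      rintro x _ ⟨h1, h2⟩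
      apply hco
      rw [Nat.coprime_iff_gcd_eq_one]
      by_contra hg
      obtain ⟨p, pp, hp⟩ := Nat.exists_prime_and_dvd hg
      have g1 : p ∣ n2 := hp.trans (Nat.gcd_dvd_left _ _)
      have g2 : p ∣ a := hp.trans (Nat.gcd_dvd_right _ _)
      have g3 : (p : ℤ) ∣ 2 * (Pool.Agent.PP5L.SS x).det :=
        RK_dvd_det h1 pp (Int.natCast_dvd_natCast.mpr g1)
      have g4 : p ∣ D2 x := pr_dvd_d2.mpr g3
      have g5 : p ∣ Nat.gcd a (D2 x) := Nat.dvd_gcd g2 g4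
      rw [Nat.coprime_iff_gcd_eq_one.mp h2] at g5
      exact pp.one_lt.ne' (Nat.dvd_one.mp g5)
    rw [hemp, sum_empty]
    exact hRHS
  obtain ⟨n, hn⟩ : ∃ n : ℕ, n = n2 * a := ⟨_, rfl⟩
  have hnp : 0 < n := by rw [hn]; positivity
  have hnr : (0 : ℝ) < n := by exact_mod_cast hnp
  obtain ⟨Fl, hFl⟩ : ∃ Fl : Finset (Fin 10 → ℤ), Fl =
    (cub (Fin 10) n).filter (fun c => RK (n2 : ℤ) c ∧ (a : ℤ) ∣ FX c ∧
        (∀ l ∈ a.primeFactors, Pv l c) ∧ Nat.Coprime a (D2 c)) := ⟨_, rfl⟩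
  have hn2n : n2 ∣ n := by rw [hn]; exact dvd_mul_right _ _
  have han : a ∣ n := by rw [hn]; exact dvd_mul_left _ _
  have hmaps : ∀ x ∈ S.filter (fun x => RK (n2 : ℤ) x ∧ Nat.Coprime a (D2 x)), rd n x ∈ Fl := by
    intro x hx
    rw [mem_filter] at hx
    obtain ⟨h1, h2, h3⟩ := hx
    have hC := hS x h1
    have hcg := rd_cg (n := n) x
    rw [hFl, mem_filter]
    refine ⟨rd_mem hnp x, rk_congr' (dv_tr hn2n hcg) h2, fx_congr (dv_tr han hcg) hC.nul, ?_,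
      cop_congr (dv_tr han hcg) h3⟩
    intro l hl
    exact pv_congr ((Nat.dvd_of_mem_primeFactors hl).trans han) hcg
      (hC.pri l (Nat.prime_of_mem_primeFactors hl))
  have hnn : ∀ x : Fin 10 → ℤ, 0 ≤ ∏ l ∈ a.primeFactors, psx x l :=
    fun x => prod_nonneg (fun l _ => psx_nonneg x l)
  obtain ⟨K, hK⟩ : ∃ K : ℝ, K = Ce * (ρ ^ 9 / (R * (n : ℝ) ^ 9)) := ⟨_, rfl⟩
  have hK0 : 0 ≤ K := by rw [hK]; positivity
  have hcls : ∀ c ∈ Fl, ∑ x ∈ (S.filter (fun x => RK (n2 : ℤ) x ∧ Nat.Coprime a (D2 x))).filter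
      (fun x => rd n x = c), ∏ l ∈ a.primeFactors, psx x l ≤
      K * ((∏ l ∈ a.primeFactors, psx c l) * (s1 (gx n j c) : ℝ)) := by
    intro c hc
    have e1 : ∀ x ∈ (S.filter (fun x => RK (n2 : ℤ) x ∧ Nat.Coprime a (D2 x))).filter
        (fun x => rd n x = c), ∏ l ∈ a.primeFactors, psx x l = ∏ l ∈ a.primeFactors, psx c l := by
      intro x hx
      have hxc := (mem_filter.mp hx).2
      refine prod_congr rfl (fun l hl => ?_)
      have hcg := rd_cg (n := n) x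
      rw [hxc] at hcg
      exact psx_congr (dv_tr ((Nat.dvd_of_mem_primeFactors hl).trans han) hcg)
    rw [sum_congr rfl e1, sum_const, nsmul_eq_mul]
    have e2 := he T hT ρ R τ Y n c j hScl.r1 hScl.r2 hScl.r3 hScl.t1 hScl.t2 hnp
      (by rw [hn]; exact hna)
      ((S.filter (fun x => RK (n2 : ℤ) x ∧ Nat.Coprime a (D2 x))).filter (fun x => rd n x = c)) (by
        intro x hx
        obtain ⟨hx1, hxc⟩ := mem_filter.mp hx
        have hC := hS x (mem_filter.mp hx1).1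
        refine ⟨hC.bx, hC.big, hC.nul, ?_⟩
        intro i
        have hcg := rd_cg (n := n) x
        rw [hxc] at hcg
        exact hcg i)
    rw [← hK] at e2
    calc (((S.filter (fun x => RK (n2 : ℤ) x ∧ Nat.Coprime a (D2 x))).filter
          (fun x => rd n x = c)).card : ℝ) * ∏ l ∈ a.primeFactors, psx c l
        ≤ (K * (s1 (gx n j c) : ℝ)) * ∏ l ∈ a.primeFactors, psx c l :=
          mul_le_mul_of_nonneg_right e2 (hnn c)
      _ = K * ((∏ l ∈ a.primeFactors, psx c l) * (s1 (gx n j c) : ℝ)) := by ring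
  have hsum := class_sum (by linarith : (0 : ℝ) ≤ Cs) hs hf hn2 ha hco j
  rw [← hn, ← hFl] at hsum
  calc ∑ x ∈ S.filter (fun x => RK (n2 : ℤ) x ∧ Nat.Coprime a (D2 x)),
        ∏ l ∈ a.primeFactors, psx x l
      = ∑ c ∈ Fl, ∑ x ∈ (S.filter (fun x => RK (n2 : ℤ) x ∧ Nat.Coprime a (D2 x))).filter
        (fun x => rd n x = c), ∏ l ∈ a.primeFactors, psx x l :=
        (sum_fiberwise_of_maps_to hmaps _).symm
    _ ≤ ∑ c ∈ Fl, K * ((∏ l ∈ a.primeFactors, psx c l) * (s1 (gx n j c) : ℝ)) := sum_le_sum hcls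
    _ = K * ∑ c ∈ Fl, (∏ l ∈ a.primeFactors, psx c l) * (s1 (gx n j c) : ℝ) := by rw [mul_sum]
    _ ≤ K * ((Cs * (n2 : ℝ) ^ (4 + 1 / 20 : ℝ)) * ((a : ℝ) ^ 9 * ra Cf a)) := by gcongr
    _ = (Ce * Cs) * (ρ ^ 9 / R) * (((n2 : ℝ) ^ (4 + 1 / 20 : ℝ) / (n2 : ℝ) ^ 9) * ra Cf a) := by
        rw [hK, hn]
        push_cast
        field_simp
    _ = (Ce * Cs) * (ρ ^ 9 / R) * ((n2 : ℝ) ^ (-(99 / 20) : ℝ) * ra Cf a) := by
        have e : (n2 : ℝ) ^ (4 + 1 / 20 : ℝ) / (n2 : ℝ) ^ 9 = (n2 : ℝ) ^ (-(99 / 20) : ℝ) := by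
          rw [← Real.rpow_natCast, ← Real.rpow_sub hn2r]
          congr 1
          norm_num
        rw [e]
    _ ≤ C0 * (ρ ^ 9 / R) * ((n2 : ℝ) ^ (-(99 / 20) : ℝ) * ra C0 a) := by
        have h1 := ra_mono (by linarith : (0 : ℝ) ≤ Cf) c2 a
        have h2 := hra0 Cf (by linarith)
        gcongr

end Pool.Agent.PP5K
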