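import Pool.Agent.PP5C.Ca
import Pool.Agent.PP5C.ClX
import Pool.Agent.PP5K.Kcx
import Pool.Agent.PP5K.Kcb

/-!
# Kcc: THEOREM C with the weight `k(x) ^ (5/4)` (difficulty 2)

As `PP5C.cc`.  `δ1` = the minimum of the `δ1` of `clx δ` and `kcx δ`, `C0` = the maximum of the constants, `T1` = the maximum
(`ClP` and `KP` are monotone in `δ1`, `C0`, `T0`: `Scl` and `n ≤ T ^ δ1` become stronger, `r0, r1, ra` are monotone in `C`; for
`T ≥ 1`); `η = δ1 / 20`; `ca δ A η`; `ck = c5 / 100`; `cbk`.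
-/

set_option autoImplicit false

namespace Pool.Agent.PP5K

open Finset Pool.Agent.PPS Pool.Agent.PP5C

private theorem kcc_gg_nonneg (n : ℕ) : 0 ≤ gg n := by
  unfold gg
  refine Finset.prod_nonneg fun l hl => ?_
  have hp := Nat.prime_of_mem_primeFactors hl
  have h1 : (1 : ℝ) / (l : ℝ) ≤ 1 := by
    have : (1 : ℝ) ≤ (l : ℝ) := by exact_mod_cast hp.one_lt.le
    rw [div_le_one (by linarith)]
    exact this
  exact inv_nonneg.mpr (by linarith)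

private theorem kcc_hh_nonneg (C : ℝ) (hC : 0 ≤ C) (l v : ℕ) : 0 ≤ hh C l v := by
  unfold hh
  split_ifs
  · positivity
  · positivity

private theorem kcc_HH_nonneg (C z : ℝ) (hC : 0 ≤ C) (D : ℕ) (v : ℕ → ℕ) : 0 ≤ HH C z D v := by
  unfold HH
  refine Finset.prod_nonneg fun l _ => ?_
  have := kcc_hh_nonneg C hC l (v l)
  linarith

private theorem kcc_Sg_nonneg (z κ : ℝ) (hz : 1 ≤ z) (ps : ℕ → ℝ) (hps : ∀ l, 0 ≤ ps l) (D : ℕ) :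
    0 ≤ Sg z κ ps D := by
  unfold Sg
  refine Finset.sum_nonneg fun i _ => mul_nonneg (div_nonneg (by positivity) ?_)
    (Finset.sum_nonneg fun a _ => mul_nonneg (div_nonneg (by positivity) (by positivity))
      (Finset.prod_nonneg fun l _ => hps l))
  unfold ww
  rw [Real.log_exp]
  exact div_nonneg (Real.log_nonneg hz) (by positivity)

private theorem kcc_psx (x : Fin 10 → ℤ) (l : ℕ) : 0 ≤ psx x l ∧ psx x l ≤ 2 := by
  unfold psx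
  split_ifs <;> constructor <;> norm_num

private theorem kcc_ctx_ne (x : Fin 10 → ℤ) (hx : DX x ≠ 0) : ctx x ≠ 0 := by
  intro h
  apply hx
  unfold ctx at h
  rw [Finset.gcd_eq_zero_iff] at h
  have hadj : (SX x).adjugate = 0 := by
    ext i j
    have h1 := h (i, j) (Finset.mem_univ _)
    have h2 : 8 * (SX x).adjugate i j = 0 := Int.natAbs_eq_zero.mp h1
    have h3 : (SX x).adjugate i j = 0 := by
      rcases mul_eq_zero.mp h2 with h | h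
      · norm_num at h
      · exact h
    simpa using h3
  have h4 := Matrix.mul_adjugate (SX x)
  rw [hadj, Matrix.mul_zero] at h4
  have h5 := congrFun (congrFun h4 0) 0
  simp at h5
  exact h5.symm

private theorem kcc_frm (x : Fin 10 → ℤ) (hx : DX x ≠ 0) (c : Matrix (Fin 4) (Fin 4) ℤ)
    (h3 : ∀ l : ℕ, l.Prime → ¬ l ∣ D2 x → ¬ (l : ℤ) ∣ (c + c.transpose).det)
    (h5 : ∀ n : ℕ, Cn n c → An n x) : Frm c (D2 x) (vx x) := by
  refine ⟨?_, ?_, h3, ?_⟩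
  · unfold D2
    have : 0 < (DX x).natAbs := Int.natAbs_pos.mpr hx
    omega
  · exact Dvd.intro _ rfl
  · intro l hl hC
    have hA := h5 _ hC
    have hd : l ^ (vx x l + 1) ∣ ctx x := by
      unfold ctx
      refine Finset.dvd_gcd fun p _ => ?_
      have := hA p.1 p.2
      exact Int.natCast_dvd.mp this
    have h6 := (hl.pow_dvd_iff_le_factorization (kcc_ctx_ne x hx)).mp hd
    unfold vx at h6
    omega

private theorem kcc_scl {T δ δ1 δ2 ρ R : ℝ} {τ : Fin 10 → ℝ} (hT : 1 ≤ T) (h12 : δ1 ≤ δ2)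
    (h : Scl T δ δ1 ρ R τ) : Scl T δ δ2 ρ R τ := by
  have hT0 : 0 < T := by linarith
  have hρ : 0 < ρ := lt_of_lt_of_le (Real.rpow_pos_of_pos hT0 δ) h.r1
  have h1 : T ^ δ1 ≤ T ^ δ2 := Real.rpow_le_rpow_of_exponent_le hT h12
  have h2 : T ^ (-δ2) ≤ T ^ (-δ1) := Real.rpow_le_rpow_of_exponent_le hT (by linarith)
  exact ⟨h.r1, h.r2, h.r3.trans (mul_le_mul_of_nonneg_right h1 hρ.le),
    fun i => ⟨h2.trans (h.t1 i).1, (h.t1 i).2.trans h1⟩, h.t2⟩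

private theorem kcc_pos {T δ δ1 ρ R : ℝ} {τ : Fin 10 → ℝ} (hT : 0 < T)
    (h : Scl T δ δ1 ρ R τ) : 0 ≤ ρ ^ 9 / R := by
  have hρ : 0 < ρ := lt_of_lt_of_le (Real.rpow_pos_of_pos hT δ) h.r1
  have hR : 0 < R := lt_of_lt_of_le hρ h.r2
  positivity

private theorem kcc_r0 {C C' : ℝ} (hC : 0 ≤ C) (h : C ≤ C') (n : ℕ) : r0 C n ≤ r0 C' n := by
  unfold r0
  exact Finset.prod_le_prod (fun l _ => by positivity) (fun l _ => by gcongr)

private theorem kcc_r0_nn {C : ℝ} (hC : 0 ≤ C) (n : ℕ) : 0 ≤ r0 C n := by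
  unfold r0
  exact Finset.prod_nonneg (fun l _ => by positivity)

private theorem kcc_ra {C C' : ℝ} (hC : 0 ≤ C) (h : C ≤ C') (n : ℕ) : ra C n ≤ ra C' n := by
  unfold ra
  exact Finset.prod_le_prod (fun l _ => by positivity) (fun l _ => by gcongr)

private theorem kcc_ra_nn {C : ℝ} (hC : 0 ≤ C) (n : ℕ) : 0 ≤ ra C n := by
  unfold ra
  exact Finset.prod_nonneg (fun l _ => by positivity)

private theorem kcc_r1 {C C' : ℝ} (hC : 0 ≤ C) (h : C ≤ C') (n : ℕ) : r1 C n ≤ r1 C' n := by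
  unfold r1 rk
  exact Finset.prod_le_prod (fun l _ => by positivity) (fun l _ => by gcongr)

private theorem kcc_r1_nn {C : ℝ} (hC : 0 ≤ C) (n : ℕ) : 0 ≤ r1 C n := by
  unfold r1 rk
  exact Finset.prod_nonneg (fun l _ => by positivity)

private theorem kcc_clp {δ δ1 δ2 C C' T0 T1 : ℝ} (h : ClP δ δ2 C T0) (h12 : δ1 ≤ δ2) (hC : 0 ≤ C)
    (hCC : C ≤ C') (hT : T0 ≤ T1) (hT1 : 1 ≤ T1) : ClP δ δ1 C' T1 := by
  intro T hTT A ρ R τ Y j hs n0 n1 a h0 h1 ha hco hn S hS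
  have hT1' : 1 ≤ T := hT1.trans hTT
  have h3 := h T (hT.trans hTT) A ρ R τ Y j (kcc_scl hT1' h12 hs) n0 n1 a h0 h1 ha hco
    (hn.trans (Real.rpow_le_rpow_of_exponent_le hT1' h12)) S hS
  have hq : 0 ≤ ρ ^ 9 / R := kcc_pos (by linarith) hs
  have hC' : 0 ≤ C' := hC.trans hCC
  refine h3.trans ?_
  apply mul_le_mul (mul_le_mul_of_nonneg_right hCC hq) _ _ (mul_nonneg hC' hq)
  · exact mul_le_mul (mul_le_mul (kcc_r0 hC hCC n0) (kcc_r1 hC hCC n1) (kcc_r1_nn hC n1)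
      (kcc_r0_nn hC' n0)) (kcc_ra hC hCC a) (kcc_ra_nn hC a)
      (mul_nonneg (kcc_r0_nn hC' n0) (kcc_r1_nn hC' n1))
  · exact mul_nonneg (mul_nonneg (kcc_r0_nn hC n0) (kcc_r1_nn hC n1)) (kcc_ra_nn hC a)

private theorem kcc_kp {δ δ1 δ2 C C' T0 T1 : ℝ} (h : KP δ δ2 C T0) (h12 : δ1 ≤ δ2) (hC : 0 ≤ C)
    (hCC : C ≤ C') (hT : T0 ≤ T1) (hT1 : 1 ≤ T1) : KP δ δ1 C' T1 := by
  intro T hTT A ρ R τ Y j hs n2 a h0 ha hn S hS
  have hT1' : 1 ≤ T := hT1.trans hTT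
  have h3 := h T (hT.trans hTT) A ρ R τ Y j (kcc_scl hT1' h12 hs) n2 a h0 ha
    (hn.trans (Real.rpow_le_rpow_of_exponent_le hT1' h12)) S hS
  have hq : 0 ≤ ρ ^ 9 / R := kcc_pos (by linarith) hs
  have hC' : 0 ≤ C' := hC.trans hCC
  refine h3.trans ?_
  have h4 : (0 : ℝ) ≤ (n2 : ℝ) ^ (-(99 / 20) : ℝ) := Real.rpow_nonneg (Nat.cast_nonneg _) _
  apply mul_le_mul (mul_le_mul_of_nonneg_right hCC hq) _ _ (mul_nonneg hC' hq)
  · exact mul_le_mul_of_nonneg_left (kcc_ra hC hCC a) h4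
  · exact mul_nonneg h4 (kcc_ra_nn hC a)

theorem cck (δ A : ℝ) (hδ : 0 < δ) (hA : 0 < A) :
    ∃ δ1 c3 ck C T0 : ℝ, 0 < δ1 ∧ 0 < c3 ∧ 0 < ck ∧ 0 < C ∧ 2 ≤ T0 ∧ ∀ T : ℝ, T0 ≤ T →
    ∃ Θ : (Fin 10 → ℤ) → ℝ, (∀ x, 0 ≤ Θ x) ∧
    (∀ x : Fin 10 → ℤ, DX x ≠ 0 → (D2 x : ℝ) ≤ T ^ A → ∀ c : Matrix (Fin 4) (Fin 4) ℤ,
      (∀ l : ℕ, l.Prime → ¬ l ∣ D2 x → ¬ (l : ℤ) ∣ (c + c.transpose).det) →
      (∀ n : ℕ, Cn n c → An n x) →
      ∀ (A0 : Fin 4 → ℤ) (H : ℕ), T ^ δ ≤ (H : ℝ) →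
      ∀ (om : (Fin 4 → ℤ) → ℕ → ℝ) (ix : (Fin 4 → ℤ) → ℕ → ℕ) (S : Finset (Fin 4 → ℤ)),
      (∀ m ∈ S, m ∈ bx A0 (fun _ => H) ∧ Pm m ∧ qf c m ≠ 0 ∧ ((qf c m).natAbs : ℝ) ≤ T ^ A ∧
        Wgt (D2 x) (qf c m).natAbs (psx x) (om m) (ix m) ∧
        (sx (D2 x) (qf c m).natAbs (ix m) : ℝ) ≤ T ^ c3) →
      ∑ m ∈ S, ∏ l ∈ (qf c m).natAbs.primeFactors, om m l ≤ (H : ℝ) ^ 4 * Θ x) ∧
    (∀ (ρ R : ℝ) (τ Y : Fin 10 → ℝ) (j : Fin 10), Scl T δ δ1 ρ R τ → ∀ S : Finset (Fin 10 → ℤ),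
      (∀ x ∈ S, Cel T A ρ R τ Y j x) → ∀ k : (Fin 10 → ℤ) → ℕ, KI T ck S k →
      ∑ x ∈ S, (k x : ℝ) ^ (5 / 4 : ℝ) * Θ x ≤ C * (ρ ^ 9 / R)) := by
  obtain ⟨δa, Ca, Ta, hδa, hCa, hTa, hcla⟩ := clx δ hδ
  obtain ⟨δb, Cb, Tb, hδb, hCb, hTb, hkpb⟩ := kcx δ hδ
  set δ1 := min δa δb with hδ1d
  set C0 := max Ca Cb with hC0d
  set T1 := max Ta Tb with hT1d
  have hδ1 : 0 < δ1 := lt_min hδa hδb
  have hC0 : 1 ≤ C0 := le_max_of_le_left hCa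
  have hT1 : 2 ≤ T1 := le_max_of_le_left hTa
  have hcl : ClP δ δ1 C0 T1 := kcc_clp hcla (min_le_left _ _) (by linarith) (le_max_left _ _)
    (le_max_left _ _) (by linarith)
  have hkp : KP δ δ1 C0 T1 := kcc_kp hkpb (min_le_right _ _) (by linarith) (le_max_right _ _)
    (le_max_right _ _) (by linarith)
  obtain ⟨c2, c3, c4, c5, C, C1, κ, T2, hc2, hc2η, hc3, hc4, hc45, hc5, hc5η, hC, hC1, hκ, hT2, hca⟩ :=
    ca δ A (δ1 / 20) hδ hA (by positivity)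
  obtain ⟨C', T3, hC', hT3, hcb⟩ := cbk hδ hδ1 hC0 hcl hkp A c2 c4 c5 C C1 κ (c5 / 100) hA hc2 hc5
    hc45 (by positivity) le_rfl (by linarith) hC hC1 hκ
  refine ⟨δ1, c3, c5 / 100, C', max T2 T3, hδ1, hc3, by positivity, hC', le_max_of_le_left hT2,
    fun T hT => ?_⟩
  have hTT2 : T2 ≤ T := le_trans (le_max_left _ _) hT
  have hTT3 : T3 ≤ T := le_trans (le_max_right _ _) hT
  obtain ⟨h4, hca2⟩ := hca T hTT2
  refine ⟨fun x => Tht T (T ^ c2) κ C C1 c4 c5 (D2 x) (vx x) (psx x), ?_, ?_, ?_⟩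
  · intro x
    show 0 ≤ Tht T (T ^ c2) κ C C1 c4 c5 (D2 x) (vx x) (psx x)
    unfold Tht
    split_ifs
    · refine mul_nonneg hC.le ?_
      have h1 := kcc_gg_nonneg (D2 x)
      have h2 := kcc_HH_nonneg C1 (T ^ c2) (by linarith) (D2 x) (vx x)
      have h3 := kcc_Sg_nonneg (T ^ c2) κ (by linarith) (psx x) (fun l => (kcc_psx x l).1) (D2 x)
      have h5 := mul_nonneg (mul_nonneg h1 h2) h3
      linarith
    · have : (0 : ℝ) ≤ T := by linarith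
      exact Real.rpow_nonneg this _
  · intro x hx hD c h3 h5 A0 H hH om ix S hS
    exact hca2 c (D2 x) (vx x) (kcc_frm x hx c h3 h5) hD A0 H hH (psx x) (kcc_psx x) om ix S hS
  · intro ρ R τ Y j hscl S hS k hk
    exact hcb T hTT3 (by linarith) ρ R τ Y j hscl S hS k hk

end Pool.Agent.PP5K
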