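import Pool.Agent.PP5.LFin

/-!
# PP5, section (K): the index `k(x)`

`k(x)` is the index of the lattice spanned by the four vectors `HP x (rho i)` in its saturation:
`det S(x) = k^2 det G`, and `k` divides all `4 x 4` minors of the `16 x 4` matrix `HP x (rho i)`.
-/

namespace Pool.Agent.PP5K

open Matrix Module Pool.Agent.PP5L

theorem kx_exists {x x' : Fin 10 → ℤ} (hF : FF x = 0) (h1 : bF x x' = 1)
    (hD : (SS x).det ≠ 0) (b : Basis (Fin 4) ℤ (Lx x)) (G : Matrix (Fin 4) (Fin 4) ℤ)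
    (hG : ∀ i j, G i j = bx x' (b i) (b j)) :
    ∃ k : ℤ, (SS x).det = k ^ 2 * G.det ∧
      ∀ c : Fin 4 → Fin 16, k ∣ (Matrix.of fun i a => HP x (rho i) (c a)).det := by
  obtain ⟨e, he⟩ := exists_completion hF h1 hD b
  -- dual basis
  choose φ hφK hφ using fun a : Fin 4 ⊕ Fin 4 => functional_Kx hF h1 (e.coord a)
  have hφe : ∀ a c, bx x' (φ a) (e c) = if a = c then 1 else 0 := by
    intro a c
    rw [hφ a (e c)]
    simp [Finsupp.single_apply, eq_comm]
  -- expansion in the dual basis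
  have hexp : ∀ ψ ∈ Kx x, ψ = ∑ a, bx x' ψ (e a) • φ a := by
    intro ψ hψ
    have hmem : ψ - ∑ a, bx x' ψ (e a) • φ a ∈ Kx x :=
      Submodule.sub_mem _ hψ (Submodule.sum_mem _ fun a _ => Submodule.smul_mem _ _ (hφK a))
    have hz : ψ - ∑ a, bx x' ψ (e a) • φ a = 0 := by
      apply bx_nondeg hF h1 hmem
      intro t ht
      have hrep := e.sum_repr ⟨t, ht⟩
      have hrep2 : t = ∑ c, (e.repr ⟨t, ht⟩ c) • ((e c : Kx x) : Fin 16 → ℤ) := by
        have := congrArg (Subtype.val) hrep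
        simp only [AddSubmonoidClass.coe_finsetSum, SetLike.val_smul] at this
        exact this.symm
      have hbase : ∀ c, bx x' (ψ - ∑ a, bx x' ψ (e a) • φ a) (e c) = 0 := by
        intro c
        have e1 : bx x' (ψ - ∑ a, bx x' ψ (e a) • φ a) (e c) =
            bx x' ψ (e c) - ∑ a, bx x' ψ (e a) * bx x' (φ a) (e c) := by
          rw [← bx_sum_left]
          have := map_sub ((bxl x').flip ((e c : Kx x) : Fin 16 → ℤ) : (Fin 16 → ℤ) →ₗ[ℤ] ℤ) ψ
            (∑ a, bx x' ψ (e a) • φ a)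
          simpa only [LinearMap.flip_apply, bxl_apply] using this
        rw [e1]
        simp only [hφe]
        simp
      rw [bx_symm, hrep2, bx_sum_left]
      refine Finset.sum_eq_zero (fun c _ => ?_)
      rw [bx_symm, hbase, mul_zero]
    exact sub_eq_zero.1 hz
  -- the matrices
  set U : Matrix (Fin 4 ⊕ Fin 4) (Fin 4 ⊕ Fin 4) ℤ := Matrix.of fun a c => bx x' (e a) (e c) with hU
  set V : Matrix (Fin 4 ⊕ Fin 4) (Fin 4 ⊕ Fin 4) ℤ := Matrix.of fun a c => bx x' (φ a) (φ c) with hV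
  have hUV : U * V = 1 := by
    ext a c
    simp only [hU, hV, Matrix.mul_apply, Matrix.of_apply, Matrix.one_apply]
    have h2 := hexp _ (e a).2
    have h3 : bx x' (e a) (φ c) = ∑ k, bx x' (e a) (e k) * bx x' (φ k) (φ c) := by
      conv_lhs => rw [h2]
      rw [bx_sum_left]
    rw [← h3, bx_symm, hφe]
    by_cases h : a = c <;> simp [h, eq_comm]
  have hVU : V * U = 1 := mul_eq_one_comm.1 hUV
  have hdetU : U.det = 1 := by
    obtain ⟨j, hj⟩ := exists_coord_ne h1
    have hc := chart_det hF h1 (fun a => ((e a : Kx x) : Fin 16 → ℤ)) (fun a => (e a).2) j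
    have h2 := congrArg Matrix.det hUV
    rw [Matrix.det_mul, Matrix.det_one] at h2
    have hpos : 0 ≤ U.det := by
      by_contra hneg
      push Not at hneg
      have h8 : (0 : ℤ) < (x j) ^ 8 := by
        have : (x j) ^ 8 = ((x j) ^ 4) ^ 2 := by ring
        rw [this]; positivity
      have h9 : (x j) ^ 8 * U.det < 0 := mul_neg_of_pos_of_neg h8 hneg
      rw [hU] at h9
      rw [hc] at h9
      exact absurd h9 (not_lt.2 (sq_nonneg _))
    rcases Int.isUnit_iff.1 (IsUnit.of_mul_eq_one _ h2) with h3 | h3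
    · exact h3
    · omega
  have hUb : U = Matrix.fromBlocks U.toBlocks₁₁ U.toBlocks₁₂ U.toBlocks₂₁ U.toBlocks₂₂ :=
    (Matrix.fromBlocks_toBlocks U).symm
  have hVb : V = Matrix.fromBlocks V.toBlocks₁₁ V.toBlocks₁₂ V.toBlocks₂₁ V.toBlocks₂₂ :=
    (Matrix.fromBlocks_toBlocks V).symm
  have hU11 : U.toBlocks₁₁ = G := by
    ext i j
    simp only [Matrix.toBlocks₁₁, hU, Matrix.of_apply, he, hG]
  -- S = C W C^T
  set Cm : Matrix (Fin 4) (Fin 4) ℤ := Matrix.of fun i k => bx x' (HP x (rho i)) (e (Sum.inr k))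
    with hCm
  have hrho : ∀ i, HP x (rho i) = ∑ k, Cm i k • φ (Sum.inr k) := by
    intro i
    have h2 := hexp _ (HP_mem_Kx hF (rho i))
    rw [Fintype.sum_sum_type] at h2
    have h3 : ∑ a : Fin 4, bx x' (HP x (rho i)) (e (Sum.inl a)) • φ (Sum.inl a) = 0 := by
      refine Finset.sum_eq_zero (fun a _ => ?_)
      rw [he, bx_HP_rho h1 (b a).2, zero_smul]
    rw [h3, zero_add] at h2
    exact h2
  have hS : SS x = Cm * V.toBlocks₂₂ * Cmᵀ := by
    ext i j
    have e1 : SS x i j = bx x' (HP x (rho i)) (HP x (rho j)) := by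
      rw [bx_HP h1 _ (HP_mem_Kx hF _), ← SS_eq, dot_HP_symm]
    rw [e1, hrho i, bx_sum_left, Matrix.mul_assoc, Matrix.mul_apply]
    refine Finset.sum_congr rfl (fun k _ => ?_)
    congr 1
    rw [hrho j, bx_symm, bx_sum_left, Matrix.mul_apply]
    refine Finset.sum_congr rfl (fun l _ => ?_)
    simp only [Matrix.toBlocks₂₂, hV, Matrix.of_apply, Matrix.transpose_apply]
    rw [bx_symm, mul_comm]
  have hdetW : (V.toBlocks₂₂).det = G.det := by
    have hUV2 : Matrix.fromBlocks U.toBlocks₁₁ U.toBlocks₁₂ U.toBlocks₂₁ U.toBlocks₂₂ *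
        Matrix.fromBlocks V.toBlocks₁₁ V.toBlocks₁₂ V.toBlocks₂₁ V.toBlocks₂₂ =
        Matrix.fromBlocks 1 0 0 1 := by
      rw [← hUb, ← hVb, hUV, Matrix.fromBlocks_one]
    rw [Matrix.fromBlocks_multiply, Matrix.fromBlocks_inj] at hUV2
    obtain ⟨-, h12, -, h22⟩ := hUV2
    have hM : Matrix.fromBlocks U.toBlocks₁₁ U.toBlocks₁₂ U.toBlocks₂₁ U.toBlocks₂₂ *
        Matrix.fromBlocks 1 V.toBlocks₁₂ 0 V.toBlocks₂₂ =
        Matrix.fromBlocks U.toBlocks₁₁ 0 U.toBlocks₂₁ 1 := by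
      rw [Matrix.fromBlocks_multiply]
      simp [h12, h22]
    have hd := congrArg Matrix.det hM
    rw [Matrix.det_mul, ← hUb, hdetU, Matrix.det_fromBlocks_zero₂₁, Matrix.det_fromBlocks_zero₁₂,
      hU11, Matrix.det_one] at hd
    simpa using hd
  refine ⟨Cm.det, ?_, fun c => ?_⟩
  · rw [hS, Matrix.det_mul, Matrix.det_mul, Matrix.det_transpose, hdetW]; ring
  · have hm : (Matrix.of fun i a => HP x (rho i) (c a)) =
        Cm * (Matrix.of fun (k : Fin 4) (a : Fin 4) => φ (Sum.inr k) (c a)) := by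
      ext i a
      simp only [Matrix.of_apply, Matrix.mul_apply]
      rw [hrho i]
      simp [Finset.sum_apply]
    rw [hm, Matrix.det_mul]
    exact dvd_mul_right _ _

end Pool.Agent.PP5K
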