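import Pool.Agent.PP5.LDefs

namespace Pool.Agent.PP5K

open Matrix Pool.Agent.PP5L

def NM (x : Fin 10 → ℤ) : Fin 16 → Fin 4 → ℤ := ![
  ![0, x 1, 0, x 6], ![x 3, 0, x 9, 0], ![-x 7, 0, 0, -x 2], ![0, -x 8, -x 0, 0],
  ![-x 0, x 4, 0, x 8], ![x 4, -x 2, x 7, 0], ![-x 6, 0, x 1, -x 4], ![0, -x 9, -x 4, x 3],
  ![0, -x 6, 0, -x 0], ![-x 9, 0, -x 2, 0], ![0, x 3, x 8, 0], ![x 1, 0, 0, x 7],
  ![x 0, -x 5, x 6, 0], ![-x 5, x 2, 0, x 9], ![0, -x 7, -x 1, -x 5], ![-x 8, 0, -x 5, -x 3]]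

theorem NM_eq (x : Fin 10 → ℤ) (i : Fin 4) (c : Fin 16) : HP x (rho i) c = NM x c i := by
  fin_cases i <;> fin_cases c <;>
    (simp only [Fin.zero_eta, Fin.mk_one, Fin.reduceFinMk, HP, rho, NM, Matrix.cons_val]
     ring)

theorem det4 (a b c d : Fin 4 → ℤ) : (Matrix.of fun (i j : Fin 4) => (![a, b, c, d] j) i).det =
    (a 0 * b 1 - a 1 * b 0) * (c 2 * d 3 - c 3 * d 2) - (a 0 * b 2 - a 2 * b 0) * (c 1 * d 3 - c 3 * d 1)
    + (a 0 * b 3 - a 3 * b 0) * (c 1 * d 2 - c 2 * d 1) + (a 1 * b 2 - a 2 * b 1) * (c 0 * d 3 - c 3 * d 0)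
    - (a 1 * b 3 - a 3 * b 1) * (c 0 * d 2 - c 2 * d 0) + (a 2 * b 3 - a 3 * b 2) * (c 0 * d 1 - c 1 * d 0) := by
  simp [Matrix.det_succ_row_zero, Fin.sum_univ_succ, Fin.succAbove]
  ring

theorem mdet (x : Fin 10 → ℤ) (p q r s : Fin 16) :
    (Matrix.of fun i a => HP x (rho i) ((![p, q, r, s] : Fin 4 → Fin 16) a)).det =
    (Matrix.of fun (i j : Fin 4) => (![NM x p, NM x q, NM x r, NM x s] j) i).det := by
  congr 1
  ext i a
  fin_cases a <;> simp [NM_eq]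

theorem rel_011 {x : Fin 10 → ℤ} (hF : FF x = 0) {k : ℤ} (hk : ∀ c : Fin 4 → Fin 16, k ∣ (Matrix.of fun i a => HP x (rho i) (c a)).det) :
    k ∣ (x 0) ^ 2 * (4 * x 0 * x 2 - x 4 * x 4 - 2 * x 4 * x 5 - x 5 * x 5) := by
  have e : (x 0) ^ 2 * (4 * x 0 * x 2 - x 4 * x 4 - 2 * x 4 * x 5 - x 5 * x 5) =
      (1) * (Matrix.of fun i a => HP x (rho i) ((![0, 1, 3, 8] : Fin 4 → Fin 16) a)).det +
      (1) * (Matrix.of fun i a => HP x (rho i) ((![0, 3, 6, 10] : Fin 4 → Fin 16) a)).det +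
      (1) * (Matrix.of fun i a => HP x (rho i) ((![0, 8, 10, 15] : Fin 4 → Fin 16) a)).det +
      (3) * (Matrix.of fun i a => HP x (rho i) ((![0, 3, 4, 7] : Fin 4 → Fin 16) a)).det +
      (1) * (Matrix.of fun i a => HP x (rho i) ((![3, 8, 14, 15] : Fin 4 → Fin 16) a)).det +
      (2) * (Matrix.of fun i a => HP x (rho i) ((![0, 3, 4, 15] : Fin 4 → Fin 16) a)).det +
      (1) * (Matrix.of fun i a => HP x (rho i) ((![3, 4, 5, 8] : Fin 4 → Fin 16) a)).det +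
      (2) * (Matrix.of fun i a => HP x (rho i) ((![3, 4, 8, 13] : Fin 4 → Fin 16) a)).det +
      (1) * (Matrix.of fun i a => HP x (rho i) ((![3, 8, 12, 13] : Fin 4 → Fin 16) a)).det := by
    simp only [mdet, det4]
    simp only [NM, Matrix.cons_val]
    ring
  rw [e]
  exact (dvd_add (dvd_add (dvd_add (dvd_add (dvd_add (dvd_add (dvd_add (dvd_add (dvd_mul_of_dvd_right (hk _) _) (dvd_mul_of_dvd_right (hk _) _)) (dvd_mul_of_dvd_right (hk _) _)) (dvd_mul_of_dvd_right (hk _) _)) (dvd_mul_of_dvd_right (hk _) _)) (dvd_mul_of_dvd_right (hk _) _)) (dvd_mul_of_dvd_right (hk _) _)) (dvd_mul_of_dvd_right (hk _) _)) (dvd_mul_of_dvd_right (hk _) _))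

theorem rel_012 {x : Fin 10 → ℤ} (hF : FF x = 0) {k : ℤ} (hk : ∀ c : Fin 4 → Fin 16, k ∣ (Matrix.of fun i a => HP x (rho i) (c a)).det) :
    k ∣ (x 0) ^ 2 * (2 * x 0 * x 7 - x 4 * x 6 - x 5 * x 6) := by
  have e : (x 0) ^ 2 * (2 * x 0 * x 7 - x 4 * x 6 - x 5 * x 6) =
      (1) * (Matrix.of fun i a => HP x (rho i) ((![0, 3, 8, 15] : Fin 4 → Fin 16) a)).det +
      (-2) * (Matrix.of fun i a => HP x (rho i) ((![3, 4, 8, 14] : Fin 4 → Fin 16) a)).det +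
      (1) * (Matrix.of fun i a => HP x (rho i) ((![0, 3, 4, 12] : Fin 4 → Fin 16) a)).det := by
    simp only [mdet, det4]
    simp only [NM, Matrix.cons_val]
    ring
  rw [e]
  exact (dvd_add (dvd_add (dvd_mul_of_dvd_right (hk _) _) (dvd_mul_of_dvd_right (hk _) _)) (dvd_mul_of_dvd_right (hk _) _))

theorem rel_013 {x : Fin 10 → ℤ} (hF : FF x = 0) {k : ℤ} (hk : ∀ c : Fin 4 → Fin 16, k ∣ (Matrix.of fun i a => HP x (rho i) (c a)).det) :
    k ∣ (x 0) ^ 2 * (2 * x 0 * x 9 - x 4 * x 8 - x 5 * x 8) := by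
  have e : (x 0) ^ 2 * (2 * x 0 * x 9 - x 4 * x 8 - x 5 * x 8) =
      (1) * (Matrix.of fun i a => HP x (rho i) ((![0, 3, 4, 10] : Fin 4 → Fin 16) a)).det +
      (2) * (Matrix.of fun i a => HP x (rho i) ((![3, 4, 7, 8] : Fin 4 → Fin 16) a)).det +
      (-1) * (Matrix.of fun i a => HP x (rho i) ((![3, 4, 8, 15] : Fin 4 → Fin 16) a)).det := by
    simp only [mdet, det4]
    simp only [NM, Matrix.cons_val]
    ring
  rw [e]
  exact (dvd_add (dvd_add (dvd_mul_of_dvd_right (hk _) _) (dvd_mul_of_dvd_right (hk _) _)) (dvd_mul_of_dvd_right (hk _) _))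

theorem rel_022 {x : Fin 10 → ℤ} (hF : FF x = 0) {k : ℤ} (hk : ∀ c : Fin 4 → Fin 16, k ∣ (Matrix.of fun i a => HP x (rho i) (c a)).det) :
    k ∣ (x 0) ^ 2 * (x 0 * x 1 - x 6 * x 6) := by
  have e : (x 0) ^ 2 * (x 0 * x 1 - x 6 * x 6) =
      (-1) * (Matrix.of fun i a => HP x (rho i) ((![0, 3, 4, 8] : Fin 4 → Fin 16) a)).det := by
    simp only [mdet, det4]
    simp only [NM, Matrix.cons_val]
    ring
  rw [e]
  exact (dvd_mul_of_dvd_right (hk _) _)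

theorem rel_023 {x : Fin 10 → ℤ} (hF : FF x = 0) {k : ℤ} (hk : ∀ c : Fin 4 → Fin 16, k ∣ (Matrix.of fun i a => HP x (rho i) (c a)).det) :
    k ∣ (x 0) ^ 2 * (x 0 * x 4 - x 0 * x 5 - 2 * x 6 * x 8) := by
  have e : (x 0) ^ 2 * (x 0 * x 4 - x 0 * x 5 - 2 * x 6 * x 8) =
      (1) * (Matrix.of fun i a => HP x (rho i) ((![3, 4, 8, 12] : Fin 4 → Fin 16) a)).det := by
    simp only [mdet, det4]
    simp only [NM, Matrix.cons_val]
    ring
  rw [e]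
  exact (dvd_mul_of_dvd_right (hk _) _)

theorem rel_033 {x : Fin 10 → ℤ} (hF : FF x = 0) {k : ℤ} (hk : ∀ c : Fin 4 → Fin 16, k ∣ (Matrix.of fun i a => HP x (rho i) (c a)).det) :
    k ∣ (x 0) ^ 2 * (x 0 * x 3 - x 8 * x 8) := by
  have e : (x 0) ^ 2 * (x 0 * x 3 - x 8 * x 8) =
      (1) * (Matrix.of fun i a => HP x (rho i) ((![3, 4, 8, 10] : Fin 4 → Fin 16) a)).det := by
    simp only [mdet, det4]
    simp only [NM, Matrix.cons_val]
    ring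
  rw [e]
  exact (dvd_mul_of_dvd_right (hk _) _)

theorem rel_100 {x : Fin 10 → ℤ} (hF : FF x = 0) {k : ℤ} (hk : ∀ c : Fin 4 → Fin 16, k ∣ (Matrix.of fun i a => HP x (rho i) (c a)).det) :
    k ∣ (x 2) ^ 2 * (4 * x 0 * x 2 - x 4 * x 4 - 2 * x 4 * x 5 - x 5 * x 5) := by
  have e : (x 2) ^ 2 * (4 * x 0 * x 2 - x 4 * x 4 - 2 * x 4 * x 5 - x 5 * x 5) =
      (1) * (Matrix.of fun i a => HP x (rho i) ((![0, 1, 2, 9] : Fin 4 → Fin 16) a)).det +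
      (-1) * (Matrix.of fun i a => HP x (rho i) ((![1, 2, 7, 11] : Fin 4 → Fin 16) a)).det +
      (-1) * (Matrix.of fun i a => HP x (rho i) ((![1, 9, 11, 14] : Fin 4 → Fin 16) a)).det +
      (1) * (Matrix.of fun i a => HP x (rho i) ((![1, 2, 5, 6] : Fin 4 → Fin 16) a)).det +
      (-3) * (Matrix.of fun i a => HP x (rho i) ((![2, 9, 14, 15] : Fin 4 → Fin 16) a)).det +
      (2) * (Matrix.of fun i a => HP x (rho i) ((![1, 2, 5, 14] : Fin 4 → Fin 16) a)).det +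
      (-1) * (Matrix.of fun i a => HP x (rho i) ((![2, 4, 5, 9] : Fin 4 → Fin 16) a)).det +
      (-2) * (Matrix.of fun i a => HP x (rho i) ((![2, 4, 9, 13] : Fin 4 → Fin 16) a)).det +
      (-1) * (Matrix.of fun i a => HP x (rho i) ((![2, 9, 12, 13] : Fin 4 → Fin 16) a)).det := by
    simp only [mdet, det4]
    simp only [NM, Matrix.cons_val]
    ring
  rw [e]
  exact (dvd_add (dvd_add (dvd_add (dvd_add (dvd_add (dvd_add (dvd_add (dvd_add (dvd_mul_of_dvd_right (hk _) _) (dvd_mul_of_dvd_right (hk _) _)) (dvd_mul_of_dvd_right (hk _) _)) (dvd_mul_of_dvd_right (hk _) _)) (dvd_mul_of_dvd_right (hk _) _)) (dvd_mul_of_dvd_right (hk _) _)) (dvd_mul_of_dvd_right (hk _) _)) (dvd_mul_of_dvd_right (hk _) _)) (dvd_mul_of_dvd_right (hk _) _))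

theorem rel_102 {x : Fin 10 → ℤ} (hF : FF x = 0) {k : ℤ} (hk : ∀ c : Fin 4 → Fin 16, k ∣ (Matrix.of fun i a => HP x (rho i) (c a)).det) :
    k ∣ (x 2) ^ 2 * (2 * x 2 * x 6 - x 4 * x 7 - x 5 * x 7) := by
  have e : (x 2) ^ 2 * (2 * x 2 * x 6 - x 4 * x 7 - x 5 * x 7) =
      (1) * (Matrix.of fun i a => HP x (rho i) ((![1, 2, 5, 11] : Fin 4 → Fin 16) a)).det +
      (2) * (Matrix.of fun i a => HP x (rho i) ((![2, 5, 6, 9] : Fin 4 → Fin 16) a)).det +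
      (-1) * (Matrix.of fun i a => HP x (rho i) ((![2, 5, 9, 14] : Fin 4 → Fin 16) a)).det := by
    simp only [mdet, det4]
    simp only [NM, Matrix.cons_val]
    ring
  rw [e]
  exact (dvd_add (dvd_add (dvd_mul_of_dvd_right (hk _) _) (dvd_mul_of_dvd_right (hk _) _)) (dvd_mul_of_dvd_right (hk _) _))

theorem rel_103 {x : Fin 10 → ℤ} (hF : FF x = 0) {k : ℤ} (hk : ∀ c : Fin 4 → Fin 16, k ∣ (Matrix.of fun i a => HP x (rho i) (c a)).det) :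
    k ∣ (x 2) ^ 2 * (2 * x 2 * x 8 - x 4 * x 9 - x 5 * x 9) := by
  have e : (x 2) ^ 2 * (2 * x 2 * x 8 - x 4 * x 9 - x 5 * x 9) =
      (1) * (Matrix.of fun i a => HP x (rho i) ((![1, 2, 9, 14] : Fin 4 → Fin 16) a)).det +
      (-2) * (Matrix.of fun i a => HP x (rho i) ((![2, 5, 9, 15] : Fin 4 → Fin 16) a)).det +
      (1) * (Matrix.of fun i a => HP x (rho i) ((![1, 2, 5, 13] : Fin 4 → Fin 16) a)).det := by
    simp only [mdet, det4]
    simp only [NM, Matrix.cons_val]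
    ring
  rw [e]
  exact (dvd_add (dvd_add (dvd_mul_of_dvd_right (hk _) _) (dvd_mul_of_dvd_right (hk _) _)) (dvd_mul_of_dvd_right (hk _) _))

theorem rel_122 {x : Fin 10 → ℤ} (hF : FF x = 0) {k : ℤ} (hk : ∀ c : Fin 4 → Fin 16, k ∣ (Matrix.of fun i a => HP x (rho i) (c a)).det) :
    k ∣ (x 2) ^ 2 * (x 1 * x 2 - x 7 * x 7) := by
  have e : (x 2) ^ 2 * (x 1 * x 2 - x 7 * x 7) =
      (1) * (Matrix.of fun i a => HP x (rho i) ((![2, 5, 9, 11] : Fin 4 → Fin 16) a)).det := by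
    simp only [mdet, det4]
    simp only [NM, Matrix.cons_val]
    ring
  rw [e]
  exact (dvd_mul_of_dvd_right (hk _) _)

theorem rel_123 {x : Fin 10 → ℤ} (hF : FF x = 0) {k : ℤ} (hk : ∀ c : Fin 4 → Fin 16, k ∣ (Matrix.of fun i a => HP x (rho i) (c a)).det) :
    k ∣ (x 2) ^ 2 * (x 2 * x 4 - x 2 * x 5 - 2 * x 7 * x 9) := by
  have e : (x 2) ^ 2 * (x 2 * x 4 - x 2 * x 5 - 2 * x 7 * x 9) =
      (1) * (Matrix.of fun i a => HP x (rho i) ((![2, 5, 9, 13] : Fin 4 → Fin 16) a)).det := by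
    simp only [mdet, det4]
    simp only [NM, Matrix.cons_val]
    ring
  rw [e]
  exact (dvd_mul_of_dvd_right (hk _) _)

theorem rel_133 {x : Fin 10 → ℤ} (hF : FF x = 0) {k : ℤ} (hk : ∀ c : Fin 4 → Fin 16, k ∣ (Matrix.of fun i a => HP x (rho i) (c a)).det) :
    k ∣ (x 2) ^ 2 * (x 2 * x 3 - x 9 * x 9) := by
  have e : (x 2) ^ 2 * (x 2 * x 3 - x 9 * x 9) =
      (-1) * (Matrix.of fun i a => HP x (rho i) ((![1, 2, 5, 9] : Fin 4 → Fin 16) a)).det := by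
    simp only [mdet, det4]
    simp only [NM, Matrix.cons_val]
    ring
  rw [e]
  exact (dvd_mul_of_dvd_right (hk _) _)

theorem rel_200 {x : Fin 10 → ℤ} (hF : FF x = 0) {k : ℤ} (hk : ∀ c : Fin 4 → Fin 16, k ∣ (Matrix.of fun i a => HP x (rho i) (c a)).det) :
    k ∣ (x 1) ^ 2 * (x 0 * x 1 - x 6 * x 6) := by
  have e : (x 1) ^ 2 * (x 0 * x 1 - x 6 * x 6) =
      (1) * (Matrix.of fun i a => HP x (rho i) ((![0, 6, 8, 11] : Fin 4 → Fin 16) a)).det := by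
    simp only [mdet, det4]
    simp only [NM, Matrix.cons_val]
    ring
  rw [e]
  exact (dvd_mul_of_dvd_right (hk _) _)

theorem rel_201 {x : Fin 10 → ℤ} (hF : FF x = 0) {k : ℤ} (hk : ∀ c : Fin 4 → Fin 16, k ∣ (Matrix.of fun i a => HP x (rho i) (c a)).det) :
    k ∣ (x 1) ^ 2 * (x 1 * x 4 + x 1 * x 5 - 2 * x 6 * x 7) := by
  have e : (x 1) ^ 2 * (x 1 * x 4 + x 1 * x 5 - 2 * x 6 * x 7) =
      (-1) * (Matrix.of fun i a => HP x (rho i) ((![0, 6, 11, 14] : Fin 4 → Fin 16) a)).det := by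
    simp only [mdet, det4]
    simp only [NM, Matrix.cons_val]
    ring
  rw [e]
  exact (dvd_mul_of_dvd_right (hk _) _)

theorem rel_203 {x : Fin 10 → ℤ} (hF : FF x = 0) {k : ℤ} (hk : ∀ c : Fin 4 → Fin 16, k ∣ (Matrix.of fun i a => HP x (rho i) (c a)).det) :
    k ∣ (x 1) ^ 2 * (2 * x 1 * x 8 - x 4 * x 6 + x 5 * x 6) := by
  have e : (x 1) ^ 2 * (2 * x 1 * x 8 - x 4 * x 6 + x 5 * x 6) =
      (1) * (Matrix.of fun i a => HP x (rho i) ((![0, 2, 6, 8] : Fin 4 → Fin 16) a)).det +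
      (2) * (Matrix.of fun i a => HP x (rho i) ((![0, 4, 6, 11] : Fin 4 → Fin 16) a)).det +
      (1) * (Matrix.of fun i a => HP x (rho i) ((![0, 6, 11, 12] : Fin 4 → Fin 16) a)).det := by
    simp only [mdet, det4]
    simp only [NM, Matrix.cons_val]
    ring
  rw [e]
  exact (dvd_add (dvd_add (dvd_mul_of_dvd_right (hk _) _) (dvd_mul_of_dvd_right (hk _) _)) (dvd_mul_of_dvd_right (hk _) _))

theorem rel_211 {x : Fin 10 → ℤ} (hF : FF x = 0) {k : ℤ} (hk : ∀ c : Fin 4 → Fin 16, k ∣ (Matrix.of fun i a => HP x (rho i) (c a)).det) :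
    k ∣ (x 1) ^ 2 * (x 1 * x 2 - x 7 * x 7) := by
  have e : (x 1) ^ 2 * (x 1 * x 2 - x 7 * x 7) =
      (-1) * (Matrix.of fun i a => HP x (rho i) ((![0, 2, 6, 11] : Fin 4 → Fin 16) a)).det := by
    simp only [mdet, det4]
    simp only [NM, Matrix.cons_val]
    ring
  rw [e]
  exact (dvd_mul_of_dvd_right (hk _) _)

theorem rel_213 {x : Fin 10 → ℤ} (hF : FF x = 0) {k : ℤ} (hk : ∀ c : Fin 4 → Fin 16, k ∣ (Matrix.of fun i a => HP x (rho i) (c a)).det) :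
    k ∣ (x 1) ^ 2 * (2 * x 1 * x 9 - x 4 * x 7 + x 5 * x 7) := by
  have e : (x 1) ^ 2 * (2 * x 1 * x 9 - x 4 * x 7 + x 5 * x 7) =
      (1) * (Matrix.of fun i a => HP x (rho i) ((![0, 2, 11, 12] : Fin 4 → Fin 16) a)).det +
      (2) * (Matrix.of fun i a => HP x (rho i) ((![0, 6, 11, 13] : Fin 4 → Fin 16) a)).det +
      (1) * (Matrix.of fun i a => HP x (rho i) ((![0, 2, 6, 14] : Fin 4 → Fin 16) a)).det := by
    simp only [mdet, det4]
    simp only [NM, Matrix.cons_val]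
    ring
  rw [e]
  exact (dvd_add (dvd_add (dvd_mul_of_dvd_right (hk _) _) (dvd_mul_of_dvd_right (hk _) _)) (dvd_mul_of_dvd_right (hk _) _))

theorem rel_233 {x : Fin 10 → ℤ} (hF : FF x = 0) {k : ℤ} (hk : ∀ c : Fin 4 → Fin 16, k ∣ (Matrix.of fun i a => HP x (rho i) (c a)).det) :
    k ∣ (x 1) ^ 2 * (4 * x 1 * x 3 - x 4 * x 4 + 2 * x 4 * x 5 - x 5 * x 5) := by
  have e : (x 1) ^ 2 * (4 * x 1 * x 3 - x 4 * x 4 + 2 * x 4 * x 5 - x 5 * x 5) =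
      (-1) * (Matrix.of fun i a => HP x (rho i) ((![0, 8, 9, 11] : Fin 4 → Fin 16) a)).det +
      (-3) * (Matrix.of fun i a => HP x (rho i) ((![0, 2, 4, 6] : Fin 4 → Fin 16) a)).det +
      (1) * (Matrix.of fun i a => HP x (rho i) ((![0, 11, 12, 13] : Fin 4 → Fin 16) a)).det +
      (2) * (Matrix.of fun i a => HP x (rho i) ((![0, 2, 6, 12] : Fin 4 → Fin 16) a)).det +
      (-1) * (Matrix.of fun i a => HP x (rho i) ((![0, 6, 7, 11] : Fin 4 → Fin 16) a)).det +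
      (-2) * (Matrix.of fun i a => HP x (rho i) ((![0, 6, 11, 15] : Fin 4 → Fin 16) a)).det +
      (-1) * (Matrix.of fun i a => HP x (rho i) ((![0, 11, 14, 15] : Fin 4 → Fin 16) a)).det := by
    simp only [mdet, det4]
    simp only [NM, Matrix.cons_val]
    ring
  rw [e]
  exact (dvd_add (dvd_add (dvd_add (dvd_add (dvd_add (dvd_add (dvd_mul_of_dvd_right (hk _) _) (dvd_mul_of_dvd_right (hk _) _)) (dvd_mul_of_dvd_right (hk _) _)) (dvd_mul_of_dvd_right (hk _) _)) (dvd_mul_of_dvd_right (hk _) _)) (dvd_mul_of_dvd_right (hk _) _)) (dvd_mul_of_dvd_right (hk _) _))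

theorem rel_300 {x : Fin 10 → ℤ} (hF : FF x = 0) {k : ℤ} (hk : ∀ c : Fin 4 → Fin 16, k ∣ (Matrix.of fun i a => HP x (rho i) (c a)).det) :
    k ∣ (x 3) ^ 2 * (x 0 * x 3 - x 8 * x 8) := by
  have e : (x 3) ^ 2 * (x 0 * x 3 - x 8 * x 8) =
      (-1) * (Matrix.of fun i a => HP x (rho i) ((![1, 3, 7, 10] : Fin 4 → Fin 16) a)).det := by
    simp only [mdet, det4]
    simp only [NM, Matrix.cons_val]
    ring
  rw [e]
  exact (dvd_mul_of_dvd_right (hk _) _)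

theorem rel_301 {x : Fin 10 → ℤ} (hF : FF x = 0) {k : ℤ} (hk : ∀ c : Fin 4 → Fin 16, k ∣ (Matrix.of fun i a => HP x (rho i) (c a)).det) :
    k ∣ (x 3) ^ 2 * (x 3 * x 4 + x 3 * x 5 - 2 * x 8 * x 9) := by
  have e : (x 3) ^ 2 * (x 3 * x 4 + x 3 * x 5 - 2 * x 8 * x 9) =
      (-1) * (Matrix.of fun i a => HP x (rho i) ((![1, 7, 10, 15] : Fin 4 → Fin 16) a)).det := by
    simp only [mdet, det4]
    simp only [NM, Matrix.cons_val]
    ring
  rw [e]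
  exact (dvd_mul_of_dvd_right (hk _) _)

theorem rel_302 {x : Fin 10 → ℤ} (hF : FF x = 0) {k : ℤ} (hk : ∀ c : Fin 4 → Fin 16, k ∣ (Matrix.of fun i a => HP x (rho i) (c a)).det) :
    k ∣ (x 3) ^ 2 * (2 * x 3 * x 6 - x 4 * x 8 + x 5 * x 8) := by
  have e : (x 3) ^ 2 * (2 * x 3 * x 6 - x 4 * x 8 + x 5 * x 8) =
      (1) * (Matrix.of fun i a => HP x (rho i) ((![1, 3, 10, 13] : Fin 4 → Fin 16) a)).det +
      (2) * (Matrix.of fun i a => HP x (rho i) ((![1, 7, 10, 12] : Fin 4 → Fin 16) a)).det +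
      (1) * (Matrix.of fun i a => HP x (rho i) ((![1, 3, 7, 15] : Fin 4 → Fin 16) a)).det := by
    simp only [mdet, det4]
    simp only [NM, Matrix.cons_val]
    ring
  rw [e]
  exact (dvd_add (dvd_add (dvd_mul_of_dvd_right (hk _) _) (dvd_mul_of_dvd_right (hk _) _)) (dvd_mul_of_dvd_right (hk _) _))

theorem rel_311 {x : Fin 10 → ℤ} (hF : FF x = 0) {k : ℤ} (hk : ∀ c : Fin 4 → Fin 16, k ∣ (Matrix.of fun i a => HP x (rho i) (c a)).det) :
    k ∣ (x 3) ^ 2 * (x 2 * x 3 - x 9 * x 9) := by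
  have e : (x 3) ^ 2 * (x 2 * x 3 - x 9 * x 9) =
      (1) * (Matrix.of fun i a => HP x (rho i) ((![1, 7, 9, 10] : Fin 4 → Fin 16) a)).det := by
    simp only [mdet, det4]
    simp only [NM, Matrix.cons_val]
    ring
  rw [e]
  exact (dvd_mul_of_dvd_right (hk _) _)

theorem rel_312 {x : Fin 10 → ℤ} (hF : FF x = 0) {k : ℤ} (hk : ∀ c : Fin 4 → Fin 16, k ∣ (Matrix.of fun i a => HP x (rho i) (c a)).det) :
    k ∣ (x 3) ^ 2 * (2 * x 3 * x 7 - x 4 * x 9 + x 5 * x 9) := by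
  have e : (x 3) ^ 2 * (2 * x 3 * x 7 - x 4 * x 9 + x 5 * x 9) =
      (1) * (Matrix.of fun i a => HP x (rho i) ((![1, 3, 7, 9] : Fin 4 → Fin 16) a)).det +
      (2) * (Matrix.of fun i a => HP x (rho i) ((![1, 5, 7, 10] : Fin 4 → Fin 16) a)).det +
      (1) * (Matrix.of fun i a => HP x (rho i) ((![1, 7, 10, 13] : Fin 4 → Fin 16) a)).det := by
    simp only [mdet, det4]
    simp only [NM, Matrix.cons_val]
    ring
  rw [e]
  exact (dvd_add (dvd_add (dvd_mul_of_dvd_right (hk _) _) (dvd_mul_of_dvd_right (hk _) _)) (dvd_mul_of_dvd_right (hk _) _))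

theorem rel_322 {x : Fin 10 → ℤ} (hF : FF x = 0) {k : ℤ} (hk : ∀ c : Fin 4 → Fin 16, k ∣ (Matrix.of fun i a => HP x (rho i) (c a)).det) :
    k ∣ (x 3) ^ 2 * (4 * x 1 * x 3 - x 4 * x 4 + 2 * x 4 * x 5 - x 5 * x 5) := by
  have e : (x 3) ^ 2 * (4 * x 1 * x 3 - x 4 * x 4 + 2 * x 4 * x 5 - x 5 * x 5) =
      (-1) * (Matrix.of fun i a => HP x (rho i) ((![1, 8, 9, 10] : Fin 4 → Fin 16) a)).det +
      (-1) * (Matrix.of fun i a => HP x (rho i) ((![1, 3, 5, 7] : Fin 4 → Fin 16) a)).det +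
      (-3) * (Matrix.of fun i a => HP x (rho i) ((![1, 10, 12, 13] : Fin 4 → Fin 16) a)).det +
      (2) * (Matrix.of fun i a => HP x (rho i) ((![1, 3, 7, 13] : Fin 4 → Fin 16) a)).det +
      (1) * (Matrix.of fun i a => HP x (rho i) ((![1, 6, 7, 10] : Fin 4 → Fin 16) a)).det +
      (2) * (Matrix.of fun i a => HP x (rho i) ((![1, 6, 10, 15] : Fin 4 → Fin 16) a)).det +
      (1) * (Matrix.of fun i a => HP x (rho i) ((![1, 10, 14, 15] : Fin 4 → Fin 16) a)).det := by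
    simp only [mdet, det4]
    simp only [NM, Matrix.cons_val]
    ring
  rw [e]
  exact (dvd_add (dvd_add (dvd_add (dvd_add (dvd_add (dvd_add (dvd_mul_of_dvd_right (hk _) _) (dvd_mul_of_dvd_right (hk _) _)) (dvd_mul_of_dvd_right (hk _) _)) (dvd_mul_of_dvd_right (hk _) _)) (dvd_mul_of_dvd_right (hk _) _)) (dvd_mul_of_dvd_right (hk _) _)) (dvd_mul_of_dvd_right (hk _) _))

theorem dia_6 {x : Fin 10 → ℤ} (hF : FF x = 0) {k : ℤ} (hk : ∀ c : Fin 4 → Fin 16, k ∣ (Matrix.of fun i a => HP x (rho i) (c a)).det) :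
    k ∣ (x 6) ^ 2 * (x 0 * x 1 - x 6 * x 6) := by
  have e : (x 6) ^ 2 * (x 0 * x 1 - x 6 * x 6) =
      (1) * (Matrix.of fun i a => HP x (rho i) ((![0, 3, 8, 11] : Fin 4 → Fin 16) a)).det +
      (1) * (Matrix.of fun i a => HP x (rho i) ((![0, 6, 8, 12] : Fin 4 → Fin 16) a)).det := by
    simp only [mdet, det4]
    simp only [NM, Matrix.cons_val]
    ring
  rw [e]
  exact (dvd_add (dvd_mul_of_dvd_right (hk _) _) (dvd_mul_of_dvd_right (hk _) _))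

theorem dia_7 {x : Fin 10 → ℤ} (hF : FF x = 0) {k : ℤ} (hk : ∀ c : Fin 4 → Fin 16, k ∣ (Matrix.of fun i a => HP x (rho i) (c a)).det) :
    k ∣ (x 7) ^ 2 * (x 1 * x 2 - x 7 * x 7) := by
  have e : (x 7) ^ 2 * (x 1 * x 2 - x 7 * x 7) =
      (-1) * (Matrix.of fun i a => HP x (rho i) ((![0, 2, 9, 11] : Fin 4 → Fin 16) a)).det +
      (-1) * (Matrix.of fun i a => HP x (rho i) ((![2, 5, 11, 14] : Fin 4 → Fin 16) a)).det := by
    simp only [mdet, det4]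
    simp only [NM, Matrix.cons_val]
    ring
  rw [e]
  exact (dvd_add (dvd_mul_of_dvd_right (hk _) _) (dvd_mul_of_dvd_right (hk _) _))

theorem dia_8 {x : Fin 10 → ℤ} (hF : FF x = 0) {k : ℤ} (hk : ∀ c : Fin 4 → Fin 16, k ∣ (Matrix.of fun i a => HP x (rho i) (c a)).det) :
    k ∣ (x 8) ^ 2 * (x 0 * x 3 - x 8 * x 8) := by
  have e : (x 8) ^ 2 * (x 0 * x 3 - x 8 * x 8) =
      (-1) * (Matrix.of fun i a => HP x (rho i) ((![1, 3, 8, 10] : Fin 4 → Fin 16) a)).det +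
      (-1) * (Matrix.of fun i a => HP x (rho i) ((![3, 4, 10, 15] : Fin 4 → Fin 16) a)).det := by
    simp only [mdet, det4]
    simp only [NM, Matrix.cons_val]
    ring
  rw [e]
  exact (dvd_add (dvd_mul_of_dvd_right (hk _) _) (dvd_mul_of_dvd_right (hk _) _))

theorem dia_9 {x : Fin 10 → ℤ} (hF : FF x = 0) {k : ℤ} (hk : ∀ c : Fin 4 → Fin 16, k ∣ (Matrix.of fun i a => HP x (rho i) (c a)).det) :
    k ∣ (x 9) ^ 2 * (x 2 * x 3 - x 9 * x 9) := by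
  have e : (x 9) ^ 2 * (x 2 * x 3 - x 9 * x 9) =
      (1) * (Matrix.of fun i a => HP x (rho i) ((![1, 2, 9, 10] : Fin 4 → Fin 16) a)).det +
      (1) * (Matrix.of fun i a => HP x (rho i) ((![1, 7, 9, 13] : Fin 4 → Fin 16) a)).det := by
    simp only [mdet, det4]
    simp only [NM, Matrix.cons_val]
    ring
  rw [e]
  exact (dvd_add (dvd_mul_of_dvd_right (hk _) _) (dvd_mul_of_dvd_right (hk _) _))

theorem low_a {x : Fin 10 → ℤ} {k : ℤ} (hk : ∀ c : Fin 4 → Fin 16, k ∣ (Matrix.of fun i a => HP x (rho i) (c a)).det) :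
    k ∣ x 0 * x 1 * x 2 * x 3 - x 0 * x 2 * x 4 * x 4 - x 0 * x 4 * x 7 * x 9 - x 1 * x 3 * x 4 * x 4 - x 1 * x 4 * x 8 * x 9 - x 2 * x 4 * x 6 * x 8 - x 3 * x 4 * x 6 * x 7 + x 4 * x 4 * x 4 * x 4 - x 6 * x 7 * x 8 * x 9 := by
  have e : x 0 * x 1 * x 2 * x 3 - x 0 * x 2 * x 4 * x 4 - x 0 * x 4 * x 7 * x 9 - x 1 * x 3 * x 4 * x 4 - x 1 * x 4 * x 8 * x 9 - x 2 * x 4 * x 6 * x 8 - x 3 * x 4 * x 6 * x 7 + x 4 * x 4 * x 4 * x 4 - x 6 * x 7 * x 8 * x 9 = (Matrix.of fun i a => HP x (rho i) ((![4, 5, 6, 7] : Fin 4 → Fin 16) a)).det := by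
    simp only [mdet, det4]
    simp [NM]
    ring
  rw [e]; exact hk _

theorem low_b {x : Fin 10 → ℤ} {k : ℤ} (hk : ∀ c : Fin 4 → Fin 16, k ∣ (Matrix.of fun i a => HP x (rho i) (c a)).det) :
    k ∣ x 0 * x 1 * x 2 * x 3 - x 0 * x 2 * x 5 * x 5 + x 0 * x 5 * x 7 * x 9 - x 1 * x 3 * x 5 * x 5 - x 1 * x 5 * x 8 * x 9 + x 2 * x 5 * x 6 * x 8 - x 3 * x 5 * x 6 * x 7 + x 5 * x 5 * x 5 * x 5 - x 6 * x 7 * x 8 * x 9 := by
  have e : x 0 * x 1 * x 2 * x 3 - x 0 * x 2 * x 5 * x 5 + x 0 * x 5 * x 7 * x 9 - x 1 * x 3 * x 5 * x 5 - x 1 * x 5 * x 8 * x 9 + x 2 * x 5 * x 6 * x 8 - x 3 * x 5 * x 6 * x 7 + x 5 * x 5 * x 5 * x 5 - x 6 * x 7 * x 8 * x 9 = (Matrix.of fun i a => HP x (rho i) ((![12, 13, 14, 15] : Fin 4 → Fin 16) a)).det := by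
    simp only [mdet, det4]
    simp [NM]
    ring
  rw [e]; exact hk _

end Pool.Agent.PP5K
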