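import Pool.Agent.PP5K.Ka
import Pool.Agent.PP5K.Kb

namespace Pool.Agent.PP5K

open Matrix Module Pool.Agent.PP5L

/-- the coordinate of `x` on the `i`-th diagonal place of `R(x)` -/
def dg : Fin 4 → Fin 10 := ![0, 2, 1, 3]

/-- the symmetric matrix `2 R(x)` -/
def RR (x : Fin 10 → ℤ) : Fin 4 → Fin 4 → ℤ :=
  ![![2 * x 0, x 4 + x 5, 2 * x 6, 2 * x 8], ![x 4 + x 5, 2 * x 2, 2 * x 7, 2 * x 9],
    ![2 * x 6, 2 * x 7, 2 * x 1, x 4 - x 5], ![2 * x 8, 2 * x 9, x 4 - x 5, 2 * x 3]]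

/-- `x` is a rank one point modulo `n`: the condition satisfied by the index `n = k(x)` -/
def RK (n : ℤ) (x : Fin 10 → ℤ) : Prop :=
  (∀ p : ℕ, p.Prime → (p : ℤ) ∣ n → ∃ i, ¬ (p : ℤ) ∣ x (dg i)) ∧
    ∀ i j k, n ∣ (x (dg i)) ^ 2 * (RR x i i * RR x j k - RR x i j * RR x i k)

theorem RR_symm (x : Fin 10 → ℤ) (i j : Fin 4) : RR x i j = RR x j i := by
  fin_cases i <;> fin_cases j <;> rfl

theorem RR_diag (x : Fin 10 → ℤ) (i : Fin 4) : RR x i i = 2 * x (dg i) := by
  fin_cases i <;> rfl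

theorem dvd_of_eq_mul {k a b c : ℤ} (h : k ∣ a) (e : b = c * a) : k ∣ b := by
  rw [e]; exact Dvd.dvd.mul_left h c

theorem RK_of_minors {x : Fin 10 → ℤ} (hF : FF x = 0)
    (hp : ∀ p : ℕ, p.Prime → ∃ j, ¬ (p : ℤ) ∣ x j) {k : ℤ}
    (hk : ∀ c : Fin 4 → Fin 16, k ∣ (Matrix.of fun i a => HP x (rho i) (c a)).det) : RK k x := by
  constructor
  · intro p pp hpk
    by_contra hcon
    push Not at hcon
    have h0 : (p : ℤ) ∣ x 0 := hcon 0
    have h2 : (p : ℤ) ∣ x 2 := hcon 1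
    have h1 : (p : ℤ) ∣ x 1 := hcon 2
    have h3 : (p : ℤ) ∣ x 3 := hcon 3
    have hpr : Prime (p : ℤ) := Nat.prime_iff_prime_int.1 pp
    have key : ∀ a b c : ℤ, (p : ℤ) ∣ a → (p : ℤ) ∣ c ^ 2 * (a * b - c * c) → (p : ℤ) ∣ c := by
      intro a b c ha h
      have h4 : (p : ℤ) ∣ c ^ 4 := by
        have e : c ^ 4 = (c ^ 2 * b) * a - c ^ 2 * (a * b - c * c) := by ring
        rw [e]
        exact dvd_sub (Dvd.dvd.mul_left ha _) h
      exact hpr.dvd_of_dvd_pow h4
    have h6 := key _ _ _ h0 (hpk.trans (dia_6 hF hk))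
    have h7 := key _ _ _ h1 (hpk.trans (dia_7 hF hk))
    have h8 := key _ _ _ h0 (hpk.trans (dia_8 hF hk))
    have h9 := key _ _ _ h2 (hpk.trans (dia_9 hF hk))
    have h4 : (p : ℤ) ∣ x 4 := by
      have ha := hpk.trans (low_a hk)
      have e : (x 4) ^ 4 = (x 0 * x 1 * x 2 * x 3 - x 0 * x 2 * x 4 * x 4 - x 0 * x 4 * x 7 * x 9 - x 1 * x 3 * x 4 * x 4 - x 1 * x 4 * x 8 * x 9 - x 2 * x 4 * x 6 * x 8 - x 3 * x 4 * x 6 * x 7 + x 4 * x 4 * x 4 * x 4 - x 6 * x 7 * x 8 * x 9)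
        - (x 1 * x 2 * x 3 - x 2 * x 4 * x 4 - x 4 * x 7 * x 9) * x 0 + (x 3 * x 4 * x 4 + x 4 * x 8 * x 9) * x 1
        + (x 4 * x 6 * x 8) * x 2 + (x 4 * x 6 * x 7) * x 3 + (x 7 * x 8 * x 9) * x 6 := by ring
      apply hpr.dvd_of_dvd_pow (n := 4)
      rw [e]
      exact dvd_add (dvd_add (dvd_add (dvd_add (dvd_sub ha (Dvd.dvd.mul_left h0 _)) (Dvd.dvd.mul_left h1 _))
        (Dvd.dvd.mul_left h2 _)) (Dvd.dvd.mul_left h3 _)) (Dvd.dvd.mul_left h6 _)
    have h5 : (p : ℤ) ∣ x 5 := by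
      have ha := hpk.trans (low_b hk)
      have e : (x 5) ^ 4 = (x 0 * x 1 * x 2 * x 3 - x 0 * x 2 * x 5 * x 5 + x 0 * x 5 * x 7 * x 9 - x 1 * x 3 * x 5 * x 5 - x 1 * x 5 * x 8 * x 9 + x 2 * x 5 * x 6 * x 8 - x 3 * x 5 * x 6 * x 7 + x 5 * x 5 * x 5 * x 5 - x 6 * x 7 * x 8 * x 9)
        - (x 1 * x 2 * x 3 - x 2 * x 5 * x 5 + x 5 * x 7 * x 9) * x 0 + (x 3 * x 5 * x 5 + x 5 * x 8 * x 9) * x 1
        + (-(x 5 * x 6 * x 8)) * x 2 + (x 5 * x 6 * x 7) * x 3 + (x 7 * x 8 * x 9) * x 6 := by ring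
      apply hpr.dvd_of_dvd_pow (n := 4)
      rw [e]
      exact dvd_add (dvd_add (dvd_add (dvd_add (dvd_sub ha (Dvd.dvd.mul_left h0 _)) (Dvd.dvd.mul_left h1 _))
        (Dvd.dvd.mul_left h2 _)) (Dvd.dvd.mul_left h3 _)) (Dvd.dvd.mul_left h6 _)
    obtain ⟨j, hj⟩ := hp p pp
    fin_cases j <;> first | exact hj h0 | exact hj h1 | exact hj h2 | exact hj h3 | exact hj h4 | exact hj h5 | exact hj h6 | exact hj h7 | exact hj h8 | exact hj h9
  · have e11 := rel_011 hF hk
    have e12 := rel_012 hF hk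
    have e13 := rel_013 hF hk
    have e22 := rel_022 hF hk
    have e23 := rel_023 hF hk
    have e33 := rel_033 hF hk
    have f00 := rel_100 hF hk
    have f02 := rel_102 hF hk
    have f03 := rel_103 hF hk
    have f22 := rel_122 hF hk
    have f23 := rel_123 hF hk
    have f33 := rel_133 hF hk
    have g00 := rel_200 hF hk
    have g01 := rel_201 hF hk
    have g03 := rel_203 hF hk
    have g11 := rel_211 hF hk
    have g13 := rel_213 hF hk
    have g33 := rel_233 hF hk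
    have h00 := rel_300 hF hk
    have h01 := rel_301 hF hk
    have h02 := rel_302 hF hk
    have h11 := rel_311 hF hk
    have h12 := rel_312 hF hk
    have h22 := rel_322 hF hk
    intro i j k'
    fin_cases i <;> fin_cases j <;> fin_cases k'
    · refine dvd_of_eq_mul (dvd_zero k) (c := 0) ?_; (try simp only [RR, dg, Fin.isValue, Fin.zero_eta, Fin.mk_one, Fin.reduceFinMk, Matrix.cons_val_zero, Matrix.cons_val_one, Matrix.cons_val]); ring1
    · refine dvd_of_eq_mul (dvd_zero k) (c := 0) ?_; (try simp only [RR, dg, Fin.isValue, Fin.zero_eta, Fin.mk_one, Fin.reduceFinMk, Matrix.cons_val_zero, Matrix.cons_val_one, Matrix.cons_val]); ring1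
    · refine dvd_of_eq_mul (dvd_zero k) (c := 0) ?_; (try simp only [RR, dg, Fin.isValue, Fin.zero_eta, Fin.mk_one, Fin.reduceFinMk, Matrix.cons_val_zero, Matrix.cons_val_one, Matrix.cons_val]); ring1
    · refine dvd_of_eq_mul (dvd_zero k) (c := 0) ?_; (try simp only [RR, dg, Fin.isValue, Fin.zero_eta, Fin.mk_one, Fin.reduceFinMk, Matrix.cons_val_zero, Matrix.cons_val_one, Matrix.cons_val]); ring1
    · refine dvd_of_eq_mul (dvd_zero k) (c := 0) ?_; (try simp only [RR, dg, Fin.isValue, Fin.zero_eta, Fin.mk_one, Fin.reduceFinMk, Matrix.cons_val_zero, Matrix.cons_val_one, Matrix.cons_val]); ring1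
    · refine dvd_of_eq_mul e11 (c := 1) ?_; (try simp only [RR, dg, Fin.isValue, Fin.zero_eta, Fin.mk_one, Fin.reduceFinMk, Matrix.cons_val_zero, Matrix.cons_val_one, Matrix.cons_val]); ring1
    · refine dvd_of_eq_mul e12 (c := 2) ?_; (try simp only [RR, dg, Fin.isValue, Fin.zero_eta, Fin.mk_one, Fin.reduceFinMk, Matrix.cons_val_zero, Matrix.cons_val_one, Matrix.cons_val]); ring1
    · refine dvd_of_eq_mul e13 (c := 2) ?_; (try simp only [RR, dg, Fin.isValue, Fin.zero_eta, Fin.mk_one, Fin.reduceFinMk, Matrix.cons_val_zero, Matrix.cons_val_one, Matrix.cons_val]); ring1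
    · refine dvd_of_eq_mul (dvd_zero k) (c := 0) ?_; (try simp only [RR, dg, Fin.isValue, Fin.zero_eta, Fin.mk_one, Fin.reduceFinMk, Matrix.cons_val_zero, Matrix.cons_val_one, Matrix.cons_val]); ring1
    · refine dvd_of_eq_mul e12 (c := 2) ?_; (try simp only [RR, dg, Fin.isValue, Fin.zero_eta, Fin.mk_one, Fin.reduceFinMk, Matrix.cons_val_zero, Matrix.cons_val_one, Matrix.cons_val]); ring1
    · refine dvd_of_eq_mul e22 (c := 4) ?_; (try simp only [RR, dg, Fin.isValue, Fin.zero_eta, Fin.mk_one, Fin.reduceFinMk, Matrix.cons_val_zero, Matrix.cons_val_one, Matrix.cons_val]); ring1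
    · refine dvd_of_eq_mul e23 (c := 2) ?_; (try simp only [RR, dg, Fin.isValue, Fin.zero_eta, Fin.mk_one, Fin.reduceFinMk, Matrix.cons_val_zero, Matrix.cons_val_one, Matrix.cons_val]); ring1
    · refine dvd_of_eq_mul (dvd_zero k) (c := 0) ?_; (try simp only [RR, dg, Fin.isValue, Fin.zero_eta, Fin.mk_one, Fin.reduceFinMk, Matrix.cons_val_zero, Matrix.cons_val_one, Matrix.cons_val]); ring1
    · refine dvd_of_eq_mul e13 (c := 2) ?_; (try simp only [RR, dg, Fin.isValue, Fin.zero_eta, Fin.mk_one, Fin.reduceFinMk, Matrix.cons_val_zero, Matrix.cons_val_one, Matrix.cons_val]); ring1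
    · refine dvd_of_eq_mul e23 (c := 2) ?_; (try simp only [RR, dg, Fin.isValue, Fin.zero_eta, Fin.mk_one, Fin.reduceFinMk, Matrix.cons_val_zero, Matrix.cons_val_one, Matrix.cons_val]); ring1
    · refine dvd_of_eq_mul e33 (c := 4) ?_; (try simp only [RR, dg, Fin.isValue, Fin.zero_eta, Fin.mk_one, Fin.reduceFinMk, Matrix.cons_val_zero, Matrix.cons_val_one, Matrix.cons_val]); ring1
    · refine dvd_of_eq_mul f00 (c := 1) ?_; (try simp only [RR, dg, Fin.isValue, Fin.zero_eta, Fin.mk_one, Fin.reduceFinMk, Matrix.cons_val_zero, Matrix.cons_val_one, Matrix.cons_val]); ring1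
    · refine dvd_of_eq_mul (dvd_zero k) (c := 0) ?_; (try simp only [RR, dg, Fin.isValue, Fin.zero_eta, Fin.mk_one, Fin.reduceFinMk, Matrix.cons_val_zero, Matrix.cons_val_one, Matrix.cons_val]); ring1
    · refine dvd_of_eq_mul f02 (c := 2) ?_; (try simp only [RR, dg, Fin.isValue, Fin.zero_eta, Fin.mk_one, Fin.reduceFinMk, Matrix.cons_val_zero, Matrix.cons_val_one, Matrix.cons_val]); ring1
    · refine dvd_of_eq_mul f03 (c := 2) ?_; (try simp only [RR, dg, Fin.isValue, Fin.zero_eta, Fin.mk_one, Fin.reduceFinMk, Matrix.cons_val_zero, Matrix.cons_val_one, Matrix.cons_val]); ring1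
    · refine dvd_of_eq_mul (dvd_zero k) (c := 0) ?_; (try simp only [RR, dg, Fin.isValue, Fin.zero_eta, Fin.mk_one, Fin.reduceFinMk, Matrix.cons_val_zero, Matrix.cons_val_one, Matrix.cons_val]); ring1
    · refine dvd_of_eq_mul (dvd_zero k) (c := 0) ?_; (try simp only [RR, dg, Fin.isValue, Fin.zero_eta, Fin.mk_one, Fin.reduceFinMk, Matrix.cons_val_zero, Matrix.cons_val_one, Matrix.cons_val]); ring1
    · refine dvd_of_eq_mul (dvd_zero k) (c := 0) ?_; (try simp only [RR, dg, Fin.isValue, Fin.zero_eta, Fin.mk_one, Fin.reduceFinMk, Matrix.cons_val_zero, Matrix.cons_val_one, Matrix.cons_val]); ring1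
    · refine dvd_of_eq_mul (dvd_zero k) (c := 0) ?_; (try simp only [RR, dg, Fin.isValue, Fin.zero_eta, Fin.mk_one, Fin.reduceFinMk, Matrix.cons_val_zero, Matrix.cons_val_one, Matrix.cons_val]); ring1
    · refine dvd_of_eq_mul f02 (c := 2) ?_; (try simp only [RR, dg, Fin.isValue, Fin.zero_eta, Fin.mk_one, Fin.reduceFinMk, Matrix.cons_val_zero, Matrix.cons_val_one, Matrix.cons_val]); ring1
    · refine dvd_of_eq_mul (dvd_zero k) (c := 0) ?_; (try simp only [RR, dg, Fin.isValue, Fin.zero_eta, Fin.mk_one, Fin.reduceFinMk, Matrix.cons_val_zero, Matrix.cons_val_one, Matrix.cons_val]); ring1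
    · refine dvd_of_eq_mul f22 (c := 4) ?_; (try simp only [RR, dg, Fin.isValue, Fin.zero_eta, Fin.mk_one, Fin.reduceFinMk, Matrix.cons_val_zero, Matrix.cons_val_one, Matrix.cons_val]); ring1
    · refine dvd_of_eq_mul f23 (c := 2) ?_; (try simp only [RR, dg, Fin.isValue, Fin.zero_eta, Fin.mk_one, Fin.reduceFinMk, Matrix.cons_val_zero, Matrix.cons_val_one, Matrix.cons_val]); ring1
    · refine dvd_of_eq_mul f03 (c := 2) ?_; (try simp only [RR, dg, Fin.isValue, Fin.zero_eta, Fin.mk_one, Fin.reduceFinMk, Matrix.cons_val_zero, Matrix.cons_val_one, Matrix.cons_val]); ring1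
    · refine dvd_of_eq_mul (dvd_zero k) (c := 0) ?_; (try simp only [RR, dg, Fin.isValue, Fin.zero_eta, Fin.mk_one, Fin.reduceFinMk, Matrix.cons_val_zero, Matrix.cons_val_one, Matrix.cons_val]); ring1
    · refine dvd_of_eq_mul f23 (c := 2) ?_; (try simp only [RR, dg, Fin.isValue, Fin.zero_eta, Fin.mk_one, Fin.reduceFinMk, Matrix.cons_val_zero, Matrix.cons_val_one, Matrix.cons_val]); ring1
    · refine dvd_of_eq_mul f33 (c := 4) ?_; (try simp only [RR, dg, Fin.isValue, Fin.zero_eta, Fin.mk_one, Fin.reduceFinMk, Matrix.cons_val_zero, Matrix.cons_val_one, Matrix.cons_val]); ring1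
    · refine dvd_of_eq_mul g00 (c := 4) ?_; (try simp only [RR, dg, Fin.isValue, Fin.zero_eta, Fin.mk_one, Fin.reduceFinMk, Matrix.cons_val_zero, Matrix.cons_val_one, Matrix.cons_val]); ring1
    · refine dvd_of_eq_mul g01 (c := 2) ?_; (try simp only [RR, dg, Fin.isValue, Fin.zero_eta, Fin.mk_one, Fin.reduceFinMk, Matrix.cons_val_zero, Matrix.cons_val_one, Matrix.cons_val]); ring1
    · refine dvd_of_eq_mul (dvd_zero k) (c := 0) ?_; (try simp only [RR, dg, Fin.isValue, Fin.zero_eta, Fin.mk_one, Fin.reduceFinMk, Matrix.cons_val_zero, Matrix.cons_val_one, Matrix.cons_val]); ring1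
    · refine dvd_of_eq_mul g03 (c := 2) ?_; (try simp only [RR, dg, Fin.isValue, Fin.zero_eta, Fin.mk_one, Fin.reduceFinMk, Matrix.cons_val_zero, Matrix.cons_val_one, Matrix.cons_val]); ring1
    · refine dvd_of_eq_mul g01 (c := 2) ?_; (try simp only [RR, dg, Fin.isValue, Fin.zero_eta, Fin.mk_one, Fin.reduceFinMk, Matrix.cons_val_zero, Matrix.cons_val_one, Matrix.cons_val]); ring1
    · refine dvd_of_eq_mul g11 (c := 4) ?_; (try simp only [RR, dg, Fin.isValue, Fin.zero_eta, Fin.mk_one, Fin.reduceFinMk, Matrix.cons_val_zero, Matrix.cons_val_one, Matrix.cons_val]); ring1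
    · refine dvd_of_eq_mul (dvd_zero k) (c := 0) ?_; (try simp only [RR, dg, Fin.isValue, Fin.zero_eta, Fin.mk_one, Fin.reduceFinMk, Matrix.cons_val_zero, Matrix.cons_val_one, Matrix.cons_val]); ring1
    · refine dvd_of_eq_mul g13 (c := 2) ?_; (try simp only [RR, dg, Fin.isValue, Fin.zero_eta, Fin.mk_one, Fin.reduceFinMk, Matrix.cons_val_zero, Matrix.cons_val_one, Matrix.cons_val]); ring1
    · refine dvd_of_eq_mul (dvd_zero k) (c := 0) ?_; (try simp only [RR, dg, Fin.isValue, Fin.zero_eta, Fin.mk_one, Fin.reduceFinMk, Matrix.cons_val_zero, Matrix.cons_val_one, Matrix.cons_val]); ring1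
    · refine dvd_of_eq_mul (dvd_zero k) (c := 0) ?_; (try simp only [RR, dg, Fin.isValue, Fin.zero_eta, Fin.mk_one, Fin.reduceFinMk, Matrix.cons_val_zero, Matrix.cons_val_one, Matrix.cons_val]); ring1
    · refine dvd_of_eq_mul (dvd_zero k) (c := 0) ?_; (try simp only [RR, dg, Fin.isValue, Fin.zero_eta, Fin.mk_one, Fin.reduceFinMk, Matrix.cons_val_zero, Matrix.cons_val_one, Matrix.cons_val]); ring1
    · refine dvd_of_eq_mul (dvd_zero k) (c := 0) ?_; (try simp only [RR, dg, Fin.isValue, Fin.zero_eta, Fin.mk_one, Fin.reduceFinMk, Matrix.cons_val_zero, Matrix.cons_val_one, Matrix.cons_val]); ring1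
    · refine dvd_of_eq_mul g03 (c := 2) ?_; (try simp only [RR, dg, Fin.isValue, Fin.zero_eta, Fin.mk_one, Fin.reduceFinMk, Matrix.cons_val_zero, Matrix.cons_val_one, Matrix.cons_val]); ring1
    · refine dvd_of_eq_mul g13 (c := 2) ?_; (try simp only [RR, dg, Fin.isValue, Fin.zero_eta, Fin.mk_one, Fin.reduceFinMk, Matrix.cons_val_zero, Matrix.cons_val_one, Matrix.cons_val]); ring1
    · refine dvd_of_eq_mul (dvd_zero k) (c := 0) ?_; (try simp only [RR, dg, Fin.isValue, Fin.zero_eta, Fin.mk_one, Fin.reduceFinMk, Matrix.cons_val_zero, Matrix.cons_val_one, Matrix.cons_val]); ring1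
    · refine dvd_of_eq_mul g33 (c := 1) ?_; (try simp only [RR, dg, Fin.isValue, Fin.zero_eta, Fin.mk_one, Fin.reduceFinMk, Matrix.cons_val_zero, Matrix.cons_val_one, Matrix.cons_val]); ring1
    · refine dvd_of_eq_mul h00 (c := 4) ?_; (try simp only [RR, dg, Fin.isValue, Fin.zero_eta, Fin.mk_one, Fin.reduceFinMk, Matrix.cons_val_zero, Matrix.cons_val_one, Matrix.cons_val]); ring1
    · refine dvd_of_eq_mul h01 (c := 2) ?_; (try simp only [RR, dg, Fin.isValue, Fin.zero_eta, Fin.mk_one, Fin.reduceFinMk, Matrix.cons_val_zero, Matrix.cons_val_one, Matrix.cons_val]); ring1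
    · refine dvd_of_eq_mul h02 (c := 2) ?_; (try simp only [RR, dg, Fin.isValue, Fin.zero_eta, Fin.mk_one, Fin.reduceFinMk, Matrix.cons_val_zero, Matrix.cons_val_one, Matrix.cons_val]); ring1
    · refine dvd_of_eq_mul (dvd_zero k) (c := 0) ?_; (try simp only [RR, dg, Fin.isValue, Fin.zero_eta, Fin.mk_one, Fin.reduceFinMk, Matrix.cons_val_zero, Matrix.cons_val_one, Matrix.cons_val]); ring1
    · refine dvd_of_eq_mul h01 (c := 2) ?_; (try simp only [RR, dg, Fin.isValue, Fin.zero_eta, Fin.mk_one, Fin.reduceFinMk, Matrix.cons_val_zero, Matrix.cons_val_one, Matrix.cons_val]); ring1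
    · refine dvd_of_eq_mul h11 (c := 4) ?_; (try simp only [RR, dg, Fin.isValue, Fin.zero_eta, Fin.mk_one, Fin.reduceFinMk, Matrix.cons_val_zero, Matrix.cons_val_one, Matrix.cons_val]); ring1
    · refine dvd_of_eq_mul h12 (c := 2) ?_; (try simp only [RR, dg, Fin.isValue, Fin.zero_eta, Fin.mk_one, Fin.reduceFinMk, Matrix.cons_val_zero, Matrix.cons_val_one, Matrix.cons_val]); ring1
    · refine dvd_of_eq_mul (dvd_zero k) (c := 0) ?_; (try simp only [RR, dg, Fin.isValue, Fin.zero_eta, Fin.mk_one, Fin.reduceFinMk, Matrix.cons_val_zero, Matrix.cons_val_one, Matrix.cons_val]); ring1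
    · refine dvd_of_eq_mul h02 (c := 2) ?_; (try simp only [RR, dg, Fin.isValue, Fin.zero_eta, Fin.mk_one, Fin.reduceFinMk, Matrix.cons_val_zero, Matrix.cons_val_one, Matrix.cons_val]); ring1
    · refine dvd_of_eq_mul h12 (c := 2) ?_; (try simp only [RR, dg, Fin.isValue, Fin.zero_eta, Fin.mk_one, Fin.reduceFinMk, Matrix.cons_val_zero, Matrix.cons_val_one, Matrix.cons_val]); ring1
    · refine dvd_of_eq_mul h22 (c := 1) ?_; (try simp only [RR, dg, Fin.isValue, Fin.zero_eta, Fin.mk_one, Fin.reduceFinMk, Matrix.cons_val_zero, Matrix.cons_val_one, Matrix.cons_val]); ring1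
    · refine dvd_of_eq_mul (dvd_zero k) (c := 0) ?_; (try simp only [RR, dg, Fin.isValue, Fin.zero_eta, Fin.mk_one, Fin.reduceFinMk, Matrix.cons_val_zero, Matrix.cons_val_one, Matrix.cons_val]); ring1
    · refine dvd_of_eq_mul (dvd_zero k) (c := 0) ?_; (try simp only [RR, dg, Fin.isValue, Fin.zero_eta, Fin.mk_one, Fin.reduceFinMk, Matrix.cons_val_zero, Matrix.cons_val_one, Matrix.cons_val]); ring1
    · refine dvd_of_eq_mul (dvd_zero k) (c := 0) ?_; (try simp only [RR, dg, Fin.isValue, Fin.zero_eta, Fin.mk_one, Fin.reduceFinMk, Matrix.cons_val_zero, Matrix.cons_val_one, Matrix.cons_val]); ring1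
    · refine dvd_of_eq_mul (dvd_zero k) (c := 0) ?_; (try simp only [RR, dg, Fin.isValue, Fin.zero_eta, Fin.mk_one, Fin.reduceFinMk, Matrix.cons_val_zero, Matrix.cons_val_one, Matrix.cons_val]); ring1
    · refine dvd_of_eq_mul (dvd_zero k) (c := 0) ?_; (try simp only [RR, dg, Fin.isValue, Fin.zero_eta, Fin.mk_one, Fin.reduceFinMk, Matrix.cons_val_zero, Matrix.cons_val_one, Matrix.cons_val]); ring1

/-- (K1) the index `k(x)`. -/
theorem index_exists {x : Fin 10 → ℤ} (hF : FF x = 0)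
    (hp : ∀ p : ℕ, p.Prime → ∃ j, ¬ (p : ℤ) ∣ x j) (hD : (SS x).det ≠ 0)
    (b : Basis (Fin 4) ℤ (Lx x)) (G : Matrix (Fin 4) (Fin 4) ℤ)
    (hG : ∀ i k j, Bd (b i : Fin 16 → ℤ) (b k) j = G i k * x j) :
    ∃ k : ℕ, 1 ≤ k ∧ (SS x).det = (k : ℤ) ^ 2 * G.det ∧ RK k x := by
  obtain ⟨x', h1⟩ := exists_partner hp
  obtain ⟨j, hj⟩ := exists_coord_ne h1
  have hGe : ∀ i k, G i k = bx x' (b i) (b k) := by
    intro i k
    have h2 := hG i k j
    rw [Bd_Kx hF h1 (Lx_le_Kx x (b i).2) (Lx_le_Kx x (b k).2) j] at h2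
    exact (mul_right_cancel₀ hj h2).symm
  obtain ⟨k, hk, hm⟩ := kx_exists hF h1 hD b G hGe
  have hk0 : k ≠ 0 := by
    rintro rfl
    apply hD
    rw [hk]; ring
  refine ⟨k.natAbs, Int.natAbs_pos.2 hk0, ?_, RK_of_minors hF hp ?_⟩
  · rw [hk, Int.natAbs_sq]
  · intro c
    rw [Int.natCast_natAbs, abs_dvd]
    exact hm c

end Pool.Agent.PP5K
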