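import Pool.Agent.PP5K.Kc

namespace Pool.Agent.PP5K

open Matrix Module Pool.Agent.PP5L

theorem cop_cancel {p w : ℕ} (pp : p.Prime) {a m : ℤ} (ha : ¬ (p : ℤ) ∣ a)
    (h : ((p ^ w : ℕ) : ℤ) ∣ a ^ 2 * m) : ((p ^ w : ℕ) : ℤ) ∣ m := by
  have hpr : Prime (p : ℤ) := Nat.prime_iff_prime_int.1 pp
  have hc : IsCoprime ((p ^ w : ℕ) : ℤ) (a ^ 2) := by
    push_cast
    exact IsCoprime.pow ((Prime.coprime_iff_not_dvd hpr).2 ha)
  exact hc.dvd_of_dvd_mul_left h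

/-- local form of `RK` at a prime power -/
theorem RK_local {n : ℤ} {x : Fin 10 → ℤ} (h : RK n x) {p w : ℕ} (pp : p.Prime) (hw : w ≠ 0)
    (hd : ((p ^ w : ℕ) : ℤ) ∣ n) : ∃ i, ¬ (p : ℤ) ∣ x (dg i) ∧
      ∀ j k, ((p ^ w : ℕ) : ℤ) ∣ RR x i i * RR x j k - RR x i j * RR x i k := by
  have hp : (p : ℤ) ∣ n := by
    refine dvd_trans ?_ hd
    push_cast
    exact dvd_pow_self _ hw
  obtain ⟨i, hi⟩ := h.1 p pp hp
  exact ⟨i, hi, fun j k => cop_cancel pp hi (hd.trans (h.2 i j k))⟩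

theorem RK_minor {n : ℤ} {x : Fin 10 → ℤ} (h : RK n x) (a b c d : Fin 4) :
    n ∣ 4 * (RR x a c * RR x b d - RR x a d * RR x b c) := by
  rw [← Int.natAbs_dvd_natAbs]
  rw [Nat.dvd_iff_prime_pow_dvd_dvd]
  intro p w pp hd
  rcases Nat.eq_zero_or_pos w with rfl | hw
  · simp
  obtain ⟨i, hi, hl⟩ := RK_local h pp hw.ne' (Int.natCast_dvd.2 hd)
  rw [← Int.natCast_dvd]
  apply cop_cancel pp hi
  have e : x (dg i) ^ 2 * (4 * (RR x a c * RR x b d - RR x a d * RR x b c)) =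
      (RR x i i * RR x a c - RR x i a * RR x i c) * (RR x i i * RR x b d) +
      (RR x i a * RR x i c) * (RR x i i * RR x b d - RR x i b * RR x i d) -
      (RR x i i * RR x a d - RR x i a * RR x i d) * (RR x i i * RR x b c) -
      (RR x i a * RR x i d) * (RR x i i * RR x b c - RR x i b * RR x i c) := by
    rw [RR_diag]; ring
  rw [e]
  exact dvd_sub (dvd_sub (dvd_add (Dvd.dvd.mul_right (hl a c) _) (Dvd.dvd.mul_left (hl b d) _))
    (Dvd.dvd.mul_right (hl a d) _)) (Dvd.dvd.mul_left (hl b c) _)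

/-- the two minors used for the tail -/
theorem RK_detA {n : ℤ} {x : Fin 10 → ℤ} (h : RK n x) :
    n ∣ 4 * (4 * x 0 * x 2 - (x 4 + x 5) ^ 2) := by
  have := RK_minor h 0 1 0 1
  simp only [RR, Matrix.cons_val_zero, Matrix.cons_val_one] at this
  convert this using 2
  ring

theorem RK_detM {n : ℤ} {x : Fin 10 → ℤ} (h : RK n x) :
    n ∣ 16 * (x 6 * x 9 - x 8 * x 7) := by
  have := RK_minor h 0 1 2 3
  simp only [RR, Matrix.cons_val_zero, Matrix.cons_val_one, Matrix.cons_val] at this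
  convert this using 1
  ring

end Pool.Agent.PP5K
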