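import Mathlib
import Pool.Agent.FTA.DivB

/-! # PP5, section (K): elementary counts for the tail of the index -/

namespace Pool.Agent.PP5K

theorem card_le_fib {α β : Type*} [DecidableEq β] (S : Finset α) (f : α → β) (T : Finset β)
    (hf : ∀ a ∈ S, f a ∈ T) (B : ℝ)
    (hB : ∀ b ∈ T, ((S.filter (fun a => f a = b)).card : ℝ) ≤ B) : (S.card : ℝ) ≤ B * T.card := by
  rw [Finset.card_eq_sum_card_fiberwise (f := f) (t := T) (fun a ha => hf a ha)]
  push_cast
  calc ∑ b ∈ T, ((S.filter (fun a => f a = b)).card : ℝ) ≤ ∑ _b ∈ T, B := Finset.sum_le_sum hB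
    _ = B * T.card := by rw [Finset.sum_const, nsmul_eq_mul, mul_comm]

theorem card_box {Y : ℝ} (hY : 1 ≤ Y) (T : Finset ℤ) (h : ∀ z ∈ T, |(z : ℝ)| ≤ Y) :
    (T.card : ℝ) ≤ 3 * Y := by
  have hsub : T ⊆ Finset.Icc (-⌊Y⌋) ⌊Y⌋ := by
    intro z hz
    have h1 := abs_le.1 (h z hz)
    rw [Finset.mem_Icc]
    constructor
    · have : -z ≤ ⌊Y⌋ := Int.le_floor.2 (by push_cast; linarith)
      omega
    · exact Int.le_floor.2 h1.2
  have hf : (0 : ℤ) ≤ ⌊Y⌋ := Int.floor_nonneg.2 (by linarith)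
  have h2 := Finset.card_le_card hsub
  rw [Int.card_Icc] at h2
  have h3 : ((⌊Y⌋ + 1 - -⌊Y⌋).toNat : ℝ) = 2 * ⌊Y⌋ + 1 := by
    have : (((⌊Y⌋ + 1 - -⌊Y⌋).toNat : ℤ) : ℝ) = ((⌊Y⌋ + 1 - -⌊Y⌋ : ℤ) : ℝ) := by
      rw [Int.toNat_of_nonneg (by omega)]
    rw [Int.cast_natCast] at this
    rw [this]; push_cast; ring
  have h4 : (T.card : ℝ) ≤ 2 * ⌊Y⌋ + 1 := by rw [← h3]; exact_mod_cast h2
  have h5 := Int.floor_le Y
  linarith

theorem pairs_card (m : ℤ) (hm : m ≠ 0) (S : Finset (ℤ × ℤ)) (hS : ∀ q ∈ S, q.1 * q.2 = m) :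
    S.card ≤ 2 * m.natAbs.divisors.card := by
  have h1 : S.card ≤ (m.natAbs.divisors ×ˢ (Finset.univ : Finset Bool)).card := by
    apply Finset.card_le_card_of_injOn (fun q => (q.1.natAbs, decide (0 ≤ q.1)))
    · intro q hq
      have h2 := hS q hq
      simp only [Finset.coe_product, Set.mem_prod, Finset.mem_coe, Nat.mem_divisors,
        Finset.mem_univ, and_true]
      refine ⟨?_, Int.natAbs_ne_zero.2 hm⟩
      rw [← h2, Int.natAbs_mul]
      exact dvd_mul_right _ _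
    · intro q hq r hr hqr
      simp only [Prod.mk.injEq] at hqr
      obtain ⟨e1, e2⟩ := hqr
      have hq2 := hS q hq
      have hr2 := hS r hr
      have e3 : q.1 = r.1 := by
        have := decide_eq_decide.1 e2
        omega
      have hr1 : r.1 ≠ 0 := by
        rintro h0
        rw [h0, zero_mul] at hr2
        exact hm hr2.symm
      have e4 : q.2 = r.2 := by
        apply mul_left_cancel₀ hr1
        rw [← e3, hq2, e3, hr2]
      exact Prod.ext e3 e4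
  rw [Finset.card_product, Finset.card_univ, Fintype.card_bool] at h1
  omega

theorem pairs_eps {ε : ℝ} (hε : 0 < ε) (A : ℝ) (hA : 0 < A) : ∃ C : ℝ, 1 ≤ C ∧ ∀ Y : ℝ, 1 ≤ Y →
    ∀ m : ℤ, m ≠ 0 → |(m : ℝ)| ≤ A * Y ^ 2 → ∀ S : Finset (ℤ × ℤ), (∀ q ∈ S, q.1 * q.2 = m) →
    (S.card : ℝ) ≤ C * Y ^ ε := by
  obtain ⟨c, hc, h⟩ := Pool.Agent.FTA.divisor_bound (ε := ε / 2) (by positivity)
  refine ⟨max 1 (2 * c * A ^ (ε / 2)), le_max_left _ _, fun Y hY m hm hmY S hS => ?_⟩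
  have h1 := pairs_card m hm S hS
  have h2 := h m.natAbs (Int.natAbs_ne_zero.2 hm)
  have h3 : ((m.natAbs : ℕ) : ℝ) = |(m : ℝ)| := by
    rw [Nat.cast_natAbs, Int.cast_abs]
  have h4 : ((m.natAbs : ℕ) : ℝ) ^ (ε / 2) ≤ (A * Y ^ 2) ^ (ε / 2) := by
    rw [h3]
    exact Real.rpow_le_rpow (abs_nonneg _) hmY (by positivity)
  have h5 : (A * Y ^ 2) ^ (ε / 2) = A ^ (ε / 2) * Y ^ ε := by
    rw [Real.mul_rpow hA.le (by positivity), ← Real.rpow_natCast Y 2, ← Real.rpow_mul (by linarith)]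
    congr 2
    push_cast; ring
  calc (S.card : ℝ) ≤ 2 * (m.natAbs.divisors.card : ℝ) := by exact_mod_cast h1
    _ ≤ 2 * (c * (A ^ (ε / 2) * Y ^ ε)) := by
        rw [← h5]
        have := mul_le_mul_of_nonneg_left h4 hc.le
        linarith
    _ = (2 * c * A ^ (ε / 2)) * Y ^ ε := by ring
    _ ≤ _ := by
        apply mul_le_mul_of_nonneg_right (le_max_right _ _)
        positivity

theorem pairs_zero {Y : ℝ} (hY : 1 ≤ Y) (S : Finset (ℤ × ℤ))
    (hS : ∀ q ∈ S, q.1 * q.2 = 0 ∧ |(q.1 : ℝ)| ≤ Y ∧ |(q.2 : ℝ)| ≤ Y) : (S.card : ℝ) ≤ 6 * Y := by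
  classical
  have hsub : S ⊆ (S.filter (fun q => q.1 = 0)) ∪ (S.filter (fun q => q.2 = 0)) := by
    intro q hq
    rcases mul_eq_zero.1 (hS q hq).1 with h | h
    · exact Finset.mem_union_left _ (Finset.mem_filter.2 ⟨hq, h⟩)
    · exact Finset.mem_union_right _ (Finset.mem_filter.2 ⟨hq, h⟩)
  have h1 : ((S.filter (fun q => q.1 = 0)).card : ℝ) ≤ 3 * Y := by
    have e : (S.filter (fun q => q.1 = 0)).card = ((S.filter (fun q => q.1 = 0)).image Prod.snd).card := by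
      rw [Finset.card_image_of_injOn]
      intro q hq r hr h
      simp only [Finset.coe_filter, Set.mem_setOf_eq] at hq hr
      exact Prod.ext (hq.2.trans hr.2.symm) h
    rw [e]
    apply card_box hY
    intro z hz
    obtain ⟨q, hq, rfl⟩ := Finset.mem_image.1 hz
    exact (hS q (Finset.mem_filter.1 hq).1).2.2
  have h2 : ((S.filter (fun q => q.2 = 0)).card : ℝ) ≤ 3 * Y := by
    have e : (S.filter (fun q => q.2 = 0)).card = ((S.filter (fun q => q.2 = 0)).image Prod.fst).card := by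
      rw [Finset.card_image_of_injOn]
      intro q hq r hr h
      simp only [Finset.coe_filter, Set.mem_setOf_eq] at hq hr
      exact Prod.ext h (hq.2.trans hr.2.symm)
    rw [e]
    apply card_box hY
    intro z hz
    obtain ⟨q, hq, rfl⟩ := Finset.mem_image.1 hz
    exact (hS q (Finset.mem_filter.1 hq).1).2.1
  have h3 : (S.card : ℝ) ≤ ((S.filter (fun q => q.1 = 0)).card : ℝ) + ((S.filter (fun q => q.2 = 0)).card : ℝ) := by
    exact_mod_cast (Finset.card_le_card hsub).trans (Finset.card_union_le _ _)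
  linarith

/-- pairs with any given product: at most `C Y` -/
theorem pairs_any : ∃ C : ℝ, 1 ≤ C ∧ ∀ Y : ℝ, 1 ≤ Y →
    ∀ m : ℤ, ∀ S : Finset (ℤ × ℤ), (∀ q ∈ S, q.1 * q.2 = m ∧ |(q.1 : ℝ)| ≤ Y ∧ |(q.2 : ℝ)| ≤ Y) →
    (S.card : ℝ) ≤ C * Y := by
  obtain ⟨C, hC, h⟩ := pairs_eps (ε := 1) one_pos 1 one_pos
  refine ⟨max C 6, le_max_of_le_left hC, fun Y hY m S hS => ?_⟩
  by_cases hm : m = 0
  · have := pairs_zero hY S (fun q hq => by rw [← hm]; exact hS q hq)
    exact this.trans (mul_le_mul_of_nonneg_right (le_max_right _ _) (by linarith))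
  · rcases S.eq_empty_or_nonempty with h0 | ⟨q, hq⟩
    · rw [h0]; simp; positivity
    · have hmY : |(m : ℝ)| ≤ 1 * Y ^ 2 := by
        obtain ⟨h1, h2, h3⟩ := hS q hq
        rw [← h1]; push_cast; rw [abs_mul]
        nlinarith [abs_nonneg (q.1 : ℝ), abs_nonneg (q.2 : ℝ)]
      have := h Y hY m hm hmY S (fun q hq => (hS q hq).1)
      rw [Real.rpow_one] at this
      exact this.trans (mul_le_mul_of_nonneg_right (le_max_left _ _) (by linarith))

end Pool.Agent.PP5K
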