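import Pool.Agent.PP5K.Ke

namespace Pool.Agent.PP5K

/-- binary forms of given discriminant: `4 b1 b3 - d^2 = q` -/
theorem disc_card {ε : ℝ} (hε : 0 < ε) : ∃ C : ℝ, 1 ≤ C ∧ ∀ Y : ℝ, 1 ≤ Y → ∀ q : ℤ,
    ∀ S : Finset (ℤ × ℤ × ℤ), (∀ v ∈ S, 4 * v.1 * v.2.1 - v.2.2 ^ 2 = q ∧ |(v.1 : ℝ)| ≤ Y ∧
      |(v.2.1 : ℝ)| ≤ Y ∧ |(v.2.2 : ℝ)| ≤ 2 * Y) → (S.card : ℝ) ≤ C * Y ^ (1 + ε) := by
  classical
  obtain ⟨C, hC, h⟩ := pairs_eps hε 4 (by norm_num)
  refine ⟨6 * C + 24, by linarith, fun Y hY q S hS => ?_⟩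
  have hY0 : 0 < Y := by linarith
  have hYe : Y ≤ Y ^ (1 + ε) := by
    conv_lhs => rw [← Real.rpow_one Y]
    exact Real.rpow_le_rpow_of_exponent_le hY (by linarith)
  set Sa := S.filter (fun v => q + v.2.2 ^ 2 ≠ 0) with hSa
  set Sb := S.filter (fun v => ¬ (q + v.2.2 ^ 2 ≠ 0)) with hSb
  have hsplit : (S.card : ℝ) = Sa.card + Sb.card := by
    rw [hSa, hSb]; exact_mod_cast (Finset.card_filter_add_card_filter_not _).symm
  have ha : (Sa.card : ℝ) ≤ (C * Y ^ ε) * (6 * Y) := by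
    have h1 := card_le_fib Sa (fun v => v.2.2) (Sa.image (fun v => v.2.2))
      (fun a ha => Finset.mem_image_of_mem _ ha) (C * Y ^ ε) (by
        intro d hd
        obtain ⟨w, hw, rfl⟩ := Finset.mem_image.1 hd
        obtain ⟨hwS, hw0⟩ := Finset.mem_filter.1 hw
        have e : (Sa.filter (fun a => a.2.2 = w.2.2)).card =
            ((Sa.filter (fun a => a.2.2 = w.2.2)).image (fun a => (4 * a.1, a.2.1))).card := by
          rw [Finset.card_image_of_injOn]
          intro a ha b hb hab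
          simp only [Finset.coe_filter, Set.mem_ofPred_eq, Prod.mk.injEq] at ha hb hab
          have h1 : a.1 = b.1 := by omega
          exact Prod.ext h1 (Prod.ext hab.2 (ha.2.trans hb.2.symm))
        rw [e]
        apply h Y hY (q + w.2.2 ^ 2) hw0
        · obtain ⟨h1, h2, h3, h4⟩ := hS w hwS
          have h5 : q + w.2.2 ^ 2 = 4 * w.1 * w.2.1 := by rw [← h1]; ring
          rw [h5]; push_cast; rw [abs_mul, abs_mul, abs_of_pos (by norm_num : (0:ℝ) < 4)]
          nlinarith [abs_nonneg (w.1 : ℝ), abs_nonneg (w.2.1 : ℝ)]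
        · intro p hp
          obtain ⟨a, ha, rfl⟩ := Finset.mem_image.1 hp
          obtain ⟨ha1, ha2⟩ := Finset.mem_filter.1 ha
          have h6 := (hS a (Finset.mem_filter.1 ha1).1).1
          rw [← ha2, ← h6]; ring)
    refine h1.trans (mul_le_mul_of_nonneg_left ?_ (by positivity))
    have h2 := card_box (Y := 2 * Y) (by linarith) (Sa.image (fun v => v.2.2)) (by
      intro z hz
      obtain ⟨w, hw, rfl⟩ := Finset.mem_image.1 hz
      exact (hS w (Finset.mem_filter.1 hw).1).2.2.2)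
    linarith
  have hb : (Sb.card : ℝ) ≤ (6 * (2 * Y)) * 2 := by
    have h1 := card_le_fib Sb (fun v => v.2.2) (Sb.image (fun v => v.2.2))
      (fun a ha => Finset.mem_image_of_mem _ ha) (6 * (2 * Y)) (by
        intro d hd
        have e : (Sb.filter (fun a => a.2.2 = d)).card =
            ((Sb.filter (fun a => a.2.2 = d)).image (fun a => (a.1, a.2.1))).card := by
          rw [Finset.card_image_of_injOn]
          intro a ha b hb hab
          simp only [Finset.coe_filter, Set.mem_ofPred_eq, Prod.mk.injEq] at ha hb hab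
          exact Prod.ext hab.1 (Prod.ext hab.2 (ha.2.trans hb.2.symm))
        rw [e]
        apply pairs_zero (by linarith)
        intro p hp
        obtain ⟨a, ha, rfl⟩ := Finset.mem_image.1 hp
        obtain ⟨ha1, ha2⟩ := Finset.mem_filter.1 ha
        obtain ⟨ha3, ha4⟩ := Finset.mem_filter.1 ha1
        obtain ⟨h6, h7, h8, h9⟩ := hS a ha3
        push Not at ha4
        refine ⟨?_, by linarith, by linarith⟩
        have : 4 * (a.1 * a.2.1) = 0 := by rw [← ha4, ← h6]; ring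
        show a.1 * a.2.1 = 0
        omega)
    refine h1.trans (mul_le_mul_of_nonneg_left ?_ (by positivity))
    have h2 : (Sb.image (fun v => v.2.2)).card ≤ 2 := by
      by_contra hcon
      push Not at hcon
      obtain ⟨a, ha, b, hb, c, hc, hab, hac, hbc⟩ := Finset.two_lt_card.1 hcon
      have key : ∀ z ∈ Sb.image (fun v => v.2.2), q + z ^ 2 = 0 := by
        intro z hz
        obtain ⟨w, hw, rfl⟩ := Finset.mem_image.1 hz
        have := (Finset.mem_filter.1 hw).2
        push Not at this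
        exact this
      have ka := key a ha
      have kb := key b hb
      have kc := key c hc
      have e1 : (a - b) * (a + b) = 0 := by ring_nf; linarith
      have e2 : (a - c) * (a + c) = 0 := by ring_nf; linarith
      have e3 : a + b = 0 := (mul_eq_zero.1 e1).resolve_left (sub_ne_zero.2 hab)
      have e4 : a + c = 0 := (mul_eq_zero.1 e2).resolve_left (sub_ne_zero.2 hac)
      exact hbc (by omega)
    exact_mod_cast h2
  have he : Y ^ (1 + ε) = Y * Y ^ ε := by
    rw [Real.rpow_add hY0, Real.rpow_one]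
  rw [hsplit]
  calc (Sa.card : ℝ) + Sb.card ≤ (C * Y ^ ε) * (6 * Y) + (6 * (2 * Y)) * 2 := add_le_add ha hb
    _ = 6 * C * (Y * Y ^ ε) + 24 * Y := by ring
    _ ≤ 6 * C * Y ^ (1 + ε) + 24 * Y ^ (1 + ε) := by rw [← he]; linarith
    _ = _ := by ring

/-- two by two matrices of given determinant `a d - b c = m` -/
theorem det_card {ε : ℝ} (hε : 0 < ε) : ∃ C : ℝ, 1 ≤ C ∧ ∀ Y : ℝ, 1 ≤ Y → ∀ m : ℤ,
    ∀ S : Finset ((ℤ × ℤ) × (ℤ × ℤ)), (∀ v ∈ S, v.1.1 * v.1.2 - v.2.1 * v.2.2 = m ∧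
      |(v.1.1 : ℝ)| ≤ Y ∧ |(v.1.2 : ℝ)| ≤ Y ∧ |(v.2.1 : ℝ)| ≤ Y ∧ |(v.2.2 : ℝ)| ≤ Y) →
      (S.card : ℝ) ≤ C * Y ^ (2 + ε) := by
  classical
  obtain ⟨C, hC, h⟩ := pairs_eps hε 1 (by norm_num)
  obtain ⟨C', hC', h'⟩ := pairs_any
  refine ⟨9 * C + 6 * C', by linarith, fun Y hY m S hS => ?_⟩
  have hY0 : 0 < Y := by linarith
  have hYe : Y ^ 2 ≤ Y ^ (2 + ε) := by
    conv_lhs => rw [← Real.rpow_natCast Y 2]
    exact Real.rpow_le_rpow_of_exponent_le hY (by push_cast; linarith)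
  set Sa := S.filter (fun v => m + v.2.1 * v.2.2 ≠ 0) with hSa
  set Sb := S.filter (fun v => ¬ (m + v.2.1 * v.2.2 ≠ 0)) with hSb
  have hsplit : (S.card : ℝ) = Sa.card + Sb.card := by
    rw [hSa, hSb]; exact_mod_cast (Finset.card_filter_add_card_filter_not _).symm
  have hbox : ∀ T : Finset ((ℤ × ℤ) × (ℤ × ℤ)), T ⊆ S → ((T.image (fun v => v.2)).card : ℝ) ≤ 9 * Y ^ 2 := by
    intro T hT
    have h1 : (T.image (fun v => v.2)).card ≤ ((T.image (fun v => v.2.1)) ×ˢ (T.image (fun v => v.2.2))).card := by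
      apply Finset.card_le_card
      intro z hz
      obtain ⟨w, hw, rfl⟩ := Finset.mem_image.1 hz
      exact Finset.mem_product.2 ⟨Finset.mem_image.2 ⟨w, hw, rfl⟩, Finset.mem_image.2 ⟨w, hw, rfl⟩⟩
    rw [Finset.card_product] at h1
    have h2 := card_box hY (T.image (fun v => v.2.1)) (by
      intro z hz
      obtain ⟨w, hw, rfl⟩ := Finset.mem_image.1 hz
      exact (hS w (hT hw)).2.2.2.1)
    have h3 := card_box hY (T.image (fun v => v.2.2)) (by
      intro z hz
      obtain ⟨w, hw, rfl⟩ := Finset.mem_image.1 hz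
      exact (hS w (hT hw)).2.2.2.2)
    have h4 : ((T.image (fun v => v.2)).card : ℝ) ≤ ((T.image (fun v => v.2.1)).card : ℝ) * ((T.image (fun v => v.2.2)).card : ℝ) := by
      exact_mod_cast h1
    refine h4.trans ?_
    calc _ ≤ (3 * Y) * (3 * Y) := mul_le_mul h2 h3 (by positivity) (by positivity)
      _ = 9 * Y ^ 2 := by ring
  have ha : (Sa.card : ℝ) ≤ (C * Y ^ ε) * (9 * Y ^ 2) := by
    have h1 := card_le_fib Sa (fun v => v.2) (Sa.image (fun v => v.2))
      (fun a ha => Finset.mem_image_of_mem _ ha) (C * Y ^ ε) (by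
        intro d hd
        obtain ⟨w, hw, rfl⟩ := Finset.mem_image.1 hd
        obtain ⟨hwS, hw0⟩ := Finset.mem_filter.1 hw
        have e : (Sa.filter (fun a => a.2 = w.2)).card =
            ((Sa.filter (fun a => a.2 = w.2)).image (fun a => a.1)).card := by
          rw [Finset.card_image_of_injOn]
          intro a ha b hb hab
          simp only [Finset.coe_filter, Set.mem_ofPred_eq] at ha hb
          exact Prod.ext hab (ha.2.trans hb.2.symm)
        rw [e]
        apply h Y hY (m + w.2.1 * w.2.2) hw0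
        · obtain ⟨h1, h2, h3, h4, h5⟩ := hS w hwS
          have h5 : m + w.2.1 * w.2.2 = w.1.1 * w.1.2 := by rw [← h1]; ring
          rw [h5]; push_cast; rw [abs_mul]
          nlinarith [abs_nonneg (w.1.1 : ℝ), abs_nonneg (w.1.2 : ℝ)]
        · intro p hp
          obtain ⟨a, ha, rfl⟩ := Finset.mem_image.1 hp
          obtain ⟨ha1, ha2⟩ := Finset.mem_filter.1 ha
          have h6 := (hS a (Finset.mem_filter.1 ha1).1).1
          rw [← ha2, ← h6]; ring)
    exact h1.trans (mul_le_mul_of_nonneg_left (hbox Sa (Finset.filter_subset _ _)) (by positivity))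
  have hb : (Sb.card : ℝ) ≤ (6 * Y) * (C' * Y) := by
    have h1 := card_le_fib Sb (fun v => v.2) (Sb.image (fun v => v.2))
      (fun a ha => Finset.mem_image_of_mem _ ha) (6 * Y) (by
        intro d hd
        have e : (Sb.filter (fun a => a.2 = d)).card =
            ((Sb.filter (fun a => a.2 = d)).image (fun a => a.1)).card := by
          rw [Finset.card_image_of_injOn]
          intro a ha b hb hab
          simp only [Finset.coe_filter, Set.mem_ofPred_eq] at ha hb
          exact Prod.ext hab (ha.2.trans hb.2.symm)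
        rw [e]
        apply pairs_zero hY
        intro p hp
        obtain ⟨a, ha, rfl⟩ := Finset.mem_image.1 hp
        obtain ⟨ha1, ha2⟩ := Finset.mem_filter.1 ha
        obtain ⟨ha3, ha4⟩ := Finset.mem_filter.1 ha1
        obtain ⟨h6, h7, h8, h9⟩ := hS a ha3
        push Not at ha4
        refine ⟨?_, h7, h8⟩
        rw [← ha4, ← h6]; ring)
    refine h1.trans (mul_le_mul_of_nonneg_left ?_ (by positivity))
    apply h' Y hY (-m)
    intro p hp
    obtain ⟨a, ha, rfl⟩ := Finset.mem_image.1 hp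
    obtain ⟨ha3, ha4⟩ := Finset.mem_filter.1 ha
    obtain ⟨h6, h7, h8, h9, h10⟩ := hS a ha3
    push Not at ha4
    exact ⟨by linarith, h9, h10⟩
  have he : Y ^ (2 + ε) = Y ^ 2 * Y ^ ε := by
    rw [Real.rpow_add hY0]; congr 1; exact_mod_cast Real.rpow_natCast Y 2
  rw [hsplit]
  calc (Sa.card : ℝ) + Sb.card ≤ (C * Y ^ ε) * (9 * Y ^ 2) + (6 * Y) * (C' * Y) := add_le_add ha hb
    _ = 9 * C * (Y ^ 2 * Y ^ ε) + 6 * C' * Y ^ 2 := by ring
    _ ≤ 9 * C * Y ^ (2 + ε) + 6 * C' * Y ^ (2 + ε) := by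
        rw [← he]
        have := mul_le_mul_of_nonneg_left hYe (by linarith : 0 ≤ 6 * C')
        linarith
    _ = _ := by ring

/-- multiples of `n` in an interval -/
theorem mult_card {Z : ℝ} (hZ : 0 ≤ Z) (n : ℕ) (hn : 0 < n) (T : Finset ℤ)
    (hT : ∀ z ∈ T, (n : ℤ) ∣ 16 * z ∧ |(z : ℝ)| ≤ Z) : (T.card : ℝ) ≤ 32 * Z / n + 1 := by
  classical
  have h1 : T.card ≤ (Finset.Icc (-⌊16 * Z / n⌋) ⌊16 * Z / n⌋).card := by
    apply Finset.card_le_card_of_injOn (fun z => 16 * z / (n : ℤ))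
    · intro z hz
      obtain ⟨⟨k, hk⟩, h2⟩ := hT z hz
      have hn0 : (n : ℤ) ≠ 0 := by positivity
      have e : 16 * z / (n : ℤ) = k := by rw [hk]; exact Int.mul_ediv_cancel_left _ hn0
      have hk2 : |(k : ℝ)| ≤ 16 * Z / n := by
        rw [le_div_iff₀ (by positivity)]
        have : (16 : ℝ) * z = n * k := by exact_mod_cast hk
        have h3 : |(16 : ℝ) * z| = |(n : ℝ) * k| := by rw [this]
        rw [abs_mul, abs_mul, abs_of_pos (by norm_num : (0:ℝ) < 16), abs_of_pos (by positivity : (0:ℝ) < n)] at h3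
        nlinarith
      simp only [Finset.coe_Icc, Set.mem_Icc]
      rw [e]
      have h4 := abs_le.1 hk2
      constructor
      · have : -k ≤ ⌊16 * Z / n⌋ := Int.le_floor.2 (by push_cast; linarith)
        omega
      · exact Int.le_floor.2 h4.2
    · intro a ha b hb hab
      obtain ⟨⟨k, hk⟩, -⟩ := hT a ha
      obtain ⟨⟨l, hl⟩, -⟩ := hT b hb
      have hn0 : (n : ℤ) ≠ 0 := by positivity
      simp only [hk, hl, Int.mul_ediv_cancel_left _ hn0] at hab
      subst hab
      omega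
  have hf : (0 : ℤ) ≤ ⌊16 * Z / n⌋ := Int.floor_nonneg.2 (by positivity)
  rw [Int.card_Icc] at h1
  have h3 : (((⌊16 * Z / n⌋ + 1 - -⌊16 * Z / n⌋).toNat : ℕ) : ℝ) = 2 * ⌊16 * Z / n⌋ + 1 := by
    have : (((⌊16 * Z / n⌋ + 1 - -⌊16 * Z / n⌋).toNat : ℤ) : ℝ) = ((⌊16 * Z / n⌋ + 1 - -⌊16 * Z / n⌋ : ℤ) : ℝ) := by
      rw [Int.toNat_of_nonneg (by omega)]
    rw [Int.cast_natCast] at this
    rw [this]; push_cast; ring
  have h4 : (T.card : ℝ) ≤ 2 * ⌊16 * Z / n⌋ + 1 := by rw [← h3]; exact_mod_cast h1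
  have h5 := Int.floor_le (16 * Z / n)
  have h6 : 32 * Z / n = 2 * (16 * Z / n) := by ring
  linarith

end Pool.Agent.PP5K
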