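import Pool.Agent.PP5K.Kd
import Pool.Agent.PP5K.Kf

namespace Pool.Agent.PP5K

open Pool.Agent.PP5L

/-- `2 x 2` matrices in a box whose determinant is divisible by `n` (up to 16) -/
theorem detdiv_card {ε : ℝ} (hε : 0 < ε) : ∃ C : ℝ, 1 ≤ C ∧ ∀ Y : ℝ, 1 ≤ Y → ∀ n : ℕ, 0 < n →
    ∀ S : Finset ((ℤ × ℤ) × (ℤ × ℤ)), (∀ v ∈ S, (n : ℤ) ∣ 16 * (v.1.1 * v.1.2 - v.2.1 * v.2.2) ∧
      |(v.1.1 : ℝ)| ≤ Y ∧ |(v.1.2 : ℝ)| ≤ Y ∧ |(v.2.1 : ℝ)| ≤ Y ∧ |(v.2.2 : ℝ)| ≤ Y) →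
      (S.card : ℝ) ≤ C * Y ^ (2 + ε) * (Y ^ 2 / n + 1) := by
  classical
  obtain ⟨C, hC, h⟩ := det_card hε
  refine ⟨64 * C, by linarith, fun Y hY n hn S hS => ?_⟩
  have hY0 : 0 < Y := by linarith
  have h1 := card_le_fib S (fun v => v.1.1 * v.1.2 - v.2.1 * v.2.2)
    (S.image (fun v => v.1.1 * v.1.2 - v.2.1 * v.2.2))
    (fun a ha => Finset.mem_image_of_mem _ ha) (C * Y ^ (2 + ε)) (by
      intro d hd
      apply h Y hY d
      intro v hv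
      obtain ⟨h1, h2⟩ := Finset.mem_filter.1 hv
      exact ⟨h2, (hS v h1).2⟩)
  have h2 := mult_card (Z := 2 * Y ^ 2) (by positivity) n hn
    (S.image (fun v => v.1.1 * v.1.2 - v.2.1 * v.2.2)) (by
      intro z hz
      obtain ⟨v, hv, rfl⟩ := Finset.mem_image.1 hz
      obtain ⟨h0, h3, h4, h5, h6⟩ := hS v hv
      refine ⟨h0, ?_⟩
      push_cast
      calc |(v.1.1 : ℝ) * v.1.2 - v.2.1 * v.2.2| ≤ |(v.1.1 : ℝ) * v.1.2| + |(v.2.1 : ℝ) * v.2.2| := abs_sub _ _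
        _ ≤ Y * Y + Y * Y := by
            rw [abs_mul, abs_mul]
            exact add_le_add (mul_le_mul h3 h4 (abs_nonneg _) hY0.le) (mul_le_mul h5 h6 (abs_nonneg _) hY0.le)
        _ = 2 * Y ^ 2 := by ring)
  have hn' : (0 : ℝ) < n := by exact_mod_cast hn
  calc (S.card : ℝ) ≤ (C * Y ^ (2 + ε)) * ((S.image (fun v => v.1.1 * v.1.2 - v.2.1 * v.2.2)).card : ℝ) := h1
    _ ≤ (C * Y ^ (2 + ε)) * (32 * (2 * Y ^ 2) / n + 1) := mul_le_mul_of_nonneg_left h2 (by positivity)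
    _ ≤ (C * Y ^ (2 + ε)) * (64 * (Y ^ 2 / n + 1)) := by
        apply mul_le_mul_of_nonneg_left _ (by positivity)
        have : 32 * (2 * Y ^ 2) / n = 64 * (Y ^ 2 / n) := by ring
        rw [this]; linarith
    _ = _ := by ring

/-- the quadratic form `4 det A` -/
def pA (x : Fin 10 → ℤ) : ℤ := 4 * x 0 * x 2 - (x 4 + x 5) ^ 2

/-- the key of `x` -/
def key (x : Fin 10 → ℤ) : (ℤ × ℤ × ℤ) × ((ℤ × ℤ) × (ℤ × ℤ)) :=
  ((x 0, x 2, x 4 + x 5), ((x 6, x 9), (x 8, x 7)))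

theorem key_fiber {ε : ℝ} (hε : 0 < ε) : ∃ C : ℝ, 1 ≤ C ∧ ∀ Y : ℝ, 1 ≤ Y →
    ∀ S : Finset (Fin 10 → ℤ), (∀ x ∈ S, (∀ j, |(x j : ℝ)| ≤ Y) ∧ FF x = 0) →
    (S.card : ℝ) ≤ (C * Y ^ (1 + ε)) * ((S.image key).card : ℝ) := by
  classical
  obtain ⟨C, hC, h⟩ := disc_card hε
  refine ⟨C, hC, fun Y hY S hS => ?_⟩
  apply card_le_fib S key (S.image key) (fun a ha => Finset.mem_image_of_mem _ ha)
  intro b hb
  obtain ⟨w, hw, rfl⟩ := Finset.mem_image.1 hb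
  have e : (S.filter (fun a => key a = key w)).card =
      ((S.filter (fun a => key a = key w)).image (fun a => (a 1, a 3, a 4 - a 5))).card := by
    rw [Finset.card_image_of_injOn]
    intro a ha b hb hab
    simp only [Finset.coe_filter, Set.mem_ofPred_eq, Prod.mk.injEq, key] at ha hb hab
    obtain ⟨-, ⟨a0, a2, a45⟩, ⟨a6, a9⟩, a8, a7⟩ := ha
    obtain ⟨-, ⟨b0, b2, b45⟩, ⟨b6, b9⟩, b8, b7⟩ := hb
    obtain ⟨c1, c3, c45⟩ := hab
    funext j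
    fin_cases j <;> simp only [Fin.zero_eta, Fin.mk_one, Fin.reduceFinMk] <;> omega
  rw [e]
  apply h Y hY (pA w - 4 * (w 6 * w 9 - w 8 * w 7))
  intro v hv
  obtain ⟨a, ha, rfl⟩ := Finset.mem_image.1 hv
  obtain ⟨haS, hak⟩ := Finset.mem_filter.1 ha
  obtain ⟨hb1, hF⟩ := hS a haS
  simp only [key, Prod.mk.injEq] at hak
  obtain ⟨⟨a0, a2, a45⟩, ⟨a6, a9⟩, a8, a7⟩ := hak
  refine ⟨?_, hb1 1, hb1 3, ?_⟩
  · show 4 * a 1 * a 3 - (a 4 - a 5) ^ 2 = _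
    rw [pA, ← a0, ← a2, ← a45, ← a6, ← a9, ← a8, ← a7]
    have : FF a = 0 := hF
    simp only [FF] at this
    linear_combination (-4) * this
  · show |((a 4 - a 5 : ℤ) : ℝ)| ≤ 2 * Y
    push_cast
    have h4 := hb1 4
    have h5 := hb1 5
    calc |(a 4 : ℝ) - a 5| ≤ |(a 4 : ℝ)| + |(a 5 : ℝ)| := abs_sub _ _
      _ ≤ 2 * Y := by linarith

theorem pA_le {Y : ℝ} (hY : 1 ≤ Y) {x : Fin 10 → ℤ} (hx : ∀ j, |(x j : ℝ)| ≤ Y) :
    |((4 * pA x : ℤ) : ℝ)| ≤ 32 * Y ^ 2 := by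
  have h0 := hx 0
  have h2 := hx 2
  have h4 := hx 4
  have h5 := hx 5
  rw [pA]; push_cast
  have e1 : |(x 0 : ℝ) * x 2| ≤ Y * Y := by
    rw [abs_mul]; exact mul_le_mul h0 h2 (abs_nonneg _) (by linarith)
  have e2 : |(x 4 : ℝ) + x 5| ≤ 2 * Y := (abs_add_le _ _).trans (by linarith)
  have e3 : ((x 4 : ℝ) + x 5) ^ 2 ≤ (2 * Y) ^ 2 := by
    rw [← sq_abs]; exact pow_le_pow_left₀ (abs_nonneg _) e2 2
  have e4 : 0 ≤ ((x 4 : ℝ) + x 5) ^ 2 := sq_nonneg _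
  have e5 := abs_le.1 e1
  rw [abs_le]
  constructor <;> nlinarith

theorem key_box {Y : ℝ} (hY : 1 ≤ Y) (S : Finset (Fin 10 → ℤ))
    (hS : ∀ x ∈ S, (∀ j, |(x j : ℝ)| ≤ Y)) :
    ((S.image (fun x => (key x).1)).card : ℝ) ≤ 54 * Y ^ 3 := by
  classical
  have h1 : (S.image (fun x => (key x).1)).card ≤
      ((S.image (fun x => x 0)) ×ˢ ((S.image (fun x => x 2)) ×ˢ (S.image (fun x => x 4 + x 5)))).card := by
    apply Finset.card_le_card
    intro z hz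
    obtain ⟨w, hw, rfl⟩ := Finset.mem_image.1 hz
    simp only [Finset.mem_product, key]
    exact ⟨Finset.mem_image.2 ⟨w, hw, rfl⟩, Finset.mem_image.2 ⟨w, hw, rfl⟩, Finset.mem_image.2 ⟨w, hw, rfl⟩⟩
  rw [Finset.card_product, Finset.card_product] at h1
  have h2 := card_box hY (S.image (fun x => x 0)) (by
    intro z hz
    obtain ⟨w, hw, rfl⟩ := Finset.mem_image.1 hz
    exact hS w hw 0)
  have h3 := card_box hY (S.image (fun x => x 2)) (by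
    intro z hz
    obtain ⟨w, hw, rfl⟩ := Finset.mem_image.1 hz
    exact hS w hw 2)
  have h4 := card_box (Y := 2 * Y) (by linarith) (S.image (fun x => x 4 + x 5)) (by
    intro z hz
    obtain ⟨w, hw, rfl⟩ := Finset.mem_image.1 hz
    push_cast
    have := hS w hw 4
    have := hS w hw 5
    exact (abs_add_le _ _).trans (by linarith))
  have h5 : ((S.image (fun x => (key x).1)).card : ℝ) ≤ ((S.image (fun x => x 0)).card : ℝ) *
      (((S.image (fun x => x 2)).card : ℝ) * ((S.image (fun x => x 4 + x 5)).card : ℝ)) := by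
    exact_mod_cast h1
  refine h5.trans ?_
  calc _ ≤ (3 * Y) * ((3 * Y) * (3 * (2 * Y))) :=
        mul_le_mul h2 (mul_le_mul h3 h4 (by positivity) (by positivity)) (by positivity) (by positivity)
    _ = 54 * Y ^ 3 := by ring

theorem mat_box {Y : ℝ} (hY : 1 ≤ Y) (T : Finset ((ℤ × ℤ) × (ℤ × ℤ)))
    (hT : ∀ v ∈ T, |(v.1.1 : ℝ)| ≤ Y ∧ |(v.1.2 : ℝ)| ≤ Y ∧ |(v.2.1 : ℝ)| ≤ Y ∧ |(v.2.2 : ℝ)| ≤ Y) :
    (T.card : ℝ) ≤ 81 * Y ^ 4 := by
  classical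
  have h1 : T.card ≤ (((T.image (fun v => v.1.1)) ×ˢ (T.image (fun v => v.1.2))) ×ˢ
      ((T.image (fun v => v.2.1)) ×ˢ (T.image (fun v => v.2.2)))).card := by
    apply Finset.card_le_card
    intro z hz
    simp only [Finset.mem_product]
    exact ⟨⟨Finset.mem_image.2 ⟨z, hz, rfl⟩, Finset.mem_image.2 ⟨z, hz, rfl⟩⟩,
      Finset.mem_image.2 ⟨z, hz, rfl⟩, Finset.mem_image.2 ⟨z, hz, rfl⟩⟩
  rw [Finset.card_product, Finset.card_product, Finset.card_product] at h1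
  have h2 := card_box hY (T.image (fun v => v.1.1)) (by
    intro z hz
    obtain ⟨w, hw, rfl⟩ := Finset.mem_image.1 hz
    exact (hT w hw).1)
  have h3 := card_box hY (T.image (fun v => v.1.2)) (by
    intro z hz
    obtain ⟨w, hw, rfl⟩ := Finset.mem_image.1 hz
    exact (hT w hw).2.1)
  have h4 := card_box hY (T.image (fun v => v.2.1)) (by
    intro z hz
    obtain ⟨w, hw, rfl⟩ := Finset.mem_image.1 hz
    exact (hT w hw).2.2.1)
  have h5 := card_box hY (T.image (fun v => v.2.2)) (by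
    intro z hz
    obtain ⟨w, hw, rfl⟩ := Finset.mem_image.1 hz
    exact (hT w hw).2.2.2)
  have h6 : (T.card : ℝ) ≤ (((T.image (fun v => v.1.1)).card : ℝ) * ((T.image (fun v => v.1.2)).card : ℝ)) *
      (((T.image (fun v => v.2.1)).card : ℝ) * ((T.image (fun v => v.2.2)).card : ℝ)) := by
    exact_mod_cast h1
  refine h6.trans ?_
  calc _ ≤ ((3 * Y) * (3 * Y)) * ((3 * Y) * (3 * Y)) :=
        mul_le_mul (mul_le_mul h2 h3 (by positivity) (by positivity))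
          (mul_le_mul h4 h5 (by positivity) (by positivity)) (by positivity) (by positivity)
    _ = 81 * Y ^ 4 := by ring

end Pool.Agent.PP5K
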