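import Pool.Agent.PP5K.Kg

namespace Pool.Agent.PP5K

open Pool.Agent.PP5L

/-- (K3) the tail of the index: few `x` are rank one points for a large modulus. -/
theorem tail_card {ε : ℝ} (hε : 0 < ε) : ∃ C : ℝ, 1 ≤ C ∧ ∀ Y : ℝ, 1 ≤ Y → ∀ N0 : ℝ, 1 ≤ N0 →
    ∀ S : Finset (Fin 10 → ℤ), (∀ x ∈ S, (∀ j, |(x j : ℝ)| ≤ Y) ∧ FF x = 0 ∧
      ∃ n : ℕ, N0 ≤ n ∧ RK n x) → (S.card : ℝ) ≤ C * Y ^ (8 + ε) * (1 / N0 + 1 / Y ^ 2) := by
  classical
  set e := ε / 4 with he
  have he0 : 0 < e := by positivity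
  obtain ⟨C1, hC1, h1⟩ := key_fiber he0
  obtain ⟨C2, hC2, h2⟩ := detdiv_card he0
  obtain ⟨C3, hC3, h3⟩ := disc_card he0
  obtain ⟨c, hc, hdiv⟩ := Pool.Agent.FTA.divisor_bound (ε := e / 2) (by positivity)
  set K := (C1 * (54 * (c * 32 ^ (e / 2) * C2))) + C1 * (C3 * 81) with hK
  refine ⟨max 1 K, le_max_left _ _, fun Y hY N0 hN0 S hS => ?_⟩
  have hY0 : 0 < Y := by linarith
  have hN00 : 0 < N0 := by linarith
  set Sa := S.filter (fun x => pA x ≠ 0) with hSa
  set Sb := S.filter (fun x => ¬ pA x ≠ 0) with hSb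
  have hsplit : (S.card : ℝ) = Sa.card + Sb.card := by
    rw [hSa, hSb]; exact_mod_cast (Finset.card_filter_add_card_filter_not _).symm
  have hSaS : ∀ x ∈ Sa, x ∈ S := fun x hx => (Finset.mem_filter.1 hx).1
  have hSbS : ∀ x ∈ Sb, x ∈ S := fun x hx => (Finset.mem_filter.1 hx).1
  -- keys of Sa
  have hTa : ((Sa.image key).card : ℝ) ≤
      ((c * 32 ^ (e / 2) * Y ^ e) * (C2 * Y ^ (2 + e) * (Y ^ 2 / N0 + 1))) * (54 * Y ^ 3) := by
    have h4 := card_le_fib (Sa.image key) (fun v => v.1) (Sa.image (fun x => (key x).1))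
      (fun v hv => by
        obtain ⟨x, hx, rfl⟩ := Finset.mem_image.1 hv
        exact Finset.mem_image.2 ⟨x, hx, rfl⟩)
      ((c * 32 ^ (e / 2) * Y ^ e) * (C2 * Y ^ (2 + e) * (Y ^ 2 / N0 + 1))) (by
        intro a ha
        obtain ⟨w, hw, rfl⟩ := Finset.mem_image.1 ha
        have hw0 : pA w ≠ 0 := (Finset.mem_filter.1 hw).2
        have hwb := (hS w (hSaS w hw)).1
        -- the divisors
        set Dv := (4 * pA w).natAbs.divisors.filter (fun n : ℕ => N0 ≤ (n : ℝ)) with hDv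
        set Tw := ((Sa.image key).filter (fun v => v.1 = (key w).1)).image Prod.snd with hTw
        have e1 : ((Sa.image key).filter (fun v => v.1 = (key w).1)).card = Tw.card := by
          rw [hTw, Finset.card_image_of_injOn]
          intro u hu v hv huv
          simp only [Finset.coe_filter, Set.mem_ofPred_eq] at hu hv
          exact Prod.ext (hu.2.trans hv.2.symm) huv
        rw [e1]
        have hsub : Tw ⊆ Dv.biUnion (fun n : ℕ => Tw.filter
            (fun v => (n : ℤ) ∣ 16 * (v.1.1 * v.1.2 - v.2.1 * v.2.2))) := by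
          intro v hv
          obtain ⟨u, hu, rfl⟩ := Finset.mem_image.1 hv
          obtain ⟨hu1, hu2⟩ := Finset.mem_filter.1 hu
          obtain ⟨x, hx, rfl⟩ := Finset.mem_image.1 hu1
          obtain ⟨hxb, hxF, n, hn, hR⟩ := hS x (hSaS x hx)
          have hpA : pA x = pA w := by
            simp only [key, Prod.mk.injEq] at hu2
            obtain ⟨a0, a2, a45⟩ := hu2
            rw [pA, pA, a0, a2, a45]
          rw [Finset.mem_biUnion]
          refine ⟨n, ?_, Finset.mem_filter.2 ⟨hv, ?_⟩⟩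
          · rw [hDv, Finset.mem_filter, Nat.mem_divisors]
            refine ⟨⟨?_, ?_⟩, hn⟩
            · rw [← Int.natCast_dvd, ← hpA]
              exact RK_detA hR
            · rw [Int.natAbs_ne_zero]; omega
          · exact RK_detM hR
        have h5 : (Tw.card : ℝ) ≤ ∑ n ∈ Dv, ((Tw.filter
            (fun v => (n : ℤ) ∣ 16 * (v.1.1 * v.1.2 - v.2.1 * v.2.2))).card : ℝ) := by
          exact_mod_cast (Finset.card_le_card hsub).trans Finset.card_biUnion_le
        have h6 : ∀ n ∈ Dv, ((Tw.filter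
            (fun v => (n : ℤ) ∣ 16 * (v.1.1 * v.1.2 - v.2.1 * v.2.2))).card : ℝ) ≤
              C2 * Y ^ (2 + e) * (Y ^ 2 / N0 + 1) := by
          intro n hn
          rw [hDv, Finset.mem_filter, Nat.mem_divisors] at hn
          have hn0 : 0 < n := Nat.pos_of_ne_zero (by
            rintro rfl
            have := hn.2
            simp at this
            linarith)
          have h7 := h2 Y hY n hn0 (Tw.filter
            (fun v => (n : ℤ) ∣ 16 * (v.1.1 * v.1.2 - v.2.1 * v.2.2))) (by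
              intro v hv
              obtain ⟨hv1, hv2⟩ := Finset.mem_filter.1 hv
              obtain ⟨u, hu, rfl⟩ := Finset.mem_image.1 hv1
              obtain ⟨hu1, hu2⟩ := Finset.mem_filter.1 hu
              obtain ⟨x, hx, rfl⟩ := Finset.mem_image.1 hu1
              obtain ⟨hxb, -⟩ := hS x (hSaS x hx)
              exact ⟨hv2, hxb 6, hxb 9, hxb 8, hxb 7⟩)
          refine h7.trans (mul_le_mul_of_nonneg_left ?_ (by positivity))
          have : Y ^ 2 / (n : ℝ) ≤ Y ^ 2 / N0 := div_le_div_of_nonneg_left (by positivity) hN00 hn.2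
          linarith
        have h7 : (Dv.card : ℝ) ≤ c * 32 ^ (e / 2) * Y ^ e := by
          have h8 : (Dv.card : ℝ) ≤ (4 * pA w).natAbs.divisors.card := by
            exact_mod_cast Finset.card_filter_le _ _
          have h9 := hdiv (4 * pA w).natAbs (Int.natAbs_ne_zero.2 (by omega))
          have h10 : (((4 * pA w).natAbs : ℕ) : ℝ) ≤ 32 * Y ^ 2 := by
            rw [Nat.cast_natAbs, Int.cast_abs]
            exact pA_le hY hwb
          have h11 : (((4 * pA w).natAbs : ℕ) : ℝ) ^ (e / 2) ≤ (32 * Y ^ 2) ^ (e / 2) :=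
            Real.rpow_le_rpow (by positivity) h10 (by positivity)
          have h12 : (32 * Y ^ 2) ^ (e / 2) = 32 ^ (e / 2) * Y ^ e := by
            rw [Real.mul_rpow (by norm_num) (by positivity), ← Real.rpow_natCast Y 2,
              ← Real.rpow_mul (by linarith)]
            congr 2
            push_cast; ring
          calc (Dv.card : ℝ) ≤ _ := h8
            _ ≤ _ := h9
            _ ≤ c * (32 ^ (e / 2) * Y ^ e) := by
                rw [← h12]; exact mul_le_mul_of_nonneg_left h11 hc.le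
            _ = _ := by ring
        calc (Tw.card : ℝ) ≤ _ := h5
          _ ≤ ∑ _n ∈ Dv, C2 * Y ^ (2 + e) * (Y ^ 2 / N0 + 1) := Finset.sum_le_sum h6
          _ = Dv.card * (C2 * Y ^ (2 + e) * (Y ^ 2 / N0 + 1)) := by
              rw [Finset.sum_const, nsmul_eq_mul]
          _ ≤ _ := mul_le_mul_of_nonneg_right h7 (by positivity))
    refine h4.trans (mul_le_mul_of_nonneg_left ?_ (by positivity))
    exact key_box hY Sa (fun x hx => (hS x (hSaS x hx)).1)
  have hTb : ((Sb.image key).card : ℝ) ≤ (C3 * Y ^ (1 + e)) * (81 * Y ^ 4) := by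
    have h4 : (Sb.image key).card ≤ ((Sb.image (fun x => (key x).1)) ×ˢ (Sb.image (fun x => (key x).2))).card := by
      apply Finset.card_le_card
      intro v hv
      obtain ⟨x, hx, rfl⟩ := Finset.mem_image.1 hv
      exact Finset.mem_product.2 ⟨Finset.mem_image.2 ⟨x, hx, rfl⟩, Finset.mem_image.2 ⟨x, hx, rfl⟩⟩
    rw [Finset.card_product] at h4
    have h5 := h3 Y hY 0 (Sb.image (fun x => (key x).1)) (by
      intro v hv
      obtain ⟨x, hx, rfl⟩ := Finset.mem_image.1 hv
      have hx0 : pA x = 0 := by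
        have := (Finset.mem_filter.1 hx).2
        push Not at this
        exact this
      have hxb := (hS x (hSbS x hx)).1
      refine ⟨hx0, hxb 0, hxb 2, ?_⟩
      show |((x 4 + x 5 : ℤ) : ℝ)| ≤ 2 * Y
      push_cast
      have := hxb 4
      have := hxb 5
      exact (abs_add_le _ _).trans (by linarith))
    have h6 := mat_box hY (Sb.image (fun x => (key x).2)) (by
      intro v hv
      obtain ⟨x, hx, rfl⟩ := Finset.mem_image.1 hv
      have hxb := (hS x (hSbS x hx)).1
      exact ⟨hxb 6, hxb 9, hxb 8, hxb 7⟩)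
    have h7 : ((Sb.image key).card : ℝ) ≤ ((Sb.image (fun x => (key x).1)).card : ℝ) *
        ((Sb.image (fun x => (key x).2)).card : ℝ) := by exact_mod_cast h4
    exact h7.trans (mul_le_mul h5 h6 (by positivity) (by positivity))
  have ha := h1 Y hY Sa (fun x hx => ⟨(hS x (hSaS x hx)).1, (hS x (hSaS x hx)).2.1⟩)
  have hb := h1 Y hY Sb (fun x hx => ⟨(hS x (hSbS x hx)).1, (hS x (hSbS x hx)).2.1⟩)
  have r1 : Y ^ (1 + e) = Y * Y ^ e := by rw [Real.rpow_add hY0, Real.rpow_one]
  have r2 : Y ^ (2 + e) = Y ^ 2 * Y ^ e := by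
    rw [Real.rpow_add hY0]; congr 1; exact_mod_cast Real.rpow_natCast Y 2
  have r8 : Y ^ (8 + ε) = Y ^ 8 * (Y ^ e * Y ^ e * Y ^ e * Y ^ e) := by
    rw [← Real.rpow_add hY0, ← Real.rpow_add hY0, ← Real.rpow_add hY0, Real.rpow_add hY0]
    congr 1
    · exact_mod_cast Real.rpow_natCast Y 8
    · congr 1; rw [he]; ring
  have hye : 1 ≤ Y ^ e := Real.one_le_rpow hY he0.le
  set z := Y ^ e with hz
  have hA : (Sa.card : ℝ) ≤ (C1 * (54 * (c * 32 ^ (e / 2) * C2))) * (Y ^ 8 * (z * z * z) * (1 / N0 + 1 / Y ^ 2)) := by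
    refine ha.trans ((mul_le_mul_of_nonneg_left hTa (by positivity)).trans (le_of_eq ?_))
    rw [r1, r2]
    field_simp
  have hB : (Sb.card : ℝ) ≤ (C1 * (C3 * 81)) * (Y ^ 8 * (z * z) * (1 / Y ^ 2)) := by
    refine hb.trans ((mul_le_mul_of_nonneg_left hTb (by positivity)).trans (le_of_eq ?_))
    rw [r1]
    field_simp
  have hz0 : 0 < z := by linarith
  have m1 : Y ^ 8 * (z * z * z) * (1 / N0 + 1 / Y ^ 2) ≤ Y ^ (8 + ε) * (1 / N0 + 1 / Y ^ 2) := by
    rw [r8]
    apply mul_le_mul_of_nonneg_right _ (by positivity)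
    apply mul_le_mul_of_nonneg_left _ (by positivity)
    nlinarith [mul_pos (mul_pos hz0 hz0) hz0]
  have m2 : Y ^ 8 * (z * z) * (1 / Y ^ 2) ≤ Y ^ (8 + ε) * (1 / N0 + 1 / Y ^ 2) := by
    rw [r8]
    apply mul_le_mul
    · apply mul_le_mul_of_nonneg_left _ (by positivity)
      have : z * z ≤ z * z * (z * z) := by
        have h1 : 1 ≤ z * z := by nlinarith
        nlinarith [mul_pos hz0 hz0]
      linarith [this, (by ring : z * z * (z * z) = z * z * z * z)]
    · have : 0 ≤ 1 / N0 := by positivity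
      linarith
    · positivity
    · positivity
  rw [hsplit]
  have hq : 0 ≤ Y ^ (8 + ε) * (1 / N0 + 1 / Y ^ 2) := by positivity
  calc (Sa.card : ℝ) + Sb.card ≤ (C1 * (54 * (c * 32 ^ (e / 2) * C2))) * (Y ^ (8 + ε) * (1 / N0 + 1 / Y ^ 2)) +
        (C1 * (C3 * 81)) * (Y ^ (8 + ε) * (1 / N0 + 1 / Y ^ 2)) :=
        add_le_add (hA.trans (mul_le_mul_of_nonneg_left m1 (by positivity)))
          (hB.trans (mul_le_mul_of_nonneg_left m2 (by positivity)))
    _ = K * (Y ^ (8 + ε) * (1 / N0 + 1 / Y ^ 2)) := by rw [hK]; ring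
    _ ≤ max 1 K * (Y ^ (8 + ε) * (1 / N0 + 1 / Y ^ 2)) :=
        mul_le_mul_of_nonneg_right (le_max_right _ _) hq
    _ = _ := by ring

end Pool.Agent.PP5K
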