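import Pool.Agent.PP5K.Kd
import Pool.Agent.FTA.DivB

namespace Pool.Agent.PP5K

open Pool.Agent.PP5L

theorem RR_modEq {n : ℤ} {x y : Fin 10 → ℤ} (h : ∀ j, x j ≡ y j [ZMOD n]) (i j : Fin 4) :
    RR x i j ≡ RR y i j [ZMOD n] := by
  fin_cases i <;> fin_cases j <;>
    simp only [RR, Fin.isValue, Fin.zero_eta, Fin.mk_one, Fin.reduceFinMk, Matrix.cons_val_zero, Matrix.cons_val_one, Matrix.cons_val] <;>
    first
    | exact (h _).mul_left 2
    | exact (h _).add (h _)
    | exact (h _).sub (h _)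

theorem RK_congr {n : ℤ} {x y : Fin 10 → ℤ} (h : ∀ j, x j ≡ y j [ZMOD n]) (hx : RK n x) : RK n y := by
  refine ⟨fun p pp hp => ?_, fun i j k => ?_⟩
  · obtain ⟨i, hi⟩ := hx.1 p pp hp
    refine ⟨i, fun hy => hi ?_⟩
    have h2 : (p : ℤ) ∣ y (dg i) - x (dg i) := hp.trans (h (dg i)).dvd
    have : x (dg i) = y (dg i) - (y (dg i) - x (dg i)) := by ring
    rw [this]
    exact dvd_sub hy h2
  · have h1 : (x (dg i)) ^ 2 * (RR x i i * RR x j k - RR x i j * RR x i k) ≡
        (y (dg i)) ^ 2 * (RR y i i * RR y j k - RR y i j * RR y i k) [ZMOD n] :=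
      ((h _).pow 2).mul (((RR_modEq h i i).mul (RR_modEq h j k)).sub ((RR_modEq h i j).mul (RR_modEq h i k)))
    exact (Int.modEq_zero_iff_dvd).1 (h1.symm.trans ((Int.modEq_zero_iff_dvd).2 (hx.2 i j k)))

theorem RK_mono {a n : ℤ} (ha : a ∣ n) {x : Fin 10 → ℤ} (hx : RK n x) : RK a x :=
  ⟨fun p pp hp => hx.1 p pp (hp.trans ha), fun i j k => ha.trans (hx.2 i j k)⟩

/-- prime powers: at most `4^11 q^4` classes -/
theorem class_prime_pow {p w : ℕ} (pp : p.Prime) (hw : w ≠ 0) (S : Finset (Fin 10 → ℤ))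
    (hS : ∀ x ∈ S, (∀ j, 0 ≤ x j ∧ x j < ((p ^ w : ℕ) : ℤ)) ∧ RK ((p ^ w : ℕ) : ℤ) x) :
    S.card ≤ 4 ^ 11 * (p ^ w) ^ 4 := by
  classical
  set q : ℕ := p ^ w with hq
  have hq0 : 0 < q := pow_pos pp.pos _
  have hqz : (0 : ℤ) < q := by exact_mod_cast hq0
  have hsub : S ⊆ (Finset.univ : Finset (Fin 4)).biUnion (fun i => S.filter (fun x => ¬ (p : ℤ) ∣ x (dg i) ∧
      ∀ j k, (q : ℤ) ∣ RR x i i * RR x j k - RR x i j * RR x i k)) := by
    intro x hx
    obtain ⟨i, hi, hl⟩ := RK_local (hS x hx).2 pp hw dvd_rfl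
    exact Finset.mem_biUnion.2 ⟨i, Finset.mem_univ _, Finset.mem_filter.2 ⟨hx, hi, hl⟩⟩
  have hone : ∀ i : Fin 4, (S.filter (fun x => ¬ (p : ℤ) ∣ x (dg i) ∧
      ∀ j k, (q : ℤ) ∣ RR x i i * RR x j k - RR x i j * RR x i k)).card ≤ 4 ^ 10 * q ^ 4 := by
    intro i
    set T := (Fintype.piFinset (fun _ : Fin 4 => Finset.Ico (0 : ℤ) q)) ×ˢ
      (Fintype.piFinset (fun _ : Fin 10 => Finset.Ico (0 : ℤ) 4)) with hT
    have hTc : T.card = 4 ^ 10 * q ^ 4 := by
      rw [hT, Finset.card_product, Fintype.card_piFinset, Fintype.card_piFinset]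
      simp [mul_comm]
    rw [← hTc]
    apply Finset.card_le_card_of_injOn
      (fun x => ((fun j => RR x i j % q), (fun j => 4 * x j / q)))
    · intro x hx
      simp only [Finset.coe_filter, Set.mem_ofPred_eq] at hx
      have hb := (hS x hx.1).1
      simp only [hT, Finset.coe_product, Set.mem_prod, Finset.mem_coe, Fintype.mem_piFinset, Finset.mem_Ico]
      refine ⟨fun j => ⟨Int.emod_nonneg _ hqz.ne', Int.emod_lt_of_pos _ hqz⟩, fun j => ⟨?_, ?_⟩⟩
      · exact Int.ediv_nonneg (by have := (hb j).1; omega) hqz.le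
      · rw [Int.ediv_lt_iff_lt_mul hqz]
        have := (hb j).2
        omega
    · intro x hx y hy hxy
      simp only [Finset.coe_filter, Set.mem_ofPred_eq] at hx hy
      simp only [Prod.mk.injEq] at hxy
      obtain ⟨e1, e2⟩ := hxy
      obtain ⟨hxS, hxi, hxl⟩ := hx
      obtain ⟨hyS, hyi, hyl⟩ := hy
      have hrow : ∀ j, RR x i j ≡ RR y i j [ZMOD q] := fun j => congrFun e1 j
      have h2 : ∀ j k, (q : ℤ) ∣ 2 * (RR x j k - RR y j k) := by
        intro j k
        have a1 : RR x i i * RR x j k ≡ RR x i j * RR x i k [ZMOD q] :=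
          (Int.modEq_iff_dvd.2 (by
            have := (hxl j k); rw [← dvd_neg] at this; simpa using this))
        have a2 : RR y i i * RR y j k ≡ RR y i j * RR y i k [ZMOD q] :=
          (Int.modEq_iff_dvd.2 (by
            have := (hyl j k); rw [← dvd_neg] at this; simpa using this))
        have a3 : RR x i i * RR x j k ≡ RR x i i * RR y j k [ZMOD q] :=
          a1.trans (((hrow j).mul (hrow k)).trans (a2.symm.trans ((hrow i).symm.mul_right _)))
        have a4 : (q : ℤ) ∣ x (dg i) * (2 * (RR x j k - RR y j k)) := by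
          have h5 := a3.symm.dvd
          have e : x (dg i) * (2 * (RR x j k - RR y j k)) = RR x i i * RR x j k - RR x i i * RR y j k := by
            rw [RR_diag]; ring
          rw [e]; exact h5
        have a5 : (q : ℤ) ∣ x (dg i) ^ 2 * (2 * (RR x j k - RR y j k)) := by
          have : x (dg i) ^ 2 * (2 * (RR x j k - RR y j k)) = x (dg i) * (x (dg i) * (2 * (RR x j k - RR y j k))) := by ring
          rw [this]; exact Dvd.dvd.mul_left a4 _
        exact cop_cancel pp hxi a5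
      have h4 : ∀ m, (q : ℤ) ∣ 4 * x m - 4 * y m := by
        have d0 := h2 0 0
        have d2 := h2 1 1
        have d1 := h2 2 2
        have d3 := h2 3 3
        have d6 := h2 0 2
        have d8 := h2 0 3
        have d7 := h2 1 2
        have d9 := h2 1 3
        have da := h2 0 1
        have db := h2 2 3
        simp only [RR, Fin.isValue, Matrix.cons_val_zero, Matrix.cons_val_one, Matrix.cons_val] at d0 d1 d2 d3 d6 d7 d8 d9 da db
        have d4 := dvd_add da db
        have d5 := dvd_sub da db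
        intro m
        fin_cases m <;> simp only [Fin.isValue, Fin.zero_eta, Fin.mk_one, Fin.reduceFinMk]
        · convert d0 using 1; ring
        · convert d1 using 1; ring
        · convert d2 using 1; ring
        · convert d3 using 1; ring
        · have e : 4 * x 4 - 4 * y 4 = 2 * (x 4 + x 5 - (y 4 + y 5)) + 2 * (x 4 - x 5 - (y 4 - y 5)) := by ring
          rw [e]; exact d4
        · have e : 4 * x 5 - 4 * y 5 = 2 * (x 4 + x 5 - (y 4 + y 5)) - 2 * (x 4 - x 5 - (y 4 - y 5)) := by ring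
          rw [e]; exact d5
        · convert d6 using 1; ring
        · convert d7 using 1; ring
        · convert d8 using 1; ring
        · convert d9 using 1; ring
      funext m
      have e3 : 4 * x m / q = 4 * y m / q := congrFun e2 m
      have e4 : (4 * x m) % q = (4 * y m) % q := (Int.modEq_iff_dvd.2 (by
        have := h4 m; rw [← dvd_neg] at this; simpa using this) : 4 * x m ≡ 4 * y m [ZMOD q])
      have e5 := Int.mul_ediv_add_emod (4 * x m) q
      have e6 := Int.mul_ediv_add_emod (4 * y m) q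
      rw [e3, e4, e6] at e5
      omega
  calc S.card ≤ _ := Finset.card_le_card hsub
    _ ≤ ∑ i : Fin 4, (S.filter (fun x => ¬ (p : ℤ) ∣ x (dg i) ∧
      ∀ j k, (q : ℤ) ∣ RR x i i * RR x j k - RR x i j * RR x i k)).card := Finset.card_biUnion_le
    _ ≤ ∑ _i : Fin 4, 4 ^ 10 * q ^ 4 := Finset.sum_le_sum (fun i _ => hone i)
    _ = 4 ^ 11 * q ^ 4 := by simp; ring

theorem class_card_nat (n : ℕ) (hn : 0 < n) : ∀ S : Finset (Fin 10 → ℤ),
    (∀ x ∈ S, (∀ j, 0 ≤ x j ∧ x j < (n : ℤ)) ∧ RK (n : ℤ) x) → S.card ≤ n.divisors.card ^ 22 * n ^ 4 := by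
  classical
  induction n using Nat.recOnPosPrimePosCoprime with
  | prime_pow p w pp hw =>
    intro S hS
    refine (class_prime_pow pp hw.ne' S hS).trans (Nat.mul_le_mul_right _ ?_)
    have h1 : 2 ≤ (p ^ w).divisors.card := by
      rw [Nat.divisors_prime_pow pp, Finset.card_map, Finset.card_range]
      omega
    calc 4 ^ 11 = 2 ^ 22 := by norm_num
      _ ≤ _ := Nat.pow_le_pow_left h1 22
  | zero => omega
  | one =>
    intro S hS
    have h1 : S ⊆ {fun _ => 0} := by
      intro x hx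
      rw [Finset.mem_singleton]
      funext j
      have := (hS x hx).1 j
      push_cast at this
      omega
    have := Finset.card_le_card h1
    simpa using this
  | coprime a b ha hb hab iha ihb =>
    intro S hS
    have ha0 : (0 : ℤ) < a := by exact_mod_cast (by omega : 0 < a)
    have hb0 : (0 : ℤ) < b := by exact_mod_cast (by omega : 0 < b)
    set Sa := S.image (fun x j => x j % (a : ℤ)) with hSa
    set Sb := S.image (fun x j => x j % (b : ℤ)) with hSb
    have h1 : S.card ≤ (Sa ×ˢ Sb).card := by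
      apply Finset.card_le_card_of_injOn (fun x => ((fun j => x j % (a : ℤ)), (fun j => x j % (b : ℤ))))
      · intro x hx
        simp only [Finset.coe_product, Set.mem_prod, Finset.mem_coe]
        exact ⟨Finset.mem_image_of_mem _ hx, Finset.mem_image_of_mem _ hx⟩
      · intro x hx y hy hxy
        simp only [Prod.mk.injEq] at hxy
        obtain ⟨e1, e2⟩ := hxy
        funext j
        have f1 : x j ≡ y j [ZMOD a] := congrFun e1 j
        have f2 : x j ≡ y j [ZMOD b] := congrFun e2 j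
        have f3 : x j ≡ y j [ZMOD (a * b : ℕ)] := by
          push_cast
          exact (Int.modEq_and_modEq_iff_modEq_mul (by simpa using hab)).1 ⟨f1, f2⟩
        have hx1 := (hS x hx).1 j
        have hy1 := (hS y hy).1 j
        rw [Int.ModEq, Int.emod_eq_of_lt hx1.1 hx1.2, Int.emod_eq_of_lt hy1.1 hy1.2] at f3
        exact f3
    have hSa' := iha (by omega) Sa (by
      intro z hz
      obtain ⟨x, hx, rfl⟩ := Finset.mem_image.1 hz
      refine ⟨fun j => ⟨Int.emod_nonneg _ ha0.ne', Int.emod_lt_of_pos _ ha0⟩, ?_⟩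
      apply RK_congr (x := x) (fun j => (Int.mod_modEq _ _).symm)
      apply RK_mono _ (hS x hx).2
      push_cast
      exact dvd_mul_right _ _)
    have hSb' := ihb (by omega) Sb (by
      intro z hz
      obtain ⟨x, hx, rfl⟩ := Finset.mem_image.1 hz
      refine ⟨fun j => ⟨Int.emod_nonneg _ hb0.ne', Int.emod_lt_of_pos _ hb0⟩, ?_⟩
      apply RK_congr (x := x) (fun j => (Int.mod_modEq _ _).symm)
      apply RK_mono _ (hS x hx).2
      push_cast
      exact dvd_mul_left _ _)
    rw [Finset.card_product] at h1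
    calc S.card ≤ Sa.card * Sb.card := h1
      _ ≤ (a.divisors.card ^ 22 * a ^ 4) * (b.divisors.card ^ 22 * b ^ 4) := Nat.mul_le_mul hSa' hSb'
      _ = (a * b).divisors.card ^ 22 * (a * b) ^ 4 := by
          rw [Nat.Coprime.card_divisors_mul hab]; ring

/-- the number of classes modulo `n` of rank one points is at most `C n^(9/2)` -/
theorem class_card : ∃ C : ℝ, 1 ≤ C ∧ ∀ n : ℕ, 0 < n → ∀ S : Finset (Fin 10 → ℤ),
    (∀ x ∈ S, (∀ j, 0 ≤ x j ∧ x j < (n : ℤ)) ∧ RK (n : ℤ) x) →
      (S.card : ℝ) ≤ C * (n : ℝ) ^ (9 / 2 : ℝ) := by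
  obtain ⟨c, hc, hdiv⟩ := Pool.Agent.FTA.divisor_bound (ε := 1 / 44) (by positivity)
  refine ⟨max 1 (c ^ 22), le_max_left _ _, fun n hn S hS => ?_⟩
  have h1 := class_card_nat n hn S hS
  have h2 := hdiv n hn.ne'
  have hn0 : (0 : ℝ) < n := by exact_mod_cast hn
  have h3 : ((n.divisors.card : ℝ)) ^ 22 ≤ c ^ 22 * (n : ℝ) ^ (1 / 2 : ℝ) := by
    calc ((n.divisors.card : ℝ)) ^ 22 ≤ (c * (n : ℝ) ^ (1 / 44 : ℝ)) ^ 22 :=
          pow_le_pow_left₀ (by positivity) h2 22
      _ = c ^ 22 * (n : ℝ) ^ (1 / 2 : ℝ) := by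
          rw [mul_pow, ← Real.rpow_natCast ((n : ℝ) ^ (1 / 44 : ℝ)) 22, ← Real.rpow_mul hn0.le]
          norm_num
  have h4 : (n : ℝ) ^ (9 / 2 : ℝ) = (n : ℝ) ^ (1 / 2 : ℝ) * (n : ℝ) ^ 4 := by
    rw [← Real.rpow_natCast (n : ℝ) 4, ← Real.rpow_add hn0]; norm_num
  calc (S.card : ℝ) ≤ (n.divisors.card : ℝ) ^ 22 * (n : ℝ) ^ 4 := by exact_mod_cast h1
    _ ≤ (c ^ 22 * (n : ℝ) ^ (1 / 2 : ℝ)) * (n : ℝ) ^ 4 := mul_le_mul_of_nonneg_right h3 (by positivity)
    _ = c ^ 22 * (n : ℝ) ^ (9 / 2 : ℝ) := by rw [h4]; ring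
    _ ≤ _ := mul_le_mul_of_nonneg_right (le_max_right _ _) (by positivity)

end Pool.Agent.PP5K
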