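import Pool.Agent.PP5C.SrX

/-!
# Ksr: three series (difficulty 3)

As the first two parts of `PP5C.srx`, with the power `13/25 = 0.52` of the densities.
-/

set_option autoImplicit false

namespace Pool.Agent.PP5K

open Finset Pool.Agent.PPS Pool.Agent.PP5C

private noncomputable def Kr : ℝ := (2 : ℝ) ^ (-(1 / 50) : ℝ)

private theorem Kr0 : 0 < Kr := by unfold Kr; positivity

private theorem Kr1 : Kr < 1 := by
  unfold Kr
  exact Real.rpow_lt_one_of_one_lt_of_neg (by norm_num) (by norm_num)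

private theorem Ksumm : Summable (fun e : ℕ => ((e : ℝ) + 1) ^ 4 * Kr ^ e) := by
  have h := summable_pow_mul_geometric_of_norm_lt_one 4 (r := Kr)
    (by rw [Real.norm_of_nonneg Kr0.le]; exact Kr1)
  have h2 := (summable_nat_add_iff 1).mpr h
  have h3 := h2.mul_left (Kr⁻¹)
  refine h3.congr fun e => ?_
  have hr := Kr0.ne'
  push_cast
  rw [pow_succ Kr e]
  field_simp

private noncomputable def KS : ℝ := ∑' e : ℕ, ((e : ℝ) + 1) ^ 4 * Kr ^ e

private theorem KsumZ : Summable (fun n : ℕ => 1 / (n : ℝ) ^ (51 / 50 : ℝ)) :=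
  Real.summable_one_div_nat_rpow.mpr (by norm_num)

private noncomputable def KZ : ℝ := ∑' n : ℕ, 1 / (n : ℝ) ^ (51 / 50 : ℝ)

private theorem KS0 : 0 ≤ KS := tsum_nonneg fun e => by
  have := Kr0
  positivity

private theorem Kpow {l : ℕ} (hl : 2 ≤ l) {e : ℕ} {x : ℝ} (hx : 51 / 50 + (e : ℝ) / 50 ≤ x) :
    (l : ℝ) ^ (-x) ≤ (1 / (l : ℝ) ^ (51 / 50 : ℝ)) * Kr ^ e := by
  have hl2 : (2 : ℝ) ≤ l := by exact_mod_cast hl
  have he : (0 : ℝ) ≤ (e : ℝ) := Nat.cast_nonneg e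
  have h1 : (l : ℝ) ^ (-x) ≤ (l : ℝ) ^ (-(51 / 50 + (e : ℝ) / 50)) :=
    Real.rpow_le_rpow_of_exponent_le (by linarith) (by linarith)
  have h2 : (l : ℝ) ^ (-(51 / 50 + (e : ℝ) / 50)) =
      (1 / (l : ℝ) ^ (51 / 50 : ℝ)) * (l : ℝ) ^ (-((e : ℝ) / 50)) := by
    rw [neg_add, Real.rpow_add (by linarith), Real.rpow_neg (by linarith) (51 / 50), one_div]
  have h3 : (l : ℝ) ^ (-((e : ℝ) / 50)) ≤ (2 : ℝ) ^ (-((e : ℝ) / 50)) :=
    Real.rpow_le_rpow_of_nonpos (by norm_num) hl2 (by linarith)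
  have h4 : (2 : ℝ) ^ (-((e : ℝ) / 50)) = Kr ^ e := by
    unfold Kr
    rw [← Real.rpow_natCast, ← Real.rpow_mul (by norm_num)]
    congr 1
    ring
  rw [h2] at h1
  rw [h4] at h3
  exact h1.trans (mul_le_mul_of_nonneg_left h3 (by positivity))

private theorem Kmul (φ : ℕ → ℕ → ℝ) (m n : ℕ) (hm : m ≠ 0) (hn : n ≠ 0)
    (hc : Nat.Coprime m n) :
    ∏ l ∈ (m * n).primeFactors, φ l ((m * n).factorization l) =
      (∏ l ∈ m.primeFactors, φ l (m.factorization l)) *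
        ∏ l ∈ n.primeFactors, φ l (n.factorization l) := by
  rw [hc.primeFactors_mul, Finset.prod_union hc.disjoint_primeFactors]
  congr 1
  · refine Finset.prod_congr rfl fun l hl => ?_
    have h0 : n.factorization l = 0 := by
      refine Nat.factorization_eq_zero_of_not_dvd fun h => ?_
      exact Nat.not_coprime_of_dvd_of_dvd (Nat.prime_of_mem_primeFactors hl).one_lt
        (Nat.dvd_of_mem_primeFactors hl) h hc
    rw [Nat.factorization_mul hm hn, Finsupp.add_apply, h0, add_zero]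
  · refine Finset.prod_congr rfl fun l hl => ?_
    have h0 : m.factorization l = 0 := by
      refine Nat.factorization_eq_zero_of_not_dvd fun h => ?_
      exact Nat.not_coprime_of_dvd_of_dvd (Nat.prime_of_mem_primeFactors hl).one_lt
        h (Nat.dvd_of_mem_primeFactors hl) hc
    rw [Nat.factorization_mul hm hn, Finsupp.add_apply, h0, zero_add]

private theorem Kmain (K : ℝ) (φ : ℕ → ℕ → ℝ) (h0 : ∀ l e, 0 ≤ φ l e)
    (h1 : ∀ l : ℕ, l.Prime → ∀ e : ℕ, 1 ≤ e →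
      φ l e ≤ K ^ 2 * (((e : ℝ) + 1) ^ 4 * Kr ^ e) * (1 / (l : ℝ) ^ (51 / 50 : ℝ))) (N : ℕ) :
    ∑ n ∈ Icc 1 N, ∏ l ∈ n.primeFactors, φ l (n.factorization l) ≤
      Real.exp (K ^ 2 * KS * KZ) := by
  have hb : ∀ l : ℕ, l.Prime → ∀ E : ℕ, ∑ e ∈ Icc 1 E,
      (fun n : ℕ => ∏ l ∈ n.primeFactors, φ l (n.factorization l)) (l ^ e) ≤
        K ^ 2 * KS * (1 / (l : ℝ) ^ (51 / 50 : ℝ)) := by
    intro l hl E
    have e1 : ∀ e ∈ Icc 1 E, (fun n : ℕ => ∏ l ∈ n.primeFactors, φ l (n.factorization l)) (l ^ e) ≤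
        K ^ 2 * (((e : ℝ) + 1) ^ 4 * Kr ^ e) * (1 / (l : ℝ) ^ (51 / 50 : ℝ)) := by
      intro e he
      have he1 : 1 ≤ e := (Finset.mem_Icc.mp he).1
      have e2 : (fun n : ℕ => ∏ l ∈ n.primeFactors, φ l (n.factorization l)) (l ^ e) = φ l e := by
        simp only
        rw [Nat.primeFactors_prime_pow (by omega) hl, Finset.prod_singleton,
          hl.factorization_pow, Finsupp.single_eq_same]
      rw [e2]
      exact h1 l hl e he1
    refine (Finset.sum_le_sum e1).trans ?_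
    rw [← Finset.sum_mul, ← Finset.mul_sum]
    refine mul_le_mul_of_nonneg_right ?_ (by positivity)
    refine mul_le_mul_of_nonneg_left ?_ (by positivity)
    exact Ksumm.sum_le_tsum _ (fun e _ => by
      have := Kr0
      positivity)
  have h2 := PPW.eul (fun n : ℕ => ∏ l ∈ n.primeFactors, φ l (n.factorization l))
    (fun l : ℕ => K ^ 2 * KS * (1 / (l : ℝ) ^ (51 / 50 : ℝ)))
    (fun n => Finset.prod_nonneg fun l _ => h0 _ _)
    (by simp)
    (fun m n hm hn hc => Kmul φ m n hm hn hc) hb N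
  refine h2.trans ?_
  have h3 : ∏ l ∈ (Icc 1 N).filter Nat.Prime, (1 + K ^ 2 * KS * (1 / (l : ℝ) ^ (51 / 50 : ℝ))) ≤
      ∏ l ∈ (Icc 1 N).filter Nat.Prime,
        Real.exp (K ^ 2 * KS * (1 / (l : ℝ) ^ (51 / 50 : ℝ))) := by
    refine Finset.prod_le_prod (fun l _ => ?_) (fun l _ => ?_)
    · have := KS0
      positivity
    · rw [add_comm]
      exact Real.add_one_le_exp _
  refine h3.trans ?_
  rw [← Real.exp_sum, ← Finset.mul_sum]
  refine Real.exp_le_exp.mpr ?_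
  refine mul_le_mul_of_nonneg_left ?_ (by have := KS0; positivity)
  exact KsumZ.sum_le_tsum _ (fun n _ => by positivity)

private theorem Krk (K : ℝ) (l e : ℕ) (hl : 2 ≤ l) :
    rk K l e = K * ((e : ℝ) + 1) ^ 2 * (l : ℝ) ^ (-(2 * (e : ℝ) - ((3 * e / 4 : ℕ) : ℝ))) := by
  have hl0 : (0 : ℝ) < l := by
    have : 0 < l := by omega
    exact_mod_cast this
  have h1 : (l : ℝ) ^ (-(2 * (e : ℝ) - ((3 * e / 4 : ℕ) : ℝ))) =
      (l : ℝ) ^ (7 * e + 3 * e / 4) / (l : ℝ) ^ (9 * e) := by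
    rw [← Real.rpow_natCast (l : ℝ) (7 * e + 3 * e / 4), ← Real.rpow_natCast (l : ℝ) (9 * e),
      ← Real.rpow_sub hl0]
    congr 1
    push_cast
    ring
  rw [rk, h1, mul_div_assoc]

private theorem Kfl (e : ℕ) (he : 1 ≤ e) :
    51 / 50 + (e : ℝ) / 50 ≤
      (13 / 25) * (2 * (e : ℝ) - ((3 * e / 4 : ℕ) : ℝ)) - ((e / 3 : ℕ) : ℝ) := by
  have h : 51 + e + 26 * (3 * e / 4) + 50 * (e / 3) ≤ 52 * e := by
    rcases (show e = 1 ∨ e = 2 ∨ e = 3 ∨ 4 ≤ e by omega) with h | h | h | h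
    · subst h; norm_num
    · subst h; norm_num
    · subst h; norm_num
    · omega
  have h' : (51 : ℝ) + (e : ℝ) + 26 * ((3 * e / 4 : ℕ) : ℝ) + 50 * ((e / 3 : ℕ) : ℝ) ≤
      52 * (e : ℝ) := by
    exact_mod_cast h
  linarith

/-- `(K A)^0.52 ≤ K A'` for `K ≥ 1`, `A ≥ 0`, `A^0.52 ≤ A'` -/
private theorem Krp {K A : ℝ} (hK : 1 ≤ K) (hA : 0 ≤ A) :
    (K * A) ^ (13 / 25 : ℝ) ≤ K * A ^ (13 / 25 : ℝ) := by
  rw [Real.mul_rpow (by linarith) hA]
  refine mul_le_mul_of_nonneg_right ?_ (by positivity)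
  calc K ^ (13 / 25 : ℝ) ≤ K ^ (1 : ℝ) := Real.rpow_le_rpow_of_exponent_le hK (by norm_num)
    _ = K := Real.rpow_one K

private noncomputable def Kf1 (K : ℝ) (l e : ℕ) : ℝ :=
  if e = 1 ∧ 2 ≤ l then (K / (l : ℝ)) * (K / (l : ℝ)) ^ (13 / 25 : ℝ) else 0

private noncomputable def Kf2 (K : ℝ) (l e : ℕ) : ℝ :=
  if 2 ≤ l then (K * ((e : ℝ) + 1) ^ 2 * (l : ℝ) ^ (e / 3)) * (rk K l e) ^ (13 / 25 : ℝ) else 0

open Classical in
theorem srk (K : ℝ) (hK : 1 ≤ K) : ∃ C : ℝ, 1 ≤ C ∧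
    (∀ N : ℕ, ∑ n ∈ (Icc 1 N).filter Squarefree, r0 K n * (r0 K n) ^ (13 / 25 : ℝ) ≤ C) ∧
    (∀ N : ℕ, ∑ n ∈ Icc 1 N, w1 K n * (r1 K n) ^ (13 / 25 : ℝ) ≤ C) ∧
    (∀ N : ℕ, ∑ n ∈ Icc 1 N, (n : ℝ) ^ (5 / 4 : ℝ) * ((n : ℝ) ^ (-(99 / 20) : ℝ)) ^ (12 / 25 : ℝ) ≤ C) := by
  have hK0 : (0 : ℝ) < K := by linarith
  have hE : 0 < Real.exp (K ^ 2 * KS * KZ) := Real.exp_pos _
  have hr0 := Kr0
  have hZ : 0 ≤ KZ := tsum_nonneg fun n => by positivity
  refine ⟨Real.exp (K ^ 2 * KS * KZ) + KZ + 1, by linarith, ?_, ?_, ?_⟩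
  · intro N
    have hm := Kmain K (Kf1 K)
      (fun l e => by
        rw [Kf1]
        split_ifs
        · positivity
        · exact le_rfl)
      (fun l hl e he => by
        rw [Kf1]
        split_ifs with hc
        · have h1 := Kpow (l := l) (e := e) (x := 38 / 25) hc.2 (by rw [hc.1]; norm_num)
          have hl0 : (0 : ℝ) < (l : ℝ) := by exact_mod_cast hl.pos
          have hli : (0 : ℝ) ≤ (l : ℝ)⁻¹ := by positivity
          have h3 : (K / (l : ℝ)) * (K / (l : ℝ)) ^ (13 / 25 : ℝ) ≤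
              K ^ 2 * (l : ℝ) ^ (-(38 / 25) : ℝ) := by
            have h4 : (K / (l : ℝ)) ^ (13 / 25 : ℝ) ≤ K * ((l : ℝ)⁻¹) ^ (13 / 25 : ℝ) := by
              rw [div_eq_mul_inv]
              exact Krp hK hli
            have h5 : (l : ℝ) ^ (-(38 / 25) : ℝ) = (l : ℝ)⁻¹ * ((l : ℝ)⁻¹) ^ (13 / 25 : ℝ) := by
              rw [Real.inv_rpow hl0.le, ← Real.rpow_neg hl0.le, ← Real.rpow_neg_one (l : ℝ),
                ← Real.rpow_add hl0]
              norm_num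
            rw [h5, div_eq_mul_inv] at *
            have h6 : 0 ≤ K * (l : ℝ)⁻¹ := by positivity
            calc K * (l : ℝ)⁻¹ * (K * (l : ℝ)⁻¹) ^ (13 / 25 : ℝ)
                ≤ K * (l : ℝ)⁻¹ * (K * ((l : ℝ)⁻¹) ^ (13 / 25 : ℝ)) :=
                  mul_le_mul_of_nonneg_left h4 h6
              _ = K ^ 2 * ((l : ℝ)⁻¹ * ((l : ℝ)⁻¹) ^ (13 / 25 : ℝ)) := by ring
          refine h3.trans ?_
          rw [mul_assoc]
          refine mul_le_mul_of_nonneg_left (h1.trans ?_) (by positivity)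
          have h4 : (1 : ℝ) ≤ ((e : ℝ) + 1) ^ 4 := one_le_pow₀ (by
            have : (0 : ℝ) ≤ (e : ℝ) := Nat.cast_nonneg e
            linarith)
          have h5 : 0 ≤ Kr ^ e * (1 / (l : ℝ) ^ (51 / 50 : ℝ)) := by positivity
          nlinarith
        · positivity) N
    have h1 : ∑ n ∈ (Icc 1 N).filter Squarefree, r0 K n * (r0 K n) ^ (13 / 25 : ℝ) ≤
        ∑ n ∈ Icc 1 N, ∏ l ∈ n.primeFactors, Kf1 K l (n.factorization l) := by
      have e1 : ∑ n ∈ (Icc 1 N).filter Squarefree, r0 K n * (r0 K n) ^ (13 / 25 : ℝ) =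
          ∑ n ∈ (Icc 1 N).filter Squarefree, ∏ l ∈ n.primeFactors,
            Kf1 K l (n.factorization l) := by
        refine Finset.sum_congr rfl fun n hn => ?_
        rw [r0, ← Real.finsetProd_rpow _ _ (fun l _ => by positivity),
          ← Finset.prod_mul_distrib]
        refine Finset.prod_congr rfl fun l hl => ?_
        have hpl := Nat.prime_of_mem_primeFactors hl
        have hv : n.factorization l = 1 := by
          have hsq := (Finset.mem_filter.mp hn).2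
          have h2 := hsq.natFactorization_le_one l
          have h3 : 0 < n.factorization l :=
            hpl.factorization_pos_of_dvd hsq.ne_zero (Nat.dvd_of_mem_primeFactors hl)
          omega
        rw [Kf1, if_pos ⟨hv, hpl.two_le⟩]
      rw [e1]
      refine Finset.sum_le_sum_of_subset_of_nonneg (Finset.filter_subset _ _) fun n _ _ => ?_
      refine Finset.prod_nonneg fun l _ => ?_
      rw [Kf1]
      split_ifs
      · positivity
      · exact le_rfl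
    linarith [h1.trans hm]
  · intro N
    have hrk0 : ∀ l e : ℕ, 0 ≤ rk K l e := fun l e => by rw [rk]; positivity
    have hm := Kmain K (Kf2 K)
      (fun l e => by
        rw [Kf2]
        split_ifs
        · have := Real.rpow_nonneg (hrk0 l e) (13 / 25 : ℝ)
          positivity
        · exact le_rfl)
      (fun l hl e he => by
        rw [Kf2, if_pos hl.two_le, Krk K l e hl.two_le]
        have hl0 : (0 : ℝ) < (l : ℝ) := by exact_mod_cast hl.pos
        have h1 := Kpow (l := l) (e := e) hl.two_le (Kfl e he)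
        have he0 : (0 : ℝ) ≤ (e : ℝ) := Nat.cast_nonneg e
        have hA : 0 ≤ ((e : ℝ) + 1) ^ 2 * (l : ℝ) ^ (-(2 * (e : ℝ) - ((3 * e / 4 : ℕ) : ℝ))) := by
          positivity
        have h2 : (K * ((e : ℝ) + 1) ^ 2 *
            (l : ℝ) ^ (-(2 * (e : ℝ) - ((3 * e / 4 : ℕ) : ℝ)))) ^ (13 / 25 : ℝ) ≤
            K * (((e : ℝ) + 1) ^ 2 *
              (l : ℝ) ^ (-((13 / 25) * (2 * (e : ℝ) - ((3 * e / 4 : ℕ) : ℝ))))) := by
          rw [mul_assoc]
          refine (Krp hK hA).trans ?_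
          refine mul_le_mul_of_nonneg_left ?_ hK0.le
          rw [Real.mul_rpow (by positivity) (by positivity), ← Real.rpow_mul hl0.le]
          refine mul_le_mul ?_ ?_ (by positivity) (by positivity)
          · calc (((e : ℝ) + 1) ^ 2) ^ (13 / 25 : ℝ) ≤ (((e : ℝ) + 1) ^ 2) ^ (1 : ℝ) :=
                  Real.rpow_le_rpow_of_exponent_le (one_le_pow₀ (by linarith)) (by norm_num)
              _ = ((e : ℝ) + 1) ^ 2 := Real.rpow_one _
          · refine le_of_eq ?_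
            congr 1
            ring
        have h3 : (l : ℝ) ^ (-((13 / 25) * (2 * (e : ℝ) - ((3 * e / 4 : ℕ) : ℝ)) -
              ((e / 3 : ℕ) : ℝ))) =
              (l : ℝ) ^ (e / 3) *
                (l : ℝ) ^ (-((13 / 25) * (2 * (e : ℝ) - ((3 * e / 4 : ℕ) : ℝ)))) := by
            rw [← Real.rpow_natCast (l : ℝ) (e / 3), ← Real.rpow_add hl0]
            congr 1
            ring
        calc (K * ((e : ℝ) + 1) ^ 2 * (l : ℝ) ^ (e / 3)) *
            (K * ((e : ℝ) + 1) ^ 2 *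
              (l : ℝ) ^ (-(2 * (e : ℝ) - ((3 * e / 4 : ℕ) : ℝ)))) ^ (13 / 25 : ℝ)
            ≤ (K * ((e : ℝ) + 1) ^ 2 * (l : ℝ) ^ (e / 3)) *
              (K * (((e : ℝ) + 1) ^ 2 *
              (l : ℝ) ^ (-((13 / 25) * (2 * (e : ℝ) - ((3 * e / 4 : ℕ) : ℝ)))))) :=
              mul_le_mul_of_nonneg_left h2 (by positivity)
          _ = K ^ 2 * ((e : ℝ) + 1) ^ 4 * ((l : ℝ) ^ (-((13 / 25) *
                (2 * (e : ℝ) - ((3 * e / 4 : ℕ) : ℝ)) - ((e / 3 : ℕ) : ℝ)))) := by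
              rw [h3]; ring
          _ ≤ K ^ 2 * ((e : ℝ) + 1) ^ 4 * ((1 / (l : ℝ) ^ (51 / 50 : ℝ)) * Kr ^ e) :=
              mul_le_mul_of_nonneg_left h1 (by positivity)
          _ = _ := by ring) N
    have h1 : ∑ n ∈ Icc 1 N, w1 K n * (r1 K n) ^ (13 / 25 : ℝ) =
        ∑ n ∈ Icc 1 N, ∏ l ∈ n.primeFactors, Kf2 K l (n.factorization l) := by
      refine Finset.sum_congr rfl fun n hn => ?_
      rw [w1, r1, ← Real.finsetProd_rpow _ _ (fun l _ => hrk0 l _), ← Finset.prod_mul_distrib]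
      refine Finset.prod_congr rfl fun l hl => ?_
      rw [Kf2, if_pos (Nat.prime_of_mem_primeFactors hl).two_le]
    rw [h1]
    linarith
  · intro N
    have h1 : ∑ n ∈ Icc 1 N, (n : ℝ) ^ (5 / 4 : ℝ) * ((n : ℝ) ^ (-(99 / 20) : ℝ)) ^ (12 / 25 : ℝ) ≤
        ∑ n ∈ Icc 1 N, 1 / (n : ℝ) ^ (51 / 50 : ℝ) := by
      refine Finset.sum_le_sum fun n hn => ?_
      have hn1 : (1 : ℝ) ≤ (n : ℝ) := by exact_mod_cast (Finset.mem_Icc.mp hn).1
      have hn0 : (0 : ℝ) < (n : ℝ) := by linarith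
      rw [← Real.rpow_mul hn0.le, ← Real.rpow_add hn0, one_div, ← Real.rpow_neg hn0.le]
      exact Real.rpow_le_rpow_of_exponent_le hn1 (by norm_num)
    have h2 : ∑ n ∈ Icc 1 N, 1 / (n : ℝ) ^ (51 / 50 : ℝ) ≤ KZ :=
      KsumZ.sum_le_tsum _ (fun n _ => by positivity)
    linarith

end Pool.Agent.PP5K
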