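import Pool.Agent.PP5C.Defs
import Pool.Agent.PP5K.Ki

/-! # PP5 (K): the weights `k(x)` in the averages of section (c), definitions -/

namespace Pool.Agent.PP5K

open Finset Pool.Agent.PPS Pool.Agent.PP5C

open Classical in
/-- bound for the sums over a cell with the rank one condition modulo `n2` -/
def KP (δ δ1 C0 T0 : ℝ) : Prop := ∀ T : ℝ, T0 ≤ T →
    ∀ (A ρ R : ℝ) (τ Y : Fin 10 → ℝ) (j : Fin 10), Scl T δ δ1 ρ R τ → ∀ (n2 a : ℕ),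
    n2 ≠ 0 → Squarefree a → ((n2 * a : ℕ) : ℝ) ≤ T ^ δ1 → ∀ S : Finset (Fin 10 → ℤ),
    (∀ x ∈ S, Cel T A ρ R τ Y j x) →
    ∑ x ∈ S.filter (fun x => RK (n2 : ℤ) x ∧ Nat.Coprime a (D2 x)),
      ∏ l ∈ a.primeFactors, psx x l ≤
        C0 * (ρ ^ 9 / R) * ((n2 : ℝ) ^ (-(99 / 20) : ℝ) * ra C0 a)

/-- admissible indices on `S` -/
def KI (T ck : ℝ) (S : Finset (Fin 10 → ℤ)) (k : (Fin 10 → ℤ) → ℕ) : Prop :=
  ∀ x ∈ S, 1 ≤ k x ∧ (k x : ℝ) ≤ T ^ ck ∧ RK (k x : ℤ) x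

end Pool.Agent.PP5K
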