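import Pool.Agent.PP5C.TlX
import Pool.Agent.PP5C.PtX
import Pool.Agent.PP5K.Kx
import Pool.Agent.PP5K.Ksr

/-!
# Kmx: the main sum over `x` with the weight `k(x) ^ (5/4)` (difficulty 4)

As `PP5C.mnx`.  Split `S` by the value `n2 = k x ≤ T ^ ck` (`RK n2 x` holds).  For fixed `n2` use `ptx` and the definition of `Sg`; the inner sum
`I = ∑_{x ∈ S, k x = n2, n0 ∣ D2, An n1 x, Coprime a D2} ∏_{l ∣ a} psx x l` is at most the sum without the condition `k x = n2`,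
so (`hcl`, `n0 n1 a ≤ T ^ δ1`) `I ≤ P := C0 (ρ ^ 9 / R) r0 C0 n0 r1 C0 n1 ra C0 a`, and at most the sum with `RK n2 x` and without the
conditions on `n0, n1`, so (`hkp`) `I ≤ Q := C0 (ρ ^ 9 / R) n2 ^ (-4.95) ra C0 a`.  Hence
`I ≤ P ^ (13/25) Q ^ (12/25) = C0 (ρ ^ 9 / R) (r0 r1) ^ (13/25) (n2 ^ (-4.95)) ^ (12/25) ra C0 a` and the sums over `n2, n0, n1` are bounded by
`srk K`, `K = max C C0`, the sum over `i, a` by `srx K κ` (4), as in `mnx`.  The second term of `ptx`: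
`T ^ (-c6/4) ∑_x k(x) ^ (5/4) Sg ≤ T ^ (-c6/4 + 5/4 ck) ∑_x Sg`, `n0 = n1 = 1` as in `mnx`, and `ck ≤ c6 / 8`.
-/

set_option autoImplicit false

namespace Pool.Agent.PP5K

open Finset Pool.Agent.PPS Pool.Agent.PP5C

private theorem Kmx_r0_mono {C K : ℝ} (hC : 0 ≤ C) (h : C ≤ K) (n : ℕ) : r0 C n ≤ r0 K n := by
  unfold r0
  apply Finset.prod_le_prod
  · intro l _; positivity
  · intro l _; gcongr

private theorem Kmx_r0_nonneg {C : ℝ} (hC : 0 ≤ C) (n : ℕ) : 0 ≤ r0 C n := by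
  unfold r0
  apply Finset.prod_nonneg
  intro l _; positivity

private theorem Kmx_rk_nonneg {C : ℝ} (hC : 0 ≤ C) (l e : ℕ) : 0 ≤ rk C l e := by
  unfold rk
  positivity

private theorem Kmx_r1_nonneg {C : ℝ} (hC : 0 ≤ C) (n : ℕ) : 0 ≤ r1 C n := by
  unfold r1
  apply Finset.prod_nonneg
  intro l _
  exact Kmx_rk_nonneg hC _ _

private theorem Kmx_r1_mono {C K : ℝ} (hC : 0 ≤ C) (h : C ≤ K) (n : ℕ) : r1 C n ≤ r1 K n := by
  unfold r1
  apply Finset.prod_le_prod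
  · intro l _; exact Kmx_rk_nonneg hC _ _
  · intro l _
    unfold rk
    gcongr

private theorem Kmx_ra_nonneg {C : ℝ} (hC : 0 ≤ C) (n : ℕ) : 0 ≤ ra C n := by
  unfold ra
  apply Finset.prod_nonneg
  intro l _; positivity

private theorem Kmx_ra_mono {C K : ℝ} (hC : 0 ≤ C) (h : C ≤ K) (n : ℕ) : ra C n ≤ ra K n := by
  unfold ra
  apply Finset.prod_le_prod
  · intro l _; positivity
  · intro l _; gcongr

private theorem Kmx_w1_nonneg {C : ℝ} (hC : 0 ≤ C) (n : ℕ) : 0 ≤ w1 C n := by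
  unfold w1
  apply Finset.prod_nonneg
  intro l _; positivity

private theorem Kmx_w1_mono {C K : ℝ} (hC : 0 ≤ C) (h : C ≤ K) (n : ℕ) : w1 C n ≤ w1 K n := by
  unfold w1
  apply Finset.prod_le_prod
  · intro l _; positivity
  · intro l _; gcongr

private theorem Kmx_psx_nonneg (x : Fin 10 → ℤ) (l : ℕ) : 0 ≤ psx x l := by
  unfold psx
  split_ifs <;> norm_num

private theorem Kmx_AA {z : ℝ} (hz : 0 ≤ z) {i a : ℕ} (ha : a ∈ AA z i) :
    1 ≤ a ∧ (a : ℝ) ≤ z ∧ Squarefree a := by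
  cases i with
  | zero =>
    unfold AA at ha
    rw [Finset.mem_filter, Finset.mem_Icc] at ha
    exact ⟨ha.1.1, (Nat.le_floor_iff hz).1 ha.1.2, ha.2⟩
  | succ i =>
    unfold AA at ha
    rw [Finset.mem_filter, Finset.mem_Icc] at ha
    exact ⟨ha.1.1, (Nat.le_floor_iff hz).1 ha.1.2, ha.2.1⟩

private theorem Kmx_logww {z : ℝ} (hz : 2 ≤ z) (i : ℕ) : 0 < Real.log (ww z i) := by
  unfold ww
  rw [Real.log_exp]
  have : 0 < Real.log z := Real.log_pos (by linarith)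
  positivity

private theorem Kmx_Sg_nonneg {z κ : ℝ} (hz : 2 ≤ z) (x : Fin 10 → ℤ) (D : ℕ) :
    0 ≤ Sg z κ (psx x) D := by
  unfold Sg
  apply Finset.sum_nonneg
  intro i _
  have h1 := Kmx_logww hz i
  apply mul_nonneg
  · positivity
  · apply Finset.sum_nonneg
    intro a _
    apply mul_nonneg
    · positivity
    · exact Finset.prod_nonneg fun l _ => Kmx_psx_nonneg x l

open Classical in
/-- the sum of `Sg` from bounds for the inner sums -/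
private theorem Kmx_sum {z κ K B Cs : ℝ} (hz : 2 ≤ z) (hB : 0 ≤ B)
    (hs4 : ∀ N : ℕ, ∑ i ∈ range N, ((2 : ℝ) ^ (κ * 2 ^ i) / Real.log (ww z i)) *
      ∑ a ∈ AA z i, gg a ^ 2 * ra K a / (a : ℝ) ≤ Cs) (S : Finset (Fin 10 → ℤ))
    (hin : ∀ i : ℕ, ∀ a ∈ AA z i, ∑ x ∈ S.filter (fun x => Nat.Coprime a (D2 x)),
      ∏ l ∈ a.primeFactors, psx x l ≤ B * ra K a) :
    ∑ x ∈ S, Sg z κ (psx x) (D2 x) ≤ B * Cs := by
  have hz0 : 0 ≤ z := by linarith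
  have hex : ∑ x ∈ S, Sg z κ (psx x) (D2 x) =
      ∑ i ∈ range (NL z), ((2 : ℝ) ^ (κ * 2 ^ i) / Real.log (ww z i)) *
        ∑ a ∈ AA z i, (gg a ^ 2 / (a : ℝ)) *
          ∑ x ∈ S.filter (fun x => Nat.Coprime a (D2 x)),
            ∏ l ∈ a.primeFactors, psx x l := by
    unfold Sg
    rw [Finset.sum_comm]
    apply Finset.sum_congr rfl
    intro i _
    rw [← Finset.mul_sum]
    congr 1
    simp_rw [Finset.sum_filter]
    rw [Finset.sum_comm]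
    apply Finset.sum_congr rfl
    intro a _
    rw [Finset.mul_sum]
    apply Finset.sum_congr rfl
    intro x _
    by_cases h3 : Nat.Coprime a (D2 x) <;> simp [h3]
  rw [hex]
  calc ∑ i ∈ range (NL z), ((2 : ℝ) ^ (κ * 2 ^ i) / Real.log (ww z i)) *
        ∑ a ∈ AA z i, (gg a ^ 2 / (a : ℝ)) *
          ∑ x ∈ S.filter (fun x => Nat.Coprime a (D2 x)),
            ∏ l ∈ a.primeFactors, psx x l
      ≤ ∑ i ∈ range (NL z), ((2 : ℝ) ^ (κ * 2 ^ i) / Real.log (ww z i)) *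
        ∑ a ∈ AA z i, B * (gg a ^ 2 * ra K a / (a : ℝ)) := by
        apply Finset.sum_le_sum
        intro i hi
        have := Kmx_logww hz i
        apply mul_le_mul_of_nonneg_left _ (by positivity)
        apply Finset.sum_le_sum
        intro a ha
        obtain ⟨ha1, -, -⟩ := Kmx_AA hz0 ha
        have ha0 : (0 : ℝ) < a := by exact_mod_cast ha1
        calc (gg a ^ 2 / (a : ℝ)) *
              ∑ x ∈ S.filter (fun x => Nat.Coprime a (D2 x)), ∏ l ∈ a.primeFactors, psx x l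
            ≤ (gg a ^ 2 / (a : ℝ)) * (B * ra K a) :=
              mul_le_mul_of_nonneg_left (hin i a ha) (by positivity)
          _ = B * (gg a ^ 2 * ra K a / (a : ℝ)) := by ring
    _ = B * ∑ i ∈ range (NL z), ((2 : ℝ) ^ (κ * 2 ^ i) / Real.log (ww z i)) *
            ∑ a ∈ AA z i, gg a ^ 2 * ra K a / (a : ℝ) := by
        rw [Finset.mul_sum]
        apply Finset.sum_congr rfl
        intro i _
        rw [← Finset.mul_sum]
        ring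
    _ ≤ B * Cs := mul_le_mul_of_nonneg_left (hs4 _) hB

/-- the interpolation -/
private theorem Kmx_interp {I E a b c : ℝ} (hI : 0 ≤ I) (hE : 0 ≤ E) (ha : 0 ≤ a) (hb : 0 ≤ b)
    (hc : 0 ≤ c) (h1 : I ≤ E * (a * c)) (h2 : I ≤ E * (b * c)) :
    I ≤ E * (a ^ (13 / 25 : ℝ) * b ^ (12 / 25 : ℝ)) * c := by
  have e1 : I = I ^ (13 / 25 : ℝ) * I ^ (12 / 25 : ℝ) := by
    rw [← Real.rpow_add_of_nonneg hI (by norm_num) (by norm_num)]
    norm_num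
  have e2 : I ^ (13 / 25 : ℝ) ≤ (E * (a * c)) ^ (13 / 25 : ℝ) :=
    Real.rpow_le_rpow hI h1 (by norm_num)
  have e3 : I ^ (12 / 25 : ℝ) ≤ (E * (b * c)) ^ (12 / 25 : ℝ) :=
    Real.rpow_le_rpow hI h2 (by norm_num)
  have e4 : (E * (a * c)) ^ (13 / 25 : ℝ) * (E * (b * c)) ^ (12 / 25 : ℝ) =
      E * (a ^ (13 / 25 : ℝ) * b ^ (12 / 25 : ℝ)) * c := by
    rw [Real.mul_rpow hE (by positivity), Real.mul_rpow ha hc, Real.mul_rpow hE (by positivity),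
      Real.mul_rpow hb hc]
    have f1 : E ^ (13 / 25 : ℝ) * E ^ (12 / 25 : ℝ) = E := by
      rw [← Real.rpow_add_of_nonneg hE (by norm_num) (by norm_num)]
      norm_num
    have f2 : c ^ (13 / 25 : ℝ) * c ^ (12 / 25 : ℝ) = c := by
      rw [← Real.rpow_add_of_nonneg hc (by norm_num) (by norm_num)]
      norm_num
    calc E ^ (13 / 25 : ℝ) * (a ^ (13 / 25 : ℝ) * c ^ (13 / 25 : ℝ)) *
          (E ^ (12 / 25 : ℝ) * (b ^ (12 / 25 : ℝ) * c ^ (12 / 25 : ℝ)))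
        = (E ^ (13 / 25 : ℝ) * E ^ (12 / 25 : ℝ)) * (a ^ (13 / 25 : ℝ) * b ^ (12 / 25 : ℝ)) *
          (c ^ (13 / 25 : ℝ) * c ^ (12 / 25 : ℝ)) := by ring
      _ = E * (a ^ (13 / 25 : ℝ) * b ^ (12 / 25 : ℝ)) * c := by rw [f1, f2]
  calc I = I ^ (13 / 25 : ℝ) * I ^ (12 / 25 : ℝ) := e1
    _ ≤ (E * (a * c)) ^ (13 / 25 : ℝ) * (E * (b * c)) ^ (12 / 25 : ℝ) :=
        mul_le_mul e2 e3 (by positivity) (by positivity)
    _ = _ := e4

open Classical in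
theorem Kmx_aux {δ δ1 C0 T1 : ℝ} (hC0 : 1 ≤ C0) (hcl : ClP δ δ1 C0 T1)
    (hkp : KP δ δ1 C0 T1)
    (A c2 c5 c6 C1 κ ck : ℝ) (hA : 0 < A) (hc2 : 0 < c2) (hc5 : 0 < c5) (h56 : c5 ≤ c6 / 8)
    (hck : 0 < ck) (hck6 : ck ≤ c6 / 8)
    (h25 : c2 + c5 + c6 + ck ≤ δ1) (hC1 : 1 ≤ C1) (hκ : 0 ≤ κ) :
    ∃ C T0 : ℝ, 0 < C ∧ 2 ≤ T0 ∧ T1 ≤ T0 ∧ ∀ T : ℝ, T0 ≤ T → 2 ≤ T ^ c2 →
    ∀ (ρ R : ℝ) (τ Y : Fin 10 → ℝ) (j : Fin 10), Scl T δ δ1 ρ R τ → ∀ S : Finset (Fin 10 → ℤ),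
    (∀ x ∈ S, Cel T A ρ R τ Y j x ∧ (VV (T ^ c2) (D2 x) (vx x) : ℝ) ≤ T ^ c5) →
    ∀ k : (Fin 10 → ℤ) → ℕ, KI T ck S k →
    ∑ x ∈ S, (k x : ℝ) ^ (5 / 4 : ℝ) *
      (gg (D2 x) * HH C1 (T ^ c2) (D2 x) (vx x) * Sg (T ^ c2) κ (psx x) (D2 x)) ≤
      C * (ρ ^ 9 / R) := by
  obtain ⟨Cp, Tp, hCp, hTp, hp⟩ := ptx A c2 c5 c6 C1 hA hc2 hc5 h56 hC1
  set K : ℝ := max Cp C0 with hKdef
  have hKp : Cp ≤ K := le_max_left _ _
  have hK0 : C0 ≤ K := le_max_right _ _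
  have hK1 : 1 ≤ K := le_trans hCp hKp
  obtain ⟨Cs, hCs, -, -, -, hs4⟩ := srx K κ hK1 hκ
  obtain ⟨Ck, hCk, hk1, hk2, hk3⟩ := srk K hK1
  have hc6 : 0 < c6 := by linarith
  refine ⟨Cp * (C0 * Cs * Ck ^ 3) + C0 * Cs, max Tp T1, by positivity,
    le_trans hTp (le_max_left _ _), le_max_right _ _, ?_⟩
  intro T hT hz ρ R τ Y j hscl S hS k hki
  have hTp' : Tp ≤ T := le_trans (le_max_left _ _) hT
  have hT1' : T1 ≤ T := le_trans (le_max_right _ _) hT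
  have hT2 : 2 ≤ T := le_trans hTp hTp'
  have hT1'' : 1 ≤ T := by linarith
  have hT0 : 0 < T := by linarith
  have hρ : 0 < ρ := lt_of_lt_of_le (Real.rpow_pos_of_pos hT0 _) hscl.r1
  have hR : 0 < R := lt_of_lt_of_le hρ hscl.r2
  have hρR : 0 ≤ ρ ^ 9 / R := by positivity
  have hC00 : 0 ≤ C0 := by linarith
  have hCp0 : 0 ≤ Cp := by linarith
  have hK00 : 0 ≤ K := by linarith
  have hCs0 : 0 ≤ Cs := by linarith
  have hCk0 : 0 ≤ Ck := by linarith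
  set E : ℝ := C0 * (ρ ^ 9 / R) with hE
  have hE0 : 0 ≤ E := by positivity
  have hz0 : 0 ≤ T ^ c2 := by linarith
  have hCel : ∀ x ∈ S, Cel T A ρ R τ Y j x := fun x hx => (hS x hx).1
  have hs4' : ∀ N : ℕ, ∑ i ∈ range N, ((2 : ℝ) ^ (κ * 2 ^ i) / Real.log (ww (T ^ c2) i)) *
      ∑ a ∈ AA (T ^ c2) i, gg a ^ 2 * ra K a / (a : ℝ) ≤ Cs := fun N => hs4 (T ^ c2) N hz
  set N1 : ℕ := ⌊T ^ c5⌋₊ with hN1
  set N0 : ℕ := ⌊T ^ c6⌋₊ with hN0
  set N2 : ℕ := ⌊T ^ ck⌋₊ with hN2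
  -- the sums for fixed `n0, n1, n2`
  have hinn : ∀ n0 n1 : ℕ, Squarefree n0 → n1 ≠ 0 → Nat.Coprime n0 n1 → (n0 : ℝ) ≤ T ^ c6 →
      (n1 : ℝ) ≤ T ^ c5 → ∀ S' : Finset (Fin 10 → ℤ), S' ⊆ S → ∀ i : ℕ, ∀ a ∈ AA (T ^ c2) i,
      ∑ x ∈ (S'.filter (fun x => n0 ∣ D2 x ∧ An n1 x)).filter (fun x => Nat.Coprime a (D2 x)),
        ∏ l ∈ a.primeFactors, psx x l ≤ E * ((r0 K n0 * r1 K n1) * ra K a) := by
    intro n0 n1 hn0 hn1 hco hn0T hn1T S' hS' i a ha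
    obtain ⟨ha1, haz, hasq⟩ := Kmx_AA hz0 ha
    have hle : ((n0 * n1 * a : ℕ) : ℝ) ≤ T ^ δ1 := by
      push_cast
      have hprod : T ^ c6 * T ^ c5 * T ^ c2 ≤ T ^ δ1 := by
        rw [← Real.rpow_add hT0, ← Real.rpow_add hT0]
        exact Real.rpow_le_rpow_of_exponent_le hT1'' (by linarith)
      refine le_trans ?_ hprod
      gcongr
    have h := hcl T hT1' A ρ R τ Y j hscl n0 n1 a hn0 hn1 hasq hco hle S'
      (fun x hx => hCel x (hS' hx))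
    rw [Finset.filter_filter]
    have heq : S'.filter (fun x => (n0 ∣ D2 x ∧ An n1 x) ∧ Nat.Coprime a (D2 x)) =
        S'.filter (fun x => n0 ∣ D2 x ∧ An n1 x ∧ Nat.Coprime a (D2 x)) :=
      Finset.filter_congr fun x _ => and_assoc
    rw [heq]
    refine le_trans (le_of_eq ?_) (le_trans h ?_)
    · congr 1
    · rw [← hE]
      apply mul_le_mul_of_nonneg_left _ hE0
      have e0 := Kmx_r0_mono hC00 hK0 n0
      have e1 := Kmx_r1_mono hC00 hK0 n1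
      have e2 := Kmx_ra_mono hC00 hK0 a
      have f0 := Kmx_r0_nonneg hC00 n0
      have f1 := Kmx_r1_nonneg hC00 n1
      have f2 := Kmx_ra_nonneg hC00 a
      have g0 := Kmx_r0_nonneg hK00 n0
      have g1 := Kmx_r1_nonneg hK00 n1
      apply mul_le_mul _ e2 f2 (by positivity)
      exact mul_le_mul e0 e1 f1 g0
  have hkey : ∀ n2 n0 n1 : ℕ, 1 ≤ n2 → (n2 : ℝ) ≤ T ^ ck → Squarefree n0 → n1 ≠ 0 →
      Nat.Coprime n0 n1 → (n0 : ℝ) ≤ T ^ c6 → (n1 : ℝ) ≤ T ^ c5 →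
      ∑ x ∈ (S.filter (fun x => k x = n2)).filter (fun x => n0 ∣ D2 x ∧ An n1 x),
        Sg (T ^ c2) κ (psx x) (D2 x) ≤
      E * ((r0 K n0 * r1 K n1) ^ (13 / 25 : ℝ) * ((n2 : ℝ) ^ (-(99 / 20) : ℝ)) ^ (12 / 25 : ℝ)) *
        Cs := by
    intro n2 n0 n1 hn2 hn2T hn0 hn1 hco hn0T hn1T
    have g0 := Kmx_r0_nonneg hK00 n0
    have g1 := Kmx_r1_nonneg hK00 n1
    apply Kmx_sum hz (by positivity) hs4'
    intro i a ha
    have h1 := hinn n0 n1 hn0 hn1 hco hn0T hn1T (S.filter (fun x => k x = n2))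
      (Finset.filter_subset _ _) i a ha
    obtain ⟨ha1, haz, hasq⟩ := Kmx_AA hz0 ha
    have hle : ((n2 * a : ℕ) : ℝ) ≤ T ^ δ1 := by
      push_cast
      have hprod : T ^ ck * T ^ c2 ≤ T ^ δ1 := by
        rw [← Real.rpow_add hT0]
        exact Real.rpow_le_rpow_of_exponent_le hT1'' (by linarith)
      refine le_trans ?_ hprod
      gcongr
    have h2 := hkp T hT1' A ρ R τ Y j hscl n2 a (by omega) hasq hle S hCel
    have h3 : ∑ x ∈ ((S.filter (fun x => k x = n2)).filter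
          (fun x => n0 ∣ D2 x ∧ An n1 x)).filter (fun x => Nat.Coprime a (D2 x)),
        ∏ l ∈ a.primeFactors, psx x l ≤ E * ((n2 : ℝ) ^ (-(99 / 20) : ℝ) * ra K a) := by
      refine le_trans (Finset.sum_le_sum_of_subset_of_nonneg ?_ ?_) (le_trans h2 ?_)
      · intro x hx
        simp only [Finset.mem_filter] at hx ⊢
        obtain ⟨⟨⟨hxS, hkx⟩, -⟩, hcop⟩ := hx
        refine ⟨hxS, ?_, hcop⟩
        have := (hki x hxS).2.2
        rwa [hkx] at this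
      · intro x _ _
        exact Finset.prod_nonneg fun l _ => Kmx_psx_nonneg x l
      · rw [← hE]
        apply mul_le_mul_of_nonneg_left _ hE0
        exact mul_le_mul_of_nonneg_left (Kmx_ra_mono hC00 hK0 a) (by positivity)
    exact Kmx_interp (Finset.sum_nonneg fun x _ => Finset.prod_nonneg fun l _ =>
      Kmx_psx_nonneg x l) hE0 (by positivity) (by positivity) (Kmx_ra_nonneg hK00 a) h1 h3
  -- pointwise
  have hpt : ∀ x ∈ S, (k x : ℝ) ^ (5 / 4 : ℝ) *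
      (gg (D2 x) * HH C1 (T ^ c2) (D2 x) (vx x) * Sg (T ^ c2) κ (psx x) (D2 x)) ≤
      Cp * ((k x : ℝ) ^ (5 / 4 : ℝ) * ((∑ n1 ∈ (Icc 1 N1).filter (fun n => An n x),
        ∑ n0 ∈ (Icc 1 N0).filter (fun n => Squarefree n ∧ n ∣ D2 x ∧ Nat.Coprime n n1),
          r0 Cp n0 * w1 Cp n1) * Sg (T ^ c2) κ (psx x) (D2 x))) +
      Sg (T ^ c2) κ (psx x) (D2 x) := by
    intro x hx
    have hsg := Kmx_Sg_nonneg (κ := κ) hz x (D2 x)
    have h1 := hp T hTp' x (hS x hx).1.dne (hS x hx).1.dle (hS x hx).2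
    have hkk : 0 ≤ (k x : ℝ) ^ (5 / 4 : ℝ) := by positivity
    have h2 : (k x : ℝ) ^ (5 / 4 : ℝ) * T ^ (-(c6 / 4)) ≤ 1 := by
      have a1 : (k x : ℝ) ^ (5 / 4 : ℝ) ≤ (T ^ ck) ^ (5 / 4 : ℝ) :=
        Real.rpow_le_rpow (by positivity) (hki x hx).2.1 (by norm_num)
      have a2 : (T ^ ck) ^ (5 / 4 : ℝ) = T ^ (ck * (5 / 4)) := by
        rw [← Real.rpow_mul hT0.le]
      calc (k x : ℝ) ^ (5 / 4 : ℝ) * T ^ (-(c6 / 4)) ≤ T ^ (ck * (5 / 4)) * T ^ (-(c6 / 4)) := by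
            rw [← a2]
            exact mul_le_mul_of_nonneg_right a1 (by positivity)
        _ = T ^ (ck * (5 / 4) + -(c6 / 4)) := by rw [← Real.rpow_add hT0]
        _ ≤ 1 := Real.rpow_le_one_of_one_le_of_nonpos hT1'' (by linarith)
    calc (k x : ℝ) ^ (5 / 4 : ℝ) *
        (gg (D2 x) * HH C1 (T ^ c2) (D2 x) (vx x) * Sg (T ^ c2) κ (psx x) (D2 x))
        ≤ (k x : ℝ) ^ (5 / 4 : ℝ) * ((Cp * (∑ n1 ∈ (Icc 1 N1).filter (fun n => An n x),
        ∑ n0 ∈ (Icc 1 N0).filter (fun n => Squarefree n ∧ n ∣ D2 x ∧ Nat.Coprime n n1),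
          r0 Cp n0 * w1 Cp n1) + T ^ (-(c6 / 4))) * Sg (T ^ c2) κ (psx x) (D2 x)) := by
          apply mul_le_mul_of_nonneg_left _ hkk
          exact mul_le_mul_of_nonneg_right h1 hsg
      _ = Cp * ((k x : ℝ) ^ (5 / 4 : ℝ) * ((∑ n1 ∈ (Icc 1 N1).filter (fun n => An n x),
        ∑ n0 ∈ (Icc 1 N0).filter (fun n => Squarefree n ∧ n ∣ D2 x ∧ Nat.Coprime n n1),
          r0 Cp n0 * w1 Cp n1) * Sg (T ^ c2) κ (psx x) (D2 x))) +
          ((k x : ℝ) ^ (5 / 4 : ℝ) * T ^ (-(c6 / 4))) * Sg (T ^ c2) κ (psx x) (D2 x) := by ring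
      _ ≤ _ := by
          have := mul_le_mul_of_nonneg_right h2 hsg
          linarith
  refine le_trans (Finset.sum_le_sum hpt) ?_
  rw [Finset.sum_add_distrib, ← Finset.mul_sum]
  -- the second sum
  have hA2 : ∑ x ∈ S, Sg (T ^ c2) κ (psx x) (D2 x) ≤ E * Cs := by
    apply Kmx_sum hz hE0 hs4'
    intro i a ha
    have h := hinn 1 1 squarefree_one one_ne_zero (by norm_num)
      (by simpa using Real.one_le_rpow hT1'' hc6.le) (by simpa using Real.one_le_rpow hT1'' hc5.le)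
      S (Finset.Subset.refl _) i a ha
    have h3 : S.filter (fun x => 1 ∣ D2 x ∧ An 1 x) = S := by
      apply Finset.filter_true_of_mem
      intro x _
      exact ⟨one_dvd _, fun i j => by simp⟩
    rw [h3] at h
    have h4 : r0 K 1 = 1 := by simp [r0]
    have h5 : r1 K 1 = 1 := by simp [r1]
    rw [h4, h5] at h
    simpa using h
  -- the first sum
  have hfib : ∑ x ∈ S, (k x : ℝ) ^ (5 / 4 : ℝ) *
        ((∑ n1 ∈ (Icc 1 N1).filter (fun n => An n x),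
          ∑ n0 ∈ (Icc 1 N0).filter (fun n => Squarefree n ∧ n ∣ D2 x ∧ Nat.Coprime n n1),
            r0 Cp n0 * w1 Cp n1) * Sg (T ^ c2) κ (psx x) (D2 x)) =
      ∑ n2 ∈ Icc 1 N2, (n2 : ℝ) ^ (5 / 4 : ℝ) * ∑ x ∈ S.filter (fun x => k x = n2),
        ((∑ n1 ∈ (Icc 1 N1).filter (fun n => An n x),
          ∑ n0 ∈ (Icc 1 N0).filter (fun n => Squarefree n ∧ n ∣ D2 x ∧ Nat.Coprime n n1),
            r0 Cp n0 * w1 Cp n1) * Sg (T ^ c2) κ (psx x) (D2 x)) := by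
    have hmap : ∀ x ∈ S, k x ∈ Icc 1 N2 := by
      intro x hx
      obtain ⟨h1, h2, -⟩ := hki x hx
      rw [Finset.mem_Icc]
      exact ⟨h1, Nat.le_floor h2⟩
    rw [← Finset.sum_fiberwise_of_maps_to hmap]
    apply Finset.sum_congr rfl
    intro n2 _
    rw [Finset.mul_sum]
    apply Finset.sum_congr rfl
    intro x hx
    rw [(Finset.mem_filter.1 hx).2]
  have hsplit : ∀ S' : Finset (Fin 10 → ℤ), ∑ x ∈ S', ((∑ n1 ∈ (Icc 1 N1).filter (fun n => An n x),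
          ∑ n0 ∈ (Icc 1 N0).filter (fun n => Squarefree n ∧ n ∣ D2 x ∧ Nat.Coprime n n1),
            r0 Cp n0 * w1 Cp n1) * Sg (T ^ c2) κ (psx x) (D2 x)) =
      ∑ n1 ∈ Icc 1 N1, w1 Cp n1 * ∑ n0 ∈ (Icc 1 N0).filter Squarefree,
        (if Nat.Coprime n0 n1 then r0 Cp n0 *
          ∑ x ∈ S'.filter (fun x => n0 ∣ D2 x ∧ An n1 x), Sg (T ^ c2) κ (psx x) (D2 x) else 0) := by
    intro S'
    simp_rw [Finset.sum_mul]
    simp_rw [Finset.sum_filter]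
    rw [Finset.sum_comm]
    apply Finset.sum_congr rfl
    intro n1 _
    rw [Finset.mul_sum]
    have : ∀ x : Fin 10 → ℤ, (if An n1 x then ∑ n0 ∈ Icc 1 N0,
        (if Squarefree n0 ∧ n0 ∣ D2 x ∧ Nat.Coprime n0 n1 then r0 Cp n0 * w1 Cp n1 *
          Sg (T ^ c2) κ (psx x) (D2 x) else 0) else 0) = ∑ n0 ∈ Icc 1 N0,
        (if An n1 x then (if Squarefree n0 ∧ n0 ∣ D2 x ∧ Nat.Coprime n0 n1 then
          r0 Cp n0 * w1 Cp n1 * Sg (T ^ c2) κ (psx x) (D2 x) else 0) else 0) := by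
      intro x
      split_ifs
      · rfl
      · simp
    simp_rw [this]
    rw [Finset.sum_comm]
    apply Finset.sum_congr rfl
    intro n0 _
    by_cases h1 : Squarefree n0
    · by_cases h2 : Nat.Coprime n0 n1
      · rw [if_pos h1, if_pos h2, Finset.mul_sum, Finset.mul_sum]
        apply Finset.sum_congr rfl
        intro x _
        by_cases h3 : An n1 x <;> by_cases h4 : n0 ∣ D2 x <;> simp [h1, h3, h4]
        rw [if_pos h2]
        ring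
      · simp [h2]
    · simp [h1]
  have hA1 : ∑ n2 ∈ Icc 1 N2, (n2 : ℝ) ^ (5 / 4 : ℝ) * ∑ x ∈ S.filter (fun x => k x = n2),
        ((∑ n1 ∈ (Icc 1 N1).filter (fun n => An n x),
          ∑ n0 ∈ (Icc 1 N0).filter (fun n => Squarefree n ∧ n ∣ D2 x ∧ Nat.Coprime n n1),
            r0 Cp n0 * w1 Cp n1) * Sg (T ^ c2) κ (psx x) (D2 x)) ≤ E * Cs * Ck ^ 3 := by
    calc ∑ n2 ∈ Icc 1 N2, (n2 : ℝ) ^ (5 / 4 : ℝ) * ∑ x ∈ S.filter (fun x => k x = n2),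
        ((∑ n1 ∈ (Icc 1 N1).filter (fun n => An n x),
          ∑ n0 ∈ (Icc 1 N0).filter (fun n => Squarefree n ∧ n ∣ D2 x ∧ Nat.Coprime n n1),
            r0 Cp n0 * w1 Cp n1) * Sg (T ^ c2) κ (psx x) (D2 x))
        ≤ ∑ n2 ∈ Icc 1 N2, (n2 : ℝ) ^ (5 / 4 : ℝ) *
          ∑ n1 ∈ Icc 1 N1, w1 K n1 * ∑ n0 ∈ (Icc 1 N0).filter Squarefree,
            r0 K n0 * (E * ((r0 K n0 * r1 K n1) ^ (13 / 25 : ℝ) *
              ((n2 : ℝ) ^ (-(99 / 20) : ℝ)) ^ (12 / 25 : ℝ)) * Cs) := by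
          apply Finset.sum_le_sum
          intro n2 hn2
          rw [Finset.mem_Icc] at hn2
          have hn2T : (n2 : ℝ) ≤ T ^ ck := (Nat.le_floor_iff (by positivity)).1 hn2.2
          apply mul_le_mul_of_nonneg_left _ (by positivity)
          rw [hsplit]
          apply Finset.sum_le_sum
          intro n1 hn1
          rw [Finset.mem_Icc] at hn1
          have hn1T : (n1 : ℝ) ≤ T ^ c5 := (Nat.le_floor_iff (by positivity)).1 hn1.2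
          apply mul_le_mul (Kmx_w1_mono hCp0 hKp n1) _ _ (Kmx_w1_nonneg hK00 n1)
          · apply Finset.sum_le_sum
            intro n0 hn0
            rw [Finset.mem_filter, Finset.mem_Icc] at hn0
            have hn0T : (n0 : ℝ) ≤ T ^ c6 := (Nat.le_floor_iff (by positivity)).1 hn0.1.2
            have g0 := Kmx_r0_nonneg hK00 n0
            have g1 := Kmx_r1_nonneg hK00 n1
            split_ifs with hco
            · apply mul_le_mul (Kmx_r0_mono hCp0 hKp n0) _ _ g0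
              · exact hkey n2 n0 n1 hn2.1 hn2T hn0.2 (by omega) hco hn0T hn1T
              · exact Finset.sum_nonneg fun x _ => Kmx_Sg_nonneg hz x _
            · positivity
          · apply Finset.sum_nonneg
            intro n0 _
            split_ifs
            · exact mul_nonneg (Kmx_r0_nonneg hCp0 n0)
                (Finset.sum_nonneg fun x _ => Kmx_Sg_nonneg hz x _)
            · exact le_refl _
      _ = E * Cs * ((∑ n2 ∈ Icc 1 N2, (n2 : ℝ) ^ (5 / 4 : ℝ) *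
            ((n2 : ℝ) ^ (-(99 / 20) : ℝ)) ^ (12 / 25 : ℝ)) *
            ((∑ n1 ∈ Icc 1 N1, w1 K n1 * (r1 K n1) ^ (13 / 25 : ℝ)) *
            (∑ n0 ∈ (Icc 1 N0).filter Squarefree, r0 K n0 * (r0 K n0) ^ (13 / 25 : ℝ)))) := by
          rw [Finset.sum_mul, Finset.mul_sum]
          apply Finset.sum_congr rfl
          intro n2 _
          rw [Finset.sum_mul, Finset.mul_sum, Finset.mul_sum, Finset.mul_sum]
          apply Finset.sum_congr rfl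
          intro n1 _
          rw [Finset.mul_sum, Finset.mul_sum, Finset.mul_sum, Finset.mul_sum, Finset.mul_sum]
          apply Finset.sum_congr rfl
          intro n0 _
          rw [Real.mul_rpow (Kmx_r0_nonneg hK00 n0) (Kmx_r1_nonneg hK00 n1)]
          ring
      _ ≤ E * Cs * (Ck * (Ck * Ck)) := by
          apply mul_le_mul_of_nonneg_left _ (by positivity)
          have b0 : 0 ≤ ∑ n0 ∈ (Icc 1 N0).filter Squarefree,
              r0 K n0 * (r0 K n0) ^ (13 / 25 : ℝ) := Finset.sum_nonneg fun n0 _ =>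
            mul_nonneg (Kmx_r0_nonneg hK00 n0) (Real.rpow_nonneg (Kmx_r0_nonneg hK00 n0) _)
          have b1 : 0 ≤ ∑ n1 ∈ Icc 1 N1, w1 K n1 * (r1 K n1) ^ (13 / 25 : ℝ) :=
            Finset.sum_nonneg fun n1 _ =>
              mul_nonneg (Kmx_w1_nonneg hK00 n1) (Real.rpow_nonneg (Kmx_r1_nonneg hK00 n1) _)
          exact mul_le_mul (hk3 N2) (mul_le_mul (hk2 N1) (hk1 N0) b0 hCk0)
            (mul_nonneg b1 b0) hCk0
      _ = E * Cs * Ck ^ 3 := by ring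
  rw [hfib]
  calc Cp * (∑ n2 ∈ Icc 1 N2, (n2 : ℝ) ^ (5 / 4 : ℝ) * ∑ x ∈ S.filter (fun x => k x = n2),
        ((∑ n1 ∈ (Icc 1 N1).filter (fun n => An n x),
          ∑ n0 ∈ (Icc 1 N0).filter (fun n => Squarefree n ∧ n ∣ D2 x ∧ Nat.Coprime n n1),
            r0 Cp n0 * w1 Cp n1) * Sg (T ^ c2) κ (psx x) (D2 x))) +
      ∑ x ∈ S, Sg (T ^ c2) κ (psx x) (D2 x)
      ≤ Cp * (E * Cs * Ck ^ 3) + E * Cs :=
        add_le_add (mul_le_mul_of_nonneg_left hA1 hCp0) hA2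
    _ = (Cp * (C0 * Cs * Ck ^ 3) + C0 * Cs) * (ρ ^ 9 / R) := by rw [hE]; ring

theorem mnk {δ δ1 C0 T1 : ℝ} (hδ : 0 < δ) (hδ1 : 0 < δ1) (hC0 : 1 ≤ C0) (hcl : ClP δ δ1 C0 T1)
    (hkp : KP δ δ1 C0 T1)
    (A c2 c5 c6 C1 κ ck : ℝ) (hA : 0 < A) (hc2 : 0 < c2) (hc5 : 0 < c5) (h56 : c5 ≤ c6 / 8)
    (hck : 0 < ck) (hck6 : ck ≤ c6 / 8)
    (h25 : c2 + c5 + c6 + ck ≤ δ1) (hC1 : 1 ≤ C1) (hκ : 0 ≤ κ) :
    ∃ C T0 : ℝ, 0 < C ∧ 2 ≤ T0 ∧ T1 ≤ T0 ∧ ∀ T : ℝ, T0 ≤ T → 2 ≤ T ^ c2 →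
    ∀ (ρ R : ℝ) (τ Y : Fin 10 → ℝ) (j : Fin 10), Scl T δ δ1 ρ R τ → ∀ S : Finset (Fin 10 → ℤ),
    (∀ x ∈ S, Cel T A ρ R τ Y j x ∧ (VV (T ^ c2) (D2 x) (vx x) : ℝ) ≤ T ^ c5) →
    ∀ k : (Fin 10 → ℤ) → ℕ, KI T ck S k →
    ∑ x ∈ S, (k x : ℝ) ^ (5 / 4 : ℝ) *
      (gg (D2 x) * HH C1 (T ^ c2) (D2 x) (vx x) * Sg (T ^ c2) κ (psx x) (D2 x)) ≤
      C * (ρ ^ 9 / R) :=
  Kmx_aux hC0 hcl hkp A c2 c5 c6 C1 κ ck hA hc2 hc5 h56 hck hck6 h25 hC1 hκ

end Pool.Agent.PP5K
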